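import Pool.Agent.Lib.MP_8613e3_co_hex.NDefs

/-!
# C01: basic facts on walks (pure combinatorics)
-/

namespace Pool.HexDraw

open Set

variable {n : ℕ} {X : Type} {N : Net n X} {ω ω' : State X}

theorem mate_none {c : CD X} (h : ω c.1 = none) : mate ω c = (c.1, c.2.1, !c.2.2) := by
  unfold mate
  rw [h]

theorem c01_mate_some {c : CD X} {b : Bool} (h : ω c.1 = some b) :
    mate ω c = (c.1, !c.2.1, xor b c.2.2) := by
  unfold mate
  rw [h]

theorem mate_fst (ω : State X) (c : CD X) : (mate ω c).1 = c.1 := by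
  cases h : ω c.1 with
  | none => rw [mate_none h]
  | some b => rw [c01_mate_some h]

theorem mate_mate (ω : State X) (c : CD X) : mate ω (mate ω c) = c := by
  obtain ⟨x, s, d⟩ := c
  cases h : ω x with
  | none =>
    rw [mate_none (c := (x, s, d)) h]
    rw [mate_none (c := (x, s, !d)) h]
    simp
  | some b =>
    rw [c01_mate_some (c := (x, s, d)) h]
    rw [c01_mate_some (c := (x, !s, xor b d)) h]
    cases s <;> cases b <;> cases d <;> rfl

theorem mate_ne (ω : State X) (c : CD X) : mate ω c ≠ c := by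
  obtain ⟨x, s, d⟩ := c
  cases h : ω x with
  | none =>
    rw [mate_none (c := (x, s, d)) h]
    intro e
    simp at e
  | some b =>
    rw [c01_mate_some (c := (x, s, d)) h]
    intro e
    simp at e

theorem mate_congr {c : CD X} (h : ω c.1 = ω' c.1) : mate ω c = mate ω' c := by
  unfold mate
  rw [h]

theorem walk_append {g w : Dart n X} {l₁ l₂ : List (CD X)} :
    N.Walk ω g (l₁ ++ l₂) w ↔ ∃ m, N.Walk ω g l₁ m ∧ N.Walk ω m l₂ w := by
  induction l₁ generalizing g with
  | nil =>
    constructor
    · intro h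
      exact ⟨g, rfl, h⟩
    · rintro ⟨m, hm, h⟩
      have : g = m := hm
      rw [this]
      exact h
  | cons c l ih =>
    constructor
    · rintro ⟨hg, h⟩
      obtain ⟨m, h1, h2⟩ := ih.mp h
      exact ⟨m, ⟨hg, h1⟩, h2⟩
    · rintro ⟨m, ⟨hg, h1⟩, h2⟩
      exact ⟨hg, ih.mpr ⟨m, h1, h2⟩⟩

theorem walk_det {g : Dart n X} {l l' : List (CD X)} {w w' : VD n}
    (h : N.Walk ω g l (Sum.inl w)) (h' : N.Walk ω g l' (Sum.inl w')) : l = l' ∧ w = w' := by
  induction l generalizing g l' with
  | nil =>
    have hg : g = Sum.inl w := h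
    cases l' with
    | nil =>
      have hg' : g = Sum.inl w' := h'
      rw [hg] at hg'
      exact ⟨rfl, Sum.inl.inj hg'⟩
    | cons c l' =>
      have := h'.1
      rw [hg] at this
      exact absurd this (by simp)
  | cons c l ih =>
    cases l' with
    | nil =>
      have hg' : g = Sum.inl w' := h'
      have := h.1
      rw [hg'] at this
      exact absurd this (by simp)
    | cons c' l' =>
      obtain ⟨hg, h1⟩ := h
      obtain ⟨hg', h1'⟩ := h'
      have hc : c = c' := by
        rw [hg] at hg'
        exact Sum.inr.inj hg'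
      subst hc
      obtain ⟨e1, e2⟩ := ih h1 h1'
      exact ⟨by rw [e1], e2⟩

theorem walk_rev {g w : Dart n X} {l : List (CD X)} (h : N.Walk ω g l w) :
    N.Walk ω (N.flip w) (l.map (mate ω)).reverse (N.flip g) := by
  induction l generalizing g with
  | nil =>
    have : g = w := h
    rw [this]
    rfl
  | cons c l ih =>
    obtain ⟨hg, h1⟩ := h
    have h2 := ih h1
    rw [List.map_cons, List.reverse_cons]
    rw [walk_append]
    refine ⟨_, h2, ?_⟩
    refine ⟨?_, ?_⟩
    · rw [N.flip_flip]
    · rw [mate_mate, hg]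
      rfl

theorem trail_rev {v w : VD n} {l : List (CD X)} (h : N.Trail ω v l w) :
    N.Trail ω w (l.map (mate ω)).reverse v := by
  have := walk_rev h
  rw [N.flip_flip] at this
  exact this

theorem walk_nodup {g : Dart n X} {l : List (CD X)} {w : VD n}
    (h : N.Walk ω g l (Sum.inl w)) : l.Nodup := by
  induction l generalizing g with
  | nil => exact List.nodup_nil
  | cons c l ih =>
    obtain ⟨hg, h1⟩ := h
    rw [List.nodup_cons]
    refine ⟨?_, ih h1⟩
    intro hc
    obtain ⟨l1, l2, e⟩ := List.append_of_mem hc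
    have hfull : N.Walk ω g (c :: l) (Sum.inl w) := ⟨hg, h1⟩
    have h3 := h1
    rw [e, walk_append] at h3
    obtain ⟨m, -, h4⟩ := h3
    have hm : m = Sum.inr c := h4.1
    have h5 : N.Walk ω g (c :: l2) (Sum.inl w) := by
      rw [hg, ← hm]
      exact h4
    have h6 := (walk_det hfull h5).1
    have h7 := congrArg List.length h6
    rw [e] at h7
    simp at h7
    omega

theorem walk_congr {g w : Dart n X} {l : List (CD X)} (hl : ∀ c ∈ l, ω c.1 = ω' c.1)
    (h : N.Walk ω g l w) : N.Walk ω' g l w := by
  induction l generalizing g with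
  | nil => exact h
  | cons c l ih =>
    obtain ⟨hg, h1⟩ := h
    refine ⟨hg, ?_⟩
    rw [← mate_congr (hl c (by simp))]
    exact ih (fun c hc => hl c (by simp [hc])) h1

end Pool.HexDraw
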