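import Pool.Agent.Lib.MP_8613e3_co_hex.C01

/-!
# C02: two trails which pass the same dart are equal
-/

namespace Pool.HexDraw

open Set

variable {n : ℕ} {X : Type} {N : Net n X} {ω ω' : State X}

theorem c02_mate_inj (ω : State X) : Function.Injective (mate ω) := by
  intro a b h
  rw [← mate_mate ω a, h, mate_mate]

/-- splitting a walk at a dart -/
theorem c02_split {g w : Dart n X} {l₁ l₂ : List (CD X)} {c : CD X}
    (h : N.Walk ω g (l₁ ++ c :: l₂) w) :
    N.Walk ω g l₁ (Sum.inr c) ∧ N.Walk ω (Sum.inr c) (c :: l₂) w ∧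
      N.Walk ω (N.flip (Sum.inr (mate ω c))) l₂ w := by
  rw [walk_append] at h
  obtain ⟨m, h1, h2⟩ := h
  have hm : m = Sum.inr c := h2.1
  rw [hm] at h1 h2
  exact ⟨h1, h2, h2.2⟩

theorem trail_share {v w v' w' : VD n} {l l' : List (CD X)} (h : N.Trail ω v l w)
    (h' : N.Trail ω v' l' w') {c : CD X} (hc : c ∈ l) (hc' : c ∈ l') :
    v = v' ∧ l = l' ∧ w = w' := by
  obtain ⟨l1, l2, e⟩ := List.append_of_mem hc
  obtain ⟨l1', l2', e'⟩ := List.append_of_mem hc'
  have h1 : N.Walk ω (N.flip (Sum.inl v)) (l1 ++ c :: l2) (Sum.inl w) := by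
    rw [← e]; exact h
  have h1' : N.Walk ω (N.flip (Sum.inl v')) (l1' ++ c :: l2') (Sum.inl w') := by
    rw [← e']; exact h'
  obtain ⟨a1, a2, -⟩ := c02_split h1
  obtain ⟨b1, b2, -⟩ := c02_split h1'
  obtain ⟨d1, d2⟩ := walk_det a2 b2
  have a3 := walk_rev a1
  have b3 := walk_rev b1
  rw [N.flip_flip] at a3 b3
  obtain ⟨d3, d4⟩ := walk_det a3 b3
  have d5 : l1 = l1' := by
    have := List.reverse_injective d3
    exact (c02_mate_inj ω).list_map this
  refine ⟨d4, ?_, d2⟩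
  rw [e, e', d5, d1]

theorem mate_not_mem {v w : VD n} {l : List (CD X)} (h : N.Trail ω v l w) (hvw : v ≠ w)
    {c : CD X} (hc : c ∈ l) : mate ω c ∉ l := by
  intro hm
  have h1 := trail_rev h
  have h2 : c ∈ (l.map (mate ω)).reverse := by
    rw [List.mem_reverse, List.mem_map]
    exact ⟨mate ω c, hm, mate_mate ω c⟩
  exact hvw (trail_share h h1 hc h2).1

/-! ### Shared lemmas for C03, C04, C05 -/

/-- gluing two walks at a dart -/
theorem c02_join {g w : Dart n X} {l₁ l₂ : List (CD X)} {c : CD X}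
    (h1 : N.Walk ω g l₁ (Sum.inr c)) (h2 : N.Walk ω (N.flip (Sum.inr (mate ω c))) l₂ w) :
    N.Walk ω g (l₁ ++ c :: l₂) w := by
  rw [walk_append]
  exact ⟨_, h1, rfl, h2⟩

/-- the effect of a smoothing on the partners -/
theorem c02_mate_switch {c c' : CD X} (h1 : c'.1 = c.1) (h2 : c'.2.1 = !c.2.1)
    (h3 : ω c.1 = none) (h4 : ω' c.1 = some (xor c.2.2 (!c'.2.2))) :
    mate ω' c = mate ω c' ∧ mate ω' c' = mate ω c := by
  obtain ⟨x, s, d⟩ := c
  obtain ⟨x', s', d'⟩ := c'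
  simp only at h1 h2 h3 h4
  subst h1
  subst h2
  rw [c01_mate_some (c := (x', s, d)) h4, c01_mate_some (c := (x', !s, d')) h4,
    mate_none (c := (x', s, d)) h3, mate_none (c := (x', !s, d')) h3]
  cases s <;> cases d <;> cases d' <;> exact ⟨rfl, rfl⟩

/-- the four darts at a straight crossing -/
theorem c02_four {c c' e : CD X} (h1 : c'.1 = c.1) (h2 : c'.2.1 = !c.2.1)
    (h3 : ω c.1 = none) (he : e.1 = c.1) :
    e = c ∨ e = mate ω c ∨ e = c' ∨ e = mate ω c' := by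
  obtain ⟨x, s, d⟩ := c
  obtain ⟨x', s', d'⟩ := c'
  obtain ⟨x'', s'', d''⟩ := e
  simp only at h1 h2 h3 he
  subst h1
  subst h2
  subst he
  rw [mate_none (c := (x'', s, d)) h3, mate_none (c := (x'', !s, d')) h3]
  cases s <;> cases d <;> cases d' <;> cases s'' <;> cases d'' <;> simp

/-- a trail through `c` or its partner is the given trail or its reverse -/
theorem c02_hit {v w v₁ w₁ : VD n} {l l₁ : List (CD X)} (h : N.Trail ω v l w)
    (h₁ : N.Trail ω v₁ l₁ w₁) {c : CD X} (hc : c ∈ l) (hc₁ : c ∈ l₁ ∨ mate ω c ∈ l₁) :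
    (v₁ = v ∧ w₁ = w) ∨ (v₁ = w ∧ w₁ = v) := by
  rcases hc₁ with hc₁ | hc₁
  · obtain ⟨a, -, b⟩ := trail_share h h₁ hc hc₁
    exact Or.inl ⟨a.symm, b.symm⟩
  · have h2 : mate ω c ∈ (l.map (mate ω)).reverse := by
      rw [List.mem_reverse, List.mem_map]
      exact ⟨c, hc, rfl⟩
    obtain ⟨a, -, b⟩ := trail_share (trail_rev h) h₁ h2 hc₁
    exact Or.inr ⟨a.symm, b.symm⟩

/-- the criterion for `K` after a change of the state -/
theorem c02_K (hK : N.K ω) (hc : ∀ v l w, N.Trail ω v l w → v.1.1 ≠ w.1.1 →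
    (∀ c ∈ l, ω c.1 = ω' c.1) ∨
      ∃ v' l' w', v'.1.1 = v.1.1 ∧ w'.1.1 = w.1.1 ∧ N.Trail ω' v' l' w') : N.K ω' := by
  intro i j hij
  obtain ⟨v, l, w, hv, hw, ht⟩ := hK i j hij
  have hne : v.1.1 ≠ w.1.1 := by rw [hv, hw]; exact hij
  rcases hc v l w ht hne with h | ⟨v', l', w', a, b, t⟩
  · exact ⟨v, l, w, hv, hw, walk_congr h ht⟩
  · exact ⟨v', l', w', by rw [a, hv], by rw [b, hw], t⟩

/-- new straight crossings do not appear -/
theorem c02_strt {x : X} (hx : ω x = none) (hx' : ω' x ≠ none)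
    (h : ∀ y, ω' y = none → ω y = none) : strt ω' ⊂ strt ω := by
  refine ⟨fun y hy => h y hy, fun hs => hx' ?_⟩
  exact hs hx

/-- in a list without repetitions the two parts around a member avoid it -/
theorem c02_nodup {l₁ l₂ : List (CD X)} {c : CD X} (h : (l₁ ++ c :: l₂).Nodup) :
    c ∉ l₁ ∧ c ∉ l₂ := by
  rw [List.nodup_append] at h
  obtain ⟨-, h2, h3⟩ := h
  rw [List.nodup_cons] at h2
  refine ⟨fun hc => ?_, h2.1⟩
  exact h3 c hc c (by simp) rfl

/-- two members of a list, in one order or the other -/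
theorem c02_order {l : List (CD X)} {c e : CD X} (hc : c ∈ l) (he : e ∈ l) (hce : c ≠ e) :
    (∃ α β γ, l = α ++ c :: (β ++ e :: γ)) ∨ ∃ α β γ, l = α ++ e :: (β ++ c :: γ) := by
  obtain ⟨l1, l2, h⟩ := List.append_of_mem hc
  rw [h] at he
  rw [List.mem_append, List.mem_cons] at he
  rcases he with he | he | he
  · right
    obtain ⟨a, b, h'⟩ := List.append_of_mem he
    refine ⟨a, b, l2, ?_⟩
    rw [h, h']
    simp
  · exact absurd he.symm hce
  · left
    obtain ⟨a, b, h'⟩ := List.append_of_mem he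
    refine ⟨l1, a, b, ?_⟩
    rw [h, h']

end Pool.HexDraw
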