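import Pool.Agent.Lib.MP_8613e3_co_hex.C02

/-!
# C03: removing a straight self-crossing of a trail
-/

namespace Pool.HexDraw

open Set

variable {n : ℕ} {X : Type} {N : Net n X} {ω : State X}

open Classical in
theorem c03_aux (hK : N.K ω) {v w : VD n} {l : List (CD X)} (h : N.Trail ω v l w)
    (hvw : v.1.1 ≠ w.1.1) {x : X} (hx : ω x = none) {c c' : CD X} (h1 : c.1 = x)
    (h1' : c'.1 = x) (h2 : c'.2.1 = !c.2.1) {α β γ : List (CD X)}
    (e : l = α ++ c :: (β ++ c' :: γ)) : ∃ ω' : State X, N.K ω' ∧ strt ω' ⊂ strt ω := by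
  have hne : v ≠ w := fun hh => hvw (by rw [hh])
  have hcl : c ∈ l := by rw [e]; simp
  have hcl' : c' ∈ l := by rw [e]; simp
  have hm : mate ω c ∉ l := mate_not_mem h hne hcl
  have hm' : mate ω c' ∉ l := mate_not_mem h hne hcl'
  have hcx : ω c.1 = none := by rw [h1]; exact hx
  have hcc : c'.1 = c.1 := by rw [h1, h1']
  have hnd : l.Nodup := walk_nodup h
  have hcne : c ≠ c' := by
    intro hh
    rw [← hh] at h2
    simp at h2
  set ω' : State X := Function.update ω x (some (xor c.2.2 (!c'.2.2))) with hω'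
  have hω'x : ω' c.1 = some (xor c.2.2 (!c'.2.2)) := by
    rw [h1, hω']; simp
  have hω'n : ∀ y, y ≠ x → ω y = ω' y := by
    intro y hy
    rw [hω', Function.update_of_ne hy]
  obtain ⟨s1, s2⟩ := c02_mate_switch hcc h2 hcx hω'x
  -- no dart of the parts is at `x`
  have hα : ∀ f ∈ α, ω f.1 = ω' f.1 := by
    intro f hf
    apply hω'n
    intro hfx
    have hfl : f ∈ l := by rw [e]; simp [hf]
    rcases c02_four hcc h2 hcx (e := f) (by rw [hfx, h1]) with hh | hh | hh | hh
    · have : c ∈ α := hh ▸ hf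
      rw [e] at hnd
      exact (c02_nodup hnd).1 this
    · exact hm (hh ▸ hfl)
    · have hfα : c' ∈ α := hh ▸ hf
      have e2 : l = (α ++ c :: β) ++ c' :: γ := by rw [e]; simp
      rw [e2] at hnd
      exact (c02_nodup hnd).1 (by simp [hfα])
    · exact hm' (hh ▸ hfl)
  have hγ : ∀ f ∈ γ, ω f.1 = ω' f.1 := by
    intro f hf
    apply hω'n
    intro hfx
    have hfl : f ∈ l := by rw [e]; simp [hf]
    rcases c02_four hcc h2 hcx (e := f) (by rw [hfx, h1]) with hh | hh | hh | hh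
    · have : c ∈ γ := hh ▸ hf
      rw [e] at hnd
      exact (c02_nodup hnd).2 (by simp [this])
    · exact hm (hh ▸ hfl)
    · have hfγ : c' ∈ γ := hh ▸ hf
      have e2 : l = (α ++ c :: β) ++ c' :: γ := by rw [e]; simp
      rw [e2] at hnd
      exact (c02_nodup hnd).2 hfγ
    · exact hm' (hh ▸ hfl)
  -- the new trail
  have hT : N.Trail ω' v (α ++ c :: γ) w := by
    have w1 : N.Walk ω (N.flip (Sum.inl v)) (α ++ c :: (β ++ c' :: γ)) (Sum.inl w) := by
      rw [← e]; exact h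
    obtain ⟨a1, -, a3⟩ := c02_split w1
    obtain ⟨-, -, b3⟩ := c02_split a3
    refine c02_join (walk_congr hα a1) ?_
    rw [s1]
    exact walk_congr hγ b3
  refine ⟨ω', c02_K hK ?_, ?_⟩
  · intro v₁ l₁ w₁ ht hne₁
    by_cases hx1 : ∃ f ∈ l₁, f.1 = x
    · right
      obtain ⟨f, hf, hfx⟩ := hx1
      have hh : (v₁ = v ∧ w₁ = w) ∨ (v₁ = w ∧ w₁ = v) := by
        rcases c02_four hcc h2 hcx (e := f) (by rw [hfx, h1]) with hh | hh | hh | hh
        · exact c02_hit h ht hcl (Or.inl (hh ▸ hf))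
        · exact c02_hit h ht hcl (Or.inr (hh ▸ hf))
        · exact c02_hit h ht hcl' (Or.inl (hh ▸ hf))
        · exact c02_hit h ht hcl' (Or.inr (hh ▸ hf))
      rcases hh with ⟨a, b⟩ | ⟨a, b⟩
      · exact ⟨v, _, w, by rw [a], by rw [b], hT⟩
      · exact ⟨w, _, v, by rw [a], by rw [b], trail_rev hT⟩
    · left
      push Not at hx1
      intro f hf
      exact hω'n _ (hx1 f hf)
  · apply c02_strt hx
    · rw [← h1, hω'x]; simp
    · intro y hy
      by_cases hyx : y = x
      · rw [hyx]; exact hx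
      · rw [hω'n y hyx]; exact hy

theorem switch_self (hK : N.K ω) {v w : VD n} {l : List (CD X)} (h : N.Trail ω v l w)
    (hvw : v.1.1 ≠ w.1.1) {x : X} (hx : ω x = none) {d d' : Bool} (hc : (x, false, d) ∈ l)
    (hc' : (x, true, d') ∈ l) : ∃ ω' : State X, N.K ω' ∧ strt ω' ⊂ strt ω := by
  rcases c02_order hc hc' (by simp) with ⟨α, β, γ, e⟩ | ⟨α, β, γ, e⟩
  · exact c03_aux hK h hvw hx rfl rfl rfl e
  · exact c03_aux hK h hvw hx rfl rfl rfl e

end Pool.HexDraw
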