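import Pool.Agent.Lib.MP_8613e3_co_hex.C02

/-!
# C04: removing a straight crossing of two adjacent trails
-/

namespace Pool.HexDraw

open Set

variable {n : ℕ} {X : Type} {N : Net n X} {ω : State X}

open Classical in
theorem switch_adj (hK : N.K ω) {v w v' w' : VD n} {l l' : List (CD X)} (h : N.Trail ω v l w)
    (h' : N.Trail ω v' l' w') (hv : v.1.1 = v'.1.1) (hvw : v.1.1 ≠ w.1.1)
    (hvw' : v'.1.1 ≠ w'.1.1) (hww : w.1.1 ≠ w'.1.1) {x : X} (hx : ω x = none) {s d d' : Bool}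
    (hc : (x, s, d) ∈ l) (hc' : (x, !s, d') ∈ l') :
    ∃ ω' : State X, N.K ω' ∧ strt ω' ⊂ strt ω := by
  have n1 : v ≠ w := fun hh => hvw (by rw [hh])
  have n2 : v' ≠ w' := fun hh => hvw' (by rw [hh])
  have n3 : w ≠ w' := fun hh => hww (by rw [hh])
  have n4 : v ≠ w' := fun hh => hvw' (by rw [← hv, hh])
  set c : CD X := (x, s, d) with hcdef
  set c' : CD X := (x, !s, d') with hcdef'
  have h1 : c.1 = x := rfl
  have hcc : c'.1 = c.1 := rfl
  have h2 : c'.2.1 = !c.2.1 := rfl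
  have hcx : ω c.1 = none := hx
  have m1 : mate ω c ∉ l := mate_not_mem h n1 hc
  have m2 : mate ω c' ∉ l' := mate_not_mem h' n2 hc'
  -- the two trails share no dart, even after a reversal
  have k1 : ∀ f ∈ l, f ∉ l' := fun f hf hf' => n3 (trail_share h h' hf hf').2.2
  have k2 : ∀ f ∈ l, mate ω f ∉ l' := by
    intro f hf hf'
    rcases c02_hit h h' hf (Or.inr hf') with ⟨-, b⟩ | ⟨-, b⟩
    · exact n3 b.symm
    · exact n4 b.symm
  have k3 : ∀ f ∈ l', mate ω f ∉ l := by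
    intro f hf hf'
    have := k2 _ hf'
    rw [mate_mate] at this
    exact this hf
  set ω' : State X := Function.update ω x (some (xor c.2.2 (!c'.2.2))) with hω'
  have hω'x : ω' c.1 = some (xor c.2.2 (!c'.2.2)) := by
    rw [h1, hω']; simp
  have hω'n : ∀ y, y ≠ x → ω y = ω' y := by
    intro y hy
    rw [hω', Function.update_of_ne hy]
  obtain ⟨s1, s2⟩ := c02_mate_switch hcc h2 hcx hω'x
  -- the darts at `x` in the two lists
  have q1 : ∀ f ∈ l, f.1 = x → f = c := by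
    intro f hf hfx
    rcases c02_four hcc h2 hcx (e := f) (by rw [hfx, h1]) with hh | hh | hh | hh
    · exact hh
    · exact absurd (hh ▸ hf) m1
    · exact absurd hc' (hh ▸ k1 f hf)
    · exact absurd (hh ▸ hf) (k3 c' hc')
  have q2 : ∀ f ∈ l', f.1 = x → f = c' := by
    intro f hf hfx
    rcases c02_four hcc h2 hcx (e := f) (by rw [hfx, h1]) with hh | hh | hh | hh
    · exact absurd (hh ▸ hf) (k1 c hc)
    · exact absurd (hh ▸ hf) (k2 c hc)
    · exact hh
    · exact absurd (hh ▸ hf) m2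
  obtain ⟨α, β, e⟩ := List.append_of_mem hc
  obtain ⟨α', β', e'⟩ := List.append_of_mem hc'
  have hnd := walk_nodup h
  have hnd' := walk_nodup h'
  rw [e] at hnd
  rw [e'] at hnd'
  obtain ⟨nd1, nd2⟩ := c02_nodup hnd
  obtain ⟨nd1', nd2'⟩ := c02_nodup hnd'
  have hα : ∀ f ∈ α, ω f.1 = ω' f.1 := fun f hf => hω'n _ fun hfx =>
    nd1 (q1 f (by rw [e]; simp [hf]) hfx ▸ hf)
  have hβ : ∀ f ∈ β, ω f.1 = ω' f.1 := fun f hf => hω'n _ fun hfx =>
    nd2 (q1 f (by rw [e]; simp [hf]) hfx ▸ hf)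
  have hα' : ∀ f ∈ α', ω f.1 = ω' f.1 := fun f hf => hω'n _ fun hfx =>
    nd1' (q2 f (by rw [e']; simp [hf]) hfx ▸ hf)
  have hβ' : ∀ f ∈ β', ω f.1 = ω' f.1 := fun f hf => hω'n _ fun hfx =>
    nd2' (q2 f (by rw [e']; simp [hf]) hfx ▸ hf)
  have w1 : N.Walk ω (N.flip (Sum.inl v)) (α ++ c :: β) (Sum.inl w) := by
    rw [← e]; exact h
  have w2 : N.Walk ω (N.flip (Sum.inl v')) (α' ++ c' :: β') (Sum.inl w') := by
    rw [← e']; exact h'
  obtain ⟨a1, -, a3⟩ := c02_split w1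
  obtain ⟨b1, -, b3⟩ := c02_split w2
  have hT : N.Trail ω' v (α ++ c :: β') w' := by
    refine c02_join (walk_congr hα a1) ?_
    rw [s1]
    exact walk_congr hβ' b3
  have hT' : N.Trail ω' v' (α' ++ c' :: β) w := by
    refine c02_join (walk_congr hα' b1) ?_
    rw [s2]
    exact walk_congr hβ a3
  refine ⟨ω', c02_K hK ?_, ?_⟩
  · intro v₁ l₁ w₁ ht hne₁
    by_cases hx1 : ∃ f ∈ l₁, f.1 = x
    · right
      obtain ⟨f, hf, hfx⟩ := hx1
      have hh : ((v₁ = v ∧ w₁ = w) ∨ (v₁ = w ∧ w₁ = v)) ∨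
          ((v₁ = v' ∧ w₁ = w') ∨ (v₁ = w' ∧ w₁ = v')) := by
        rcases c02_four hcc h2 hcx (e := f) (by rw [hfx, h1]) with hh | hh | hh | hh
        · exact Or.inl (c02_hit h ht hc (Or.inl (hh ▸ hf)))
        · exact Or.inl (c02_hit h ht hc (Or.inr (hh ▸ hf)))
        · exact Or.inr (c02_hit h' ht hc' (Or.inl (hh ▸ hf)))
        · exact Or.inr (c02_hit h' ht hc' (Or.inr (hh ▸ hf)))
      rcases hh with (⟨a, b⟩ | ⟨a, b⟩) | (⟨a, b⟩ | ⟨a, b⟩)
      · exact ⟨v', _, w, by rw [a, hv], by rw [b], hT'⟩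
      · exact ⟨w, _, v', by rw [a], by rw [b, hv], trail_rev hT'⟩
      · exact ⟨v, _, w', by rw [a, hv], by rw [b], hT⟩
      · exact ⟨w', _, v, by rw [a], by rw [b, hv], trail_rev hT⟩
    · left
      push Not at hx1
      intro f hf
      exact hω'n _ (hx1 f hf)
  · apply c02_strt hx
    · rw [← h1, hω'x]; simp
    · intro y hy
      by_cases hyx : y = x
      · rw [hyx]; exact hx
      · rw [hω'n y hyx]; exact hy

end Pool.HexDraw
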