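import Pool.Agent.Lib.MP_8613e3_co_hex.C02

/-!
# C05: removing two straight crossings of two disjoint trails
-/

namespace Pool.HexDraw

open Set

variable {n : ℕ} {X : Type} {N : Net n X} {ω : State X}

open Classical in
theorem c05_aux (hK : N.K ω) {v w v' w' : VD n} {l l' : List (CD X)} (h : N.Trail ω v l w)
    (h' : N.Trail ω v' l' w') (n1 : v ≠ w) (n2 : v' ≠ w') (n3 : w ≠ w') (n4 : v ≠ w')
    (n5 : v ≠ v') (n6 : w ≠ v') {x y : X} (hxy : x ≠ y) (hx : ω x = none)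
    (hy : ω y = none) {c c' e e' : CD X} (h1 : c.1 = x) (h1' : c'.1 = x)
    (h2 : c'.2.1 = !c.2.1) (g1 : e.1 = y) (g1' : e'.1 = y) (g2 : e'.2.1 = !e.2.1)
    {α β γ α' β' γ' : List (CD X)} (hl : l = α ++ c :: (β ++ e :: γ))
    (hl' : l' = α' ++ c' :: (β' ++ e' :: γ')) :
    ∃ ω' : State X, N.K ω' ∧ strt ω' ⊂ strt ω := by
  have hc : c ∈ l := by rw [hl]; simp
  have he : e ∈ l := by rw [hl]; simp
  have hc' : c' ∈ l' := by rw [hl']; simp
  have he' : e' ∈ l' := by rw [hl']; simp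
  have hcc : c'.1 = c.1 := by rw [h1, h1']
  have hee : e'.1 = e.1 := by rw [g1, g1']
  have hcx : ω c.1 = none := by rw [h1]; exact hx
  have hey : ω e.1 = none := by rw [g1]; exact hy
  have k0 : ∀ f ∈ l, mate ω f ∉ l := fun f hf => mate_not_mem h n1 hf
  have k0' : ∀ f ∈ l', mate ω f ∉ l' := fun f hf => mate_not_mem h' n2 hf
  have k1 : ∀ f ∈ l, f ∉ l' := fun f hf hf' => n3 (trail_share h h' hf hf').2.2
  have k2 : ∀ f ∈ l, mate ω f ∉ l' := by
    intro f hf hf'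
    rcases c02_hit h h' hf (Or.inr hf') with ⟨-, b⟩ | ⟨-, b⟩
    · exact n3 b.symm
    · exact n4 b.symm
  have k3 : ∀ f ∈ l', mate ω f ∉ l := by
    intro f hf hf'
    have := k2 _ hf'
    rw [mate_mate] at this
    exact this hf
  set ω' : State X := Function.update (Function.update ω x (some (xor c.2.2 (!c'.2.2)))) y
    (some (xor e.2.2 (!e'.2.2))) with hω'
  have hω'x : ω' c.1 = some (xor c.2.2 (!c'.2.2)) := by
    rw [h1, hω', Function.update_of_ne hxy]; simp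
  have hω'y : ω' e.1 = some (xor e.2.2 (!e'.2.2)) := by
    rw [g1, hω']; simp
  have hω'n : ∀ z, z ≠ x → z ≠ y → ω z = ω' z := by
    intro z hz hz'
    rw [hω', Function.update_of_ne hz', Function.update_of_ne hz]
  obtain ⟨s1, s2⟩ := c02_mate_switch hcc h2 hcx hω'x
  obtain ⟨t1, t2⟩ := c02_mate_switch hee g2 hey hω'y
  have q1 : ∀ f ∈ l, f.1 = x → f = c := by
    intro f hf hfx
    rcases c02_four hcc h2 hcx (e := f) (by rw [hfx, h1]) with hh | hh | hh | hh
    · exact hh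
    · exact absurd (hh ▸ hf) (k0 c hc)
    · exact absurd hc' (hh ▸ k1 f hf)
    · exact absurd (hh ▸ hf) (k3 c' hc')
  have q2 : ∀ f ∈ l', f.1 = x → f = c' := by
    intro f hf hfx
    rcases c02_four hcc h2 hcx (e := f) (by rw [hfx, h1]) with hh | hh | hh | hh
    · exact absurd (hh ▸ hf) (k1 c hc)
    · exact absurd (hh ▸ hf) (k2 c hc)
    · exact hh
    · exact absurd (hh ▸ hf) (k0' c' hc')
  have r1 : ∀ f ∈ l, f.1 = y → f = e := by
    intro f hf hfx
    rcases c02_four hee g2 hey (e := f) (by rw [hfx, g1]) with hh | hh | hh | hh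
    · exact hh
    · exact absurd (hh ▸ hf) (k0 e he)
    · exact absurd he' (hh ▸ k1 f hf)
    · exact absurd (hh ▸ hf) (k3 e' he')
  have r2 : ∀ f ∈ l', f.1 = y → f = e' := by
    intro f hf hfx
    rcases c02_four hee g2 hey (e := f) (by rw [hfx, g1]) with hh | hh | hh | hh
    · exact absurd (hh ▸ hf) (k1 e he)
    · exact absurd (hh ▸ hf) (k2 e he)
    · exact hh
    · exact absurd (hh ▸ hf) (k0' e' he')
  have hnd := walk_nodup h
  have hnd' := walk_nodup h'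
  have hl2 : l = (α ++ c :: β) ++ e :: γ := by rw [hl]; simp
  have hl2' : l' = (α' ++ c' :: β') ++ e' :: γ' := by rw [hl']; simp
  have p1 := c02_nodup (hl ▸ hnd)
  have p2 := c02_nodup (hl2 ▸ hnd)
  have p1' := c02_nodup (hl' ▸ hnd')
  have p2' := c02_nodup (hl2' ▸ hnd')
  -- the parts avoid `x` and `y`
  have key : ∀ (m : List (CD X)), (∀ f ∈ m, f ∈ l) → c ∉ m → e ∉ m →
      ∀ f ∈ m, ω f.1 = ω' f.1 := by
    intro m hm hcm hem f hf
    apply hω'n
    · intro hfx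
      exact hcm (q1 f (hm f hf) hfx ▸ hf)
    · intro hfy
      exact hem (r1 f (hm f hf) hfy ▸ hf)
  have key' : ∀ (m : List (CD X)), (∀ f ∈ m, f ∈ l') → c' ∉ m → e' ∉ m →
      ∀ f ∈ m, ω f.1 = ω' f.1 := by
    intro m hm hcm hem f hf
    apply hω'n
    · intro hfx
      exact hcm (q2 f (hm f hf) hfx ▸ hf)
    · intro hfy
      exact hem (r2 f (hm f hf) hfy ▸ hf)
  have hα := key α (fun f hf => by rw [hl]; simp [hf]) p1.1
    (fun hh => p2.1 (by simp [hh]))
  have hβ := key β (fun f hf => by rw [hl]; simp [hf])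
    (fun hh => p1.2 (by simp [hh])) (fun hh => p2.1 (by simp [hh]))
  have hγ := key γ (fun f hf => by rw [hl]; simp [hf])
    (fun hh => p1.2 (by simp [hh])) p2.2
  have hα' := key' α' (fun f hf => by rw [hl']; simp [hf]) p1'.1
    (fun hh => p2'.1 (by simp [hh]))
  have hβ' := key' β' (fun f hf => by rw [hl']; simp [hf])
    (fun hh => p1'.2 (by simp [hh])) (fun hh => p2'.1 (by simp [hh]))
  have hγ' := key' γ' (fun f hf => by rw [hl']; simp [hf])
    (fun hh => p1'.2 (by simp [hh])) p2'.2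
  have w1 : N.Walk ω (N.flip (Sum.inl v)) (α ++ c :: (β ++ e :: γ)) (Sum.inl w) := by
    rw [← hl]; exact h
  have w2 : N.Walk ω (N.flip (Sum.inl v')) (α' ++ c' :: (β' ++ e' :: γ')) (Sum.inl w') := by
    rw [← hl']; exact h'
  obtain ⟨a1, -, a2⟩ := c02_split w1
  obtain ⟨a3, -, a4⟩ := c02_split a2
  obtain ⟨b1, -, b2⟩ := c02_split w2
  obtain ⟨b3, -, b4⟩ := c02_split b2
  have hT : N.Trail ω' v (α ++ c :: (β' ++ e' :: γ)) w := by
    refine c02_join (walk_congr hα a1) ?_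
    rw [s1]
    refine c02_join (walk_congr hβ' b3) ?_
    rw [t2]
    exact walk_congr hγ a4
  have hT' : N.Trail ω' v' (α' ++ c' :: (β ++ e :: γ')) w' := by
    refine c02_join (walk_congr hα' b1) ?_
    rw [s2]
    refine c02_join (walk_congr hβ a3) ?_
    rw [t1]
    exact walk_congr hγ' b4
  refine ⟨ω', c02_K hK ?_, ?_⟩
  · intro v₁ l₁ w₁ ht hne₁
    by_cases hx1 : ∃ f ∈ l₁, f.1 = x ∨ f.1 = y
    · right
      obtain ⟨f, hf, hfx⟩ := hx1
      have hh : ((v₁ = v ∧ w₁ = w) ∨ (v₁ = w ∧ w₁ = v)) ∨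
          ((v₁ = v' ∧ w₁ = w') ∨ (v₁ = w' ∧ w₁ = v')) := by
        rcases hfx with hfx | hfx
        · rcases c02_four hcc h2 hcx (e := f) (by rw [hfx, h1]) with hh | hh | hh | hh
          · exact Or.inl (c02_hit h ht hc (Or.inl (hh ▸ hf)))
          · exact Or.inl (c02_hit h ht hc (Or.inr (hh ▸ hf)))
          · exact Or.inr (c02_hit h' ht hc' (Or.inl (hh ▸ hf)))
          · exact Or.inr (c02_hit h' ht hc' (Or.inr (hh ▸ hf)))
        · rcases c02_four hee g2 hey (e := f) (by rw [hfx, g1]) with hh | hh | hh | hh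
          · exact Or.inl (c02_hit h ht he (Or.inl (hh ▸ hf)))
          · exact Or.inl (c02_hit h ht he (Or.inr (hh ▸ hf)))
          · exact Or.inr (c02_hit h' ht he' (Or.inl (hh ▸ hf)))
          · exact Or.inr (c02_hit h' ht he' (Or.inr (hh ▸ hf)))
      rcases hh with (⟨a, b⟩ | ⟨a, b⟩) | (⟨a, b⟩ | ⟨a, b⟩)
      · exact ⟨v, _, w, by rw [a], by rw [b], hT⟩
      · exact ⟨w, _, v, by rw [a], by rw [b], trail_rev hT⟩
      · exact ⟨v', _, w', by rw [a], by rw [b], hT'⟩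
      · exact ⟨w', _, v', by rw [a], by rw [b], trail_rev hT'⟩
    · left
      push Not at hx1
      intro f hf
      exact hω'n _ (hx1 f hf).1 (hx1 f hf).2
  · apply c02_strt hx
    · rw [← h1, hω'x]; simp
    · intro z hz
      by_cases hzx : z = x
      · rw [hzx]; exact hx
      · by_cases hzy : z = y
        · rw [hzy]; exact hy
        · rw [hω'n z hzx hzy]; exact hz

/-- the case where `c` comes before `e` in the first trail -/
theorem c05_aux2 (hK : N.K ω) {v w v' w' : VD n} {l l' : List (CD X)} (h : N.Trail ω v l w)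
    (h' : N.Trail ω v' l' w') (n1 : v ≠ w) (n2 : v' ≠ w') (n3 : w ≠ w') (n4 : v ≠ w')
    (n5 : v ≠ v') (n6 : w ≠ v') {x y : X} (hxy : x ≠ y) (hx : ω x = none)
    (hy : ω y = none) {c c' e e' : CD X} (h1 : c.1 = x) (h1' : c'.1 = x)
    (h2 : c'.2.1 = !c.2.1) (g1 : e.1 = y) (g1' : e'.1 = y) (g2 : e'.2.1 = !e.2.1)
    {α β γ : List (CD X)} (hl : l = α ++ c :: (β ++ e :: γ)) (hc' : c' ∈ l') (he' : e' ∈ l') :
    ∃ ω' : State X, N.K ω' ∧ strt ω' ⊂ strt ω := by
  have hne : c' ≠ e' := by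
    intro hh
    apply hxy
    rw [← h1', ← g1', hh]
  rcases c02_order hc' he' hne with ⟨α', β', γ', hl'⟩ | ⟨α', β', γ', hl'⟩
  · exact c05_aux hK h h' n1 n2 n3 n4 n5 n6 hxy hx hy h1 h1' h2 g1 g1' g2 hl hl'
  · have hrev : (l'.map (mate ω)).reverse = (γ'.map (mate ω)).reverse ++ mate ω c' ::
        ((β'.map (mate ω)).reverse ++ mate ω e' :: (α'.map (mate ω)).reverse) := by
      rw [hl']
      simp
    have hcx : ω c'.1 = none := by rw [h1']; exact hx
    have hey : ω e'.1 = none := by rw [g1']; exact hy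
    refine c05_aux hK h (trail_rev h') n1 (Ne.symm n2) n6 n5 n4 n3 hxy hx hy h1 ?_ ?_ g1 ?_ ?_
      hl hrev
    · rw [mate_fst, h1']
    · rw [mate_none hcx]
      exact h2
    · rw [mate_fst, g1']
    · rw [mate_none hey]
      exact g2

theorem switch_dbl (hK : N.K ω) {v w v' w' : VD n} {l l' : List (CD X)} (h : N.Trail ω v l w)
    (h' : N.Trail ω v' l' w') (hvw : v.1.1 ≠ w.1.1) (hvw' : v'.1.1 ≠ w'.1.1)
    (hD : Dj v.1.1 w.1.1 v'.1.1 w'.1.1) {x y : X} (hxy : x ≠ y) (hx : ω x = none)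
    (hy : ω y = none) {s d d' t e e' : Bool} (hc : (x, s, d) ∈ l) (hc' : (x, !s, d') ∈ l')
    (he : (y, t, e) ∈ l) (he' : (y, !t, e') ∈ l') :
    ∃ ω' : State X, N.K ω' ∧ strt ω' ⊂ strt ω := by
  obtain ⟨d1, d2, d3, d4⟩ := hD
  have n1 : v ≠ w := fun hh => hvw (by rw [hh])
  have n2 : v' ≠ w' := fun hh => hvw' (by rw [hh])
  have n3 : w ≠ w' := fun hh => d4 (by rw [hh])
  have n4 : v ≠ w' := fun hh => d2 (by rw [hh])
  have n5 : v ≠ v' := fun hh => d1 (by rw [hh])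
  have n6 : w ≠ v' := fun hh => d3 (by rw [hh])
  have hne : ((x, s, d) : CD X) ≠ (y, t, e) := by
    intro hh
    exact hxy (congrArg Prod.fst hh)
  rcases c02_order hc he hne with ⟨α, β, γ, hl⟩ | ⟨α, β, γ, hl⟩
  · exact c05_aux2 hK h h' n1 n2 n3 n4 n5 n6 hxy hx hy rfl rfl rfl rfl rfl rfl hl hc' he'
  · exact c05_aux2 hK h h' n1 n2 n3 n4 n5 n6 hxy.symm hy hx rfl rfl rfl rfl rfl rfl hl he' hc'

end Pool.HexDraw
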