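import Pool.Agent.Lib.MP_8613e3_co_hex.C03
import Pool.Agent.Lib.MP_8613e3_co_hex.C04
import Pool.Agent.Lib.MP_8613e3_co_hex.C05

/-!
# C06: a good state with at most as many straight crossings
-/

namespace Pool.HexDraw

open Set

variable {n : ℕ} {X : Type} {N : Net n X}

theorem c06_good {ω : State X} (hK : N.K ω)
    (hmin : ∀ ω' : State X, N.K ω' → ¬ strt ω' ⊂ strt ω) : N.Good ω := by
  refine ⟨hK, ?_, ?_, ?_⟩
  · intro v l w ht hne x hx d d' h1 h2
    obtain ⟨ω', k, s⟩ := switch_self hK ht hne hx h1 h2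
    exact hmin ω' k s
  · intro v l w v' l' w' ht ht' hv h1 h2 h3 x hx s d d' h4 h5
    obtain ⟨ω', k, s⟩ := switch_adj hK ht ht' hv h1 h2 h3 hx h4 h5
    exact hmin ω' k s
  · intro v l w v' l' w' ht ht' h1 h2 hD x y hx hy s d d' t e e' h3 h4 h5 h6
    by_contra hxy
    obtain ⟨ω', k, s⟩ := switch_dbl hK ht ht' h1 h2 hD hxy hx hy h3 h4 h5 h6
    exact hmin ω' k s

theorem exists_good [Finite X] {ω : State X} (hK : N.K ω) :
    ∃ ω' : State X, N.Good ω' ∧ (strt ω').ncard ≤ (strt ω).ncard := by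
  induction hm : (strt ω).ncard using Nat.strong_induction_on generalizing ω with
  | _ m ih =>
    by_cases hmin : ∀ ω' : State X, N.K ω' → ¬ strt ω' ⊂ strt ω
    · exact ⟨ω, c06_good hK hmin, hm.le⟩
    · push Not at hmin
      obtain ⟨ω', k, s⟩ := hmin
      have hlt : (strt ω').ncard < (strt ω).ncard := Set.ncard_lt_ncard s (Set.toFinite _)
      obtain ⟨ω'', g, hle⟩ := ih _ (hm ▸ hlt) k rfl
      exact ⟨ω'', g, by omega⟩

end Pool.HexDraw
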