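import Mathlib

/-!
# Good drawings of complete graphs: the definitions used in the final statement

A drawing of `K_n` in a topological space `S` (for the final theorem the unit
sphere of Euclidean three-space): the vertices are distinct points, every edge
is a simple arc joining its two ends through no other vertex, edges with a
common end meet only in that end, two disjoint edges meet in at most one point
and there they cross transversally, and no three edges cross in one point.
-/

namespace Pool.HexDraw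

open Set

/-- `γ` restricted to `[0,1]` parametrises the simple arc `A` from `p` to `q`. -/
def Param {S : Type} [TopologicalSpace S] (γ : ℝ → S) (p q : S) (A : Set S) : Prop :=
  ContinuousOn γ (Icc 0 1) ∧ InjOn γ (Icc 0 1) ∧ γ 0 = p ∧ γ 1 = q ∧ γ '' Icc 0 1 = A

/-- `A` is a simple arc with ends `p` and `q`. -/
def IsArc {S : Type} [TopologicalSpace S] (p q : S) (A : Set S) : Prop :=
  ∃ γ : ℝ → S, Param γ p q A

/-- The sets `A` and `B` cross transversally at `x`: a homeomorphism from an open
neighbourhood of `x` to an open subset of the plane sends `x` to the origin, `A` to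
the first axis and `B` to the second axis. -/
def CrossAt {S : Type} [TopologicalSpace S] (x : S) (A B : Set S) : Prop :=
  ∃ φ : OpenPartialHomeomorph S (ℝ × ℝ), x ∈ φ.source ∧ φ x = (0, 0) ∧
    ∀ y ∈ φ.source, (y ∈ A ↔ (φ y).2 = 0) ∧ (y ∈ B ↔ (φ y).1 = 0)

/-- The pairs `{i,j}` and `{k,l}` are disjoint. -/
def Dj {n : ℕ} (i j k l : Fin n) : Prop := i ≠ k ∧ i ≠ l ∧ j ≠ k ∧ j ≠ l

/-- A (good) drawing of the complete graph `K_n` in `S`. -/
structure Drawing (S : Type) [TopologicalSpace S] (n : ℕ) where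
  /-- the vertices -/
  pt : Fin n → S
  /-- the edges (the values `edge i i` play no role) -/
  edge : Fin n → Fin n → Set S
  pt_inj : Function.Injective pt
  symm : ∀ i j, edge i j = edge j i
  arc : ∀ i j, i ≠ j → IsArc (pt i) (pt j) (edge i j)
  avoid : ∀ i j k, i ≠ j → k ≠ i → k ≠ j → pt k ∉ edge i j
  adjacent : ∀ i j k, i ≠ j → i ≠ k → j ≠ k → edge i j ∩ edge i k = {pt i}
  once : ∀ i j k l, i ≠ j → k ≠ l → Dj i j k l → (edge i j ∩ edge k l).Subsingleton
  cross : ∀ i j k l, i ≠ j → k ≠ l → Dj i j k l → ∀ x ∈ edge i j ∩ edge k l,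
    CrossAt x (edge i j) (edge k l)
  noTriple : ∀ i j k l u v, i ≠ j → k ≠ l → u ≠ v → Dj i j k l → Dj i j u v → Dj k l u v →
    edge i j ∩ edge k l ∩ edge u v = ∅

variable {S : Type} [TopologicalSpace S] {n : ℕ}

/-- The set of all crossings of a drawing. -/
def Drawing.crossings (D : Drawing S n) : Set S :=
  {x | ∃ i j k l, i ≠ j ∧ k ≠ l ∧ Dj i j k l ∧ x ∈ D.edge i j ∧ x ∈ D.edge k l}

/-- The number of crossings of a drawing. -/
noncomputable def Drawing.cr (D : Drawing S n) : ℕ := D.crossings.ncard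

/-- A drawing is optimal if no drawing of `K_n` has fewer crossings. -/
def Drawing.Optimal (D : Drawing S n) : Prop := ∀ D' : Drawing S n, D.cr ≤ D'.cr

/-- `D` contains `D₀`: for some vertices of `D` the drawing induced by `D` on them is
the image of `D₀` under a homeomorphism of `S`. -/
def Drawing.Contains {p : ℕ} (D : Drawing S n) (D₀ : Drawing S p) : Prop :=
  ∃ (ι : Fin p → Fin n) (f : S ≃ₜ S), Function.Injective ι ∧
    (∀ i, f (D₀.pt i) = D.pt (ι i)) ∧ ∀ i j, i ≠ j → f '' D₀.edge i j = D.edge (ι i) (ι j)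

/-- `C` bounds the closed disc `Δ`. -/
def IsDisc (Δ C : Set S) : Prop :=
  ∃ f : ℂ → S, ContinuousOn f (Metric.closedBall 0 1) ∧ InjOn f (Metric.closedBall 0 1) ∧
    f '' Metric.closedBall 0 1 = Δ ∧ f '' Metric.sphere 0 1 = C

/-- A drawing is convex if every 3-cycle bounds a closed disc such that whenever two
vertices lie in the disc, so does the edge joining them. -/
def Drawing.Convex (D : Drawing S n) : Prop :=
  ∀ i j k, i ≠ j → j ≠ k → i ≠ k → ∃ Δ : Set S,
    IsDisc Δ (D.edge i j ∪ D.edge j k ∪ D.edge i k) ∧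
    ∀ u v, u ≠ v → D.pt u ∈ Δ → D.pt v ∈ Δ → D.edge u v ⊆ Δ

/-- On the arc `A`, traversed from its end `p`, the point `x` comes before the point `y`. -/
def Before (A : Set S) (p x y : S) : Prop :=
  ∃ (q : S) (γ : ℝ → S), Param γ p q A ∧ ∃ s t : ℝ, 0 ≤ s ∧ s < t ∧ t ≤ 1 ∧ γ s = x ∧ γ t = y

/-- A twisted hexagon of a drawing: six distinct vertices `h 0, ..., h 5` in cyclic order such
that, `e k` denoting the edge from `h k` to `h (k+1)`, the edges `e (k-1)` and `e (k+1)` cross in
a point `P k`, and on `e k`, traversed from `h k`, the point `P (k-1)` comes before `P (k+1)`. -/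
def Drawing.TwistedHexagon (D : Drawing S n) (h : Fin 6 → Fin n) : Prop :=
  Function.Injective h ∧ ∃ P : Fin 6 → S, ∀ k : Fin 6,
    P k ∈ D.edge (h (k - 1)) (h k) ∧ P k ∈ D.edge (h (k + 1)) (h (k + 2)) ∧
    Before (D.edge (h k) (h (k + 1))) (D.pt (h k)) (P (k - 1)) (P (k + 1))

/-- The unit sphere of Euclidean three-space. -/
abbrev S2 : Type := Metric.sphere (0 : EuclideanSpace ℝ (Fin 3)) 1

/-- Statement (a): for `n ≥ 5` no optimal drawing of `K_n` contains the non-convex drawing of
`K_5` with five crossings. -/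
def StatementA : Prop :=
  ∀ n, 5 ≤ n → ∀ D : Drawing S2 n, D.Optimal → ∀ D₀ : Drawing S2 5, D₀.cr = 5 → ¬ D₀.Convex →
    ¬ D.Contains D₀

/-- Statement (b): every drawing of every `K_p` lies in an optimal drawing of some `K_n`. -/
def StatementB : Prop :=
  ∀ p, 1 ≤ p → ∀ D₀ : Drawing S2 p, ∃ n, p ≤ n ∧ ∃ D : Drawing S2 n, D.Optimal ∧ D.Contains D₀

/-- The Harary-Hill number. -/
def H (n : ℕ) : ℕ := (n / 2) * ((n - 1) / 2) * ((n - 2) / 2) * ((n - 3) / 2) / 4

/-- The weak form of statement (b). -/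
def StatementBWeak : Prop :=
  ∀ p, 1 ≤ p → ∀ D₀ : Drawing S2 p, ∃ n, p ≤ n ∧ ∃ D : Drawing S2 n, D.cr ≤ H n ∧ D.Contains D₀

end Pool.HexDraw
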