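import Pool.Agent.Lib.MP_8613e3_co_hex.GDefs

/-!
# G04: the finite checks for the drawing of `K_6`
-/

namespace Pool.HexDraw

def dj (i j k l : Fin 6) : Bool :=
  decide (i ≠ k) && decide (i ≠ l) && decide (j ≠ k) && decide (j ≠ l)

theorem chk_vx : ∀ i j : Fin 6, vx i = vx j → i = j := by decide

theorem chk_head : ∀ i j : Fin 6, i ≠ j → (E0 i j).head? = some (vx i) := by decide

theorem chk_last : ∀ i j : Fin 6, i ≠ j → (E0 i j).getLast? = some (vx j) := by decide

theorem chk_rev : ∀ i j : Fin 6, E0 j i = (E0 i j).reverse := by decide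

theorem chk_poly : ∀ i j : Fin 6, i ≠ j → polyOK (E0 i j) = true := by decide

theorem chk_adj : ∀ i j k : Fin 6, i ≠ j → i ≠ k → j ≠ k → adjPoly (E0 i j) (E0 i k) = true := by
  decide

theorem chk_pair : ∀ i j k l : Fin 6, i ≠ j → k ≠ l → dj i j k l = true →
    sepPoly (E0 i j) (E0 k l) = true ∨ croPoly (E0 i j) (E0 k l) = true := by
  decide

theorem chk_triple : ∀ i j : Fin 6, i ≠ j → ∀ k l : Fin 6, k ≠ l → dj i j k l = true →
    ∀ u v : Fin 6, u ≠ v → dj i j u v = true → dj k l u v = true →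
    (noBoth (E0 i j) (E0 k l) (E0 u v) || noBoth (E0 k l) (E0 i j) (E0 u v) ||
      noBoth (E0 u v) (E0 i j) (E0 k l)) = true := by
  decide

theorem chk_A : ∀ k : Fin 6, (hA k).getLast? = some (hM k) := by decide

theorem chk_B : ∀ k : Fin 6, hB k ≠ [] := by decide

theorem chk_A1 : ∀ k : Fin 6, (hA k).dropLast ≠ [] ∧ hA k = (hA k).dropLast ++ [hM k] := by decide

theorem chk_E : ∀ k : Fin 6, E0 k (k + 1) = (hA k).dropLast ++ hM k :: hB k := by decide

theorem chk_sep : ∀ k : Fin 6, sepPoly (hM k :: hB k) (E0 (k - 2) (k - 1)) = true := by decide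

theorem chk_cross : ∀ k : Fin 6, croPoly (hM (k - 1) :: hB (k - 1)) (hA (k + 1)) = true := by
  decide

end Pool.HexDraw
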