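import Pool.Agent.Lib.MP_8613e3_co_hex.G03
import Pool.Agent.Lib.MP_8613e3_co_hex.G04

/-!
# G05: the drawing of `K_6` in the plane (45 min)

`pt i = toR (vx i)`, `edge i j = poly (E0 i j)`. `symm`: `chk_rev`, `poly_reverse`. `arc`:
`poly_arc`, `chk_poly`, `chk_head`, `chk_last`. `adjacent`: `adjPoly_inter`, `chk_adj`. `avoid`:
`pt k` on the edge `i j` is also on the edge `i k` (its end), so it is `pt i` by `adjacent`, which
contradicts `chk_vx`. `once`, `cross`: `chk_pair` with `sepPoly_disj` and `croPoly_cross`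
(translate `Dj` to `dj`). `noTriple`: `chk_triple`, `noBoth_empty`.
Twisted hexagon with `h = id`: let `P k` be the crossing of `poly (hM (k-1) :: hB (k-1))` and
`poly (hA (k+1))` (`chk_cross`, `croPoly_cross`). By `chk_E`, `chk_A1`, `poly_append`
`edge k (k+1) = poly (hA k) ∪ poly (hM k :: hB k)`. So `P k` is on the edges `(k-1) k` and
`(k+1) (k+2)`, `P (k-1) ∈ poly (hA k)` and `P (k+1) ∈ poly (hM k :: hB k)`
(`k - 1 + 1 = k` and so on by `revert k; decide`), and
`P (k-1) ≠ toR (hM k)`, because `toR (hM k) ∈ poly (hM k :: hB k)` (`chk_B`), which is disjoint from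
the edge `(k-2) (k-1)` containing `P (k-1)` (`chk_sep`). Now `append_before` with
`polyOK_split` and `poly_arc` for the two parts.
-/

namespace Pool.HexDraw

open Set

theorem g05_dj {i j k l : Fin 6} (h : Dj i j k l) : dj i j k l = true := by
  obtain ⟨h1, h2, h3, h4⟩ := h
  simp [dj, h1, h2, h3, h4]

theorem g05_inter {l m : List Pt} {x : ℝ × ℝ} (hx : x ∈ poly l ∩ poly m)
    (h : sepPoly l m = true ∨ croPoly l m = true) :
    poly l ∩ poly m = {x} ∧ CrossAt x (poly l) (poly m) := by
  rcases h with h | h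
  · exact absurd hx (by rw [(sepPoly_disj h).inter_eq]; simp)
  · obtain ⟨y, hy, hc⟩ := croPoly_cross h
    have : x = y := by rw [hy] at hx; exact hx
    subst this
    exact ⟨hy, hc⟩

/-- The drawing. -/
def g05_D : Drawing (ℝ × ℝ) 6 where
  pt i := toR (vx i)
  edge i j := poly (E0 i j)
  pt_inj i j h := chk_vx i j (toR_inj h)
  symm i j := by rw [chk_rev j i, poly_reverse]
  arc i j h := poly_arc (chk_poly i j h) (chk_head i j h) (chk_last i j h)
  avoid i j k hij hki hkj := by
    intro h
    have h1 := adjPoly_inter (chk_adj i j k hij (Ne.symm hki) (Ne.symm hkj)) (chk_head i j hij)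
    have h2 : toR (vx k) ∈ poly (E0 i k) :=
      (poly_arc (chk_poly i k (Ne.symm hki)) (chk_head i k (Ne.symm hki))
        (chk_last i k (Ne.symm hki))).right_mem
    have h3 : toR (vx k) ∈ poly (E0 i j) ∩ poly (E0 i k) := ⟨h, h2⟩
    rw [h1] at h3
    exact hki (chk_vx k i (toR_inj h3))
  adjacent i j k hij hik hjk := adjPoly_inter (chk_adj i j k hij hik hjk) (chk_head i j hij)
  once i j k l hij hkl h := by
    intro x hx y hy
    have h1 := (g05_inter hx (chk_pair i j k l hij hkl (g05_dj h))).1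
    rw [h1] at hy
    exact hy.symm
  cross i j k l hij hkl h x hx := (g05_inter hx (chk_pair i j k l hij hkl (g05_dj h))).2
  noTriple i j k l u v hij hkl huv h1 h2 h3 := by
    have h := chk_triple i j hij k l hkl (g05_dj h1) u v huv (g05_dj h2) (g05_dj h3)
    rw [Bool.or_eq_true, Bool.or_eq_true] at h
    rcases h with (h | h) | h
    · exact noBoth_empty h
    · have h4 := noBoth_empty h
      rw [inter_comm (poly (E0 k l)) (poly (E0 i j))] at h4
      exact h4
    · have h4 := noBoth_empty h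
      rw [← h4]
      ext x
      simp only [mem_inter_iff]
      tauto

theorem g05_idx1 : ∀ k : Fin 6, k - 1 + 1 = k := by decide
theorem g05_idx2 : ∀ k : Fin 6, k + 1 + 1 = k + 2 := by decide
theorem g05_idx3 : ∀ k : Fin 6, k - 1 - 1 = k - 2 := by decide
theorem g05_idx4 : ∀ k : Fin 6, k + 1 - 1 = k := by decide
theorem g05_idx5 : ∀ k : Fin 6, k - 2 + 1 = k - 1 := by decide

theorem g05_head : ∀ k : Fin 6, (hA k).head? = some (vx k) := by decide
theorem g05_last : ∀ k : Fin 6, (hM k :: hB k).getLast? = some (vx (k + 1)) := by decide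

theorem exists_plane : ∃ D : Drawing (ℝ × ℝ) 6, D.TwistedHexagon id := by
  refine ⟨g05_D, fun a b h => h, ?_⟩
  have hex : ∀ k : Fin 6, ∃ x, poly (hM (k - 1) :: hB (k - 1)) ∩ poly (hA (k + 1)) = {x} ∧
      CrossAt x (poly (hM (k - 1) :: hB (k - 1))) (poly (hA (k + 1))) :=
    fun k => croPoly_cross (chk_cross k)
  choose Q hQ _ using hex
  have hedge : ∀ k : Fin 6, poly (E0 k (k + 1)) = poly (hA k) ∪ poly (hM k :: hB k) := by
    intro k
    rw [chk_E, poly_append, ← (chk_A1 k).2]
  have hQ1 : ∀ k, Q k ∈ poly (hM (k - 1) :: hB (k - 1)) := fun k => by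
    have : Q k ∈ poly (hM (k - 1) :: hB (k - 1)) ∩ poly (hA (k + 1)) := by rw [hQ k]; rfl
    exact this.1
  have hQ2 : ∀ k, Q k ∈ poly (hA (k + 1)) := fun k => by
    have : Q k ∈ poly (hM (k - 1) :: hB (k - 1)) ∩ poly (hA (k + 1)) := by rw [hQ k]; rfl
    exact this.2
  refine ⟨Q, fun k => ⟨?_, ?_, ?_⟩⟩
  · change Q k ∈ poly (E0 (k - 1) k)
    have h := hedge (k - 1)
    rw [g05_idx1] at h
    rw [h]
    exact Or.inr (hQ1 k)
  · change Q k ∈ poly (E0 (k + 1) (k + 2))
    have h := hedge (k + 1)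
    rw [g05_idx2] at h
    rw [h]
    exact Or.inl (hQ2 k)
  · change Before (poly (E0 k (k + 1))) (toR (vx k)) (Q (k - 1)) (Q (k + 1))
    rw [hedge]
    have hsplit := polyOK_split (l := (hA k).dropLast) (m := hM k) (l' := hB k)
      (by rw [← chk_E]; exact chk_poly k (k + 1) (by revert k; decide)) (chk_A1 k).1 (chk_B k)
    rw [← (chk_A1 k).2] at hsplit
    have hAhead : (hA k).head? = some (vx k) := g05_head k
    have hBlast : (hM k :: hB k).getLast? = some (vx (k + 1)) := g05_last k
    have hx : Q (k - 1) ∈ poly (hA k) := by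
      have := hQ2 (k - 1)
      rwa [g05_idx1] at this
    have hy : Q (k + 1) ∈ poly (hM k :: hB k) := by
      have := hQ1 (k + 1)
      rwa [g05_idx4] at this
    have arcA := poly_arc hsplit.1 hAhead (chk_A k)
    have arcB := poly_arc hsplit.2.1 (rfl : (hM k :: hB k).head? = some (hM k)) hBlast
    refine append_before arcA arcB hsplit.2.2 hx ?_ hy
    intro heq
    have h1 : Q (k - 1) ∈ poly (hM k :: hB k) := by rw [heq]; exact arcB.left_mem
    have h2 : Q (k - 1) ∈ poly (E0 (k - 2) (k - 1)) := by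
      have h3 := hQ1 (k - 1)
      rw [g05_idx3] at h3
      have h4 := hedge (k - 2)
      rw [g05_idx5] at h4
      rw [h4]
      exact Or.inr h3
    exact Set.disjoint_left.1 (sepPoly_disj (chk_sep k)) h1 h2

end Pool.HexDraw
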