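import Pool.Agent.Lib.MP_8613e3_co_hex.R02

/-!
# G06: transport of a drawing by an open embedding (40 min)

`crossAt_map`: the new chart is the inverse of `f` (an open partial homeomorphism with source
`range f`: `(hf.toOpenPartialHomeomorph f).symm`) followed by the old chart; for small domains
restrict to the image of the old source. (If `S` is empty there is nothing to prove; `x : S`
gives `Nonempty S`.)
`exists_map`: `pt := f ∘ D.pt`, `edge i j := f '' D.edge i j`; `IsArc.image`, `Before.image`,
`Set.image_inter`.
-/

namespace Pool.HexDraw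

open Set Topology

variable {S : Type} [TopologicalSpace S] {S' : Type} [TopologicalSpace S'] {n : ℕ}

theorem crossAt_map {f : S → S'} (hf : IsOpenEmbedding f) {x : S} {A B : Set S}
    (h : CrossAt x A B) : CrossAt (f x) (f '' A) (f '' B) := by
  obtain ⟨φ, hx, h0, hφ⟩ := h
  have : Nonempty S := ⟨x⟩
  have hinv : ∀ z, (hf.toOpenPartialHomeomorph f).symm (f z) = z := fun z =>
    (hf.toOpenPartialHomeomorph f).left_inv (by simp)
  refine ⟨(hf.toOpenPartialHomeomorph f).symm.trans φ, ?_, ?_, ?_⟩
  · rw [OpenPartialHomeomorph.trans_source]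
    refine ⟨by simp, ?_⟩
    show (hf.toOpenPartialHomeomorph f).symm (f x) ∈ φ.source
    rw [hinv]; exact hx
  · show φ ((hf.toOpenPartialHomeomorph f).symm (f x)) = (0, 0)
    rw [hinv]; exact h0
  · intro y hy
    rw [OpenPartialHomeomorph.trans_source] at hy
    obtain ⟨hy1, hy2⟩ := hy
    have hy3 : y ∈ range f := by simpa using hy1
    obtain ⟨z, rfl⟩ := hy3
    have hy4 : (hf.toOpenPartialHomeomorph f).symm (f z) ∈ φ.source := hy2
    rw [hinv] at hy4
    have h1 : ((hf.toOpenPartialHomeomorph f).symm.trans φ) (f z) = φ z := by
      show φ ((hf.toOpenPartialHomeomorph f).symm (f z)) = φ z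
      rw [hinv]
    rw [h1, hf.injective.mem_set_image, hf.injective.mem_set_image]
    exact hφ z hy4

theorem exists_map {f : S → S'} (hf : IsOpenEmbedding f) (D : Drawing S n) {h : Fin 6 → Fin n}
    (hh : D.TwistedHexagon h) : ∃ D' : Drawing S' n, D'.TwistedHexagon h := by
  have hc : ∀ A : Set S, ContinuousOn f A := fun A => hf.continuous.continuousOn
  have hi : ∀ A : Set S, InjOn f A := fun A => hf.injective.injOn
  refine ⟨{ pt := fun i => f (D.pt i)
            edge := fun i j => f '' D.edge i j
            pt_inj := fun i j hij => D.pt_inj (hf.injective hij)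
            symm := fun i j => by rw [D.symm i j]
            arc := fun i j hij => (D.arc i j hij).image (hc _) (hi _)
            avoid := ?_
            adjacent := ?_
            once := ?_
            cross := ?_
            noTriple := ?_ }, ?_⟩
  · intro i j k hij hki hkj hmem
    exact D.avoid i j k hij hki hkj ((hf.injective.mem_set_image).1 hmem)
  · intro i j k hij hik hjk
    rw [← image_inter hf.injective, D.adjacent i j k hij hik hjk, image_singleton]
  · intro i j k l hij hkl hd
    rw [← image_inter hf.injective]
    exact (D.once i j k l hij hkl hd).image f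
  · intro i j k l hij hkl hd x hx
    rw [← image_inter hf.injective] at hx
    obtain ⟨z, hz, rfl⟩ := hx
    exact crossAt_map hf (D.cross i j k l hij hkl hd z hz)
  · intro i j k l u v hij hkl huv h1 h2 h3
    rw [← image_inter hf.injective, ← image_inter hf.injective,
      D.noTriple i j k l u v hij hkl huv h1 h2 h3, image_empty]
  · obtain ⟨hinj, P, hP⟩ := hh
    refine ⟨hinj, fun k => f (P k), fun k => ?_⟩
    obtain ⟨h1, h2, h3⟩ := hP k
    exact ⟨mem_image_of_mem f h1, mem_image_of_mem f h2, h3.image (hc _) (hi _)⟩

end Pool.HexDraw
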