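import Pool.Agent.Lib.MP_8613e3_co_hex.Defs

/-!
# G07: the plane is an open subset of the sphere (25 min)

Compose `Homeomorph.finTwoArrow.symm : ℝ × ℝ ≃ₜ (Fin 2 → ℝ)`, the (continuous linear)
equivalence of `Fin 2 → ℝ` with `EuclideanSpace ℝ (Fin 2)`, and the inverse of the stereographic
projection `stereographic' 2 v` of Mathlib, an open partial homeomorphism from the sphere to
`EuclideanSpace ℝ (Fin 2)` with target `univ` (`stereographic'_target`); `v` is any point of the
sphere, e.g. `EuclideanSpace.single 0 1`. An open partial homeomorphism with target `univ` has as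
inverse an open embedding (`OpenPartialHomeomorph.to_isOpenEmbedding` for `symm`).
-/

namespace Pool.HexDraw

open Set Topology

theorem exists_openEmbedding : ∃ f : ℝ × ℝ → S2, IsOpenEmbedding f := by
  have : Fact (Module.finrank ℝ (EuclideanSpace ℝ (Fin 3)) = 2 + 1) := ⟨by simp⟩
  let v : S2 := ⟨EuclideanSpace.single 0 1, by simp⟩
  have h1 : IsOpenEmbedding (stereographic' 2 v).symm := by
    apply OpenPartialHomeomorph.isOpenEmbedding
    rw [OpenPartialHomeomorph.symm_source]
    exact stereographic'_target v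
  let e1 : ℝ × ℝ ≃ₜ (Fin 2 → ℝ) := (Homeomorph.finTwoArrow (X := ℝ)).symm
  let e2 : (Fin 2 → ℝ) ≃ₜ EuclideanSpace ℝ (Fin 2) := (EuclideanSpace.equiv (Fin 2) ℝ).symm.toHomeomorph
  exact ⟨_, h1.comp (e1.trans e2).isOpenEmbedding⟩

end Pool.HexDraw
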