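import Pool.Agent.Lib.MP_8613e3_co_hex.H02
import Pool.Agent.Lib.MP_8613e3_co_hex.G05
import Pool.Agent.Lib.MP_8613e3_co_hex.G06
import Pool.Agent.Lib.MP_8613e3_co_hex.G07

/-!
# F01: final assembly
-/

namespace Pool.HexDraw

open Set Topology

theorem exists_sphere : ∃ D : Drawing S2 6, ∃ h, D.TwistedHexagon h := by
  obtain ⟨D, hD⟩ := exists_plane
  obtain ⟨f, hf⟩ := exists_openEmbedding
  obtain ⟨D', h⟩ := exists_map hf D hD
  exact ⟨D', _, h⟩

theorem exists_bad : ∃ D₀ : Drawing S2 6, ∀ n, ∀ D : Drawing S2 n, D.Contains D₀ →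
    ∃ D' : Drawing S2 n, D'.cr + 6 ≤ D.cr := by
  obtain ⟨D₀, h, hh⟩ := exists_sphere
  refine ⟨D₀, fun n D hc => ?_⟩
  obtain ⟨h', hh'⟩ := hexagon_of_contains D D₀ hh hc
  exact twisted_hexagon D hh'

theorem not_B : ¬ StatementB := by
  intro hB
  obtain ⟨D₀, h⟩ := exists_bad
  obtain ⟨n, -, D, hopt, hc⟩ := hB 6 (by norm_num) D₀
  obtain ⟨D', h'⟩ := h n D hc
  have := hopt D'
  omega

theorem xor_iff : Xor StatementA StatementB ↔ StatementA := by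
  have hB := not_B
  constructor
  · rintro (⟨ha, -⟩ | ⟨hb, -⟩)
    · exact ha
    · exact absurd hb hB
  · exact fun ha => Or.inl ⟨ha, hB⟩

theorem weak_B (hB : StatementBWeak) : ∃ n, ∃ D : Drawing S2 n, D.cr + 6 ≤ H n := by
  obtain ⟨D₀, h⟩ := exists_bad
  obtain ⟨n, -, D, hle, hc⟩ := hB 6 (by norm_num) D₀
  obtain ⟨D', h'⟩ := h n D hc
  exact ⟨n, D', by omega⟩

end Pool.HexDraw
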