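import Pool.Agent.Lib.MP_8613e3_co_hex.GDefs

/-!
# G01: segments with integer end points (60 min)

`seg_disj`: if `0 < ori p q r * ori p q s`, the affine function
`f y = (q.1 - p.1) * (y.2 - p.2) - (q.2 - p.2) * (y.1 - p.1)` vanishes on `sg p q` and is
everywhere positive or everywhere negative on `sg r s`; the other case is symmetric.
`seg_cross`: let `f` be as above and `g y = (s.1 - r.1) * (y.2 - r.2) - (s.2 - r.2) * (y.1 - r.1)`.
`f` vanishes at `p`, `q` and has opposite signs at `r`, `s`; `g` vanishes at `r`, `s` and has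
opposite signs at `p`, `q`. So `Δ = (q.1-p.1)*(s.2-r.2) - (q.2-p.2)*(s.1-r.1) = f s - f r` is
not zero and `y ↦ (g y, f y)` is a homeomorphism of the plane (invert the 2 by 2 system, build a
`Homeomorph` by hand). A point `y` is on `sg p q` iff `f y = 0` and `g y` is between `g p` and `g q`.
Let `x` be the point with `g x = f x = 0`. The chart is this homeomorphism restricted to the open
set of the `y` with `g y` strictly between `g p` and `g q` and `f y` strictly between `f r` and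
`f s` (`Homeomorph.toOpenPartialHomeomorph`, `OpenPartialHomeomorph.restrOpen`).
`seg_share`: a common point is `c + a (p - c) = c + b (q - c)` with `a, b ≥ 0`; taking the
determinant with `p - c` gives `b = 0`.
-/

namespace Pool.HexDraw

open Set

theorem toR_inj {p q : Pt} (h : toR p = toR q) : p = q := by
  unfold toR at h
  have h1 := congrArg Prod.fst h
  have h2 := congrArg Prod.snd h
  simp only [Int.cast_inj] at h1 h2
  exact Prod.ext h1 h2

theorem sg_comm (p q : Pt) : sg p q = sg q p := segment_symm ℝ _ _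

theorem g01_mem (p q : Pt) (y : ℝ × ℝ) : y ∈ sg p q ↔ ∃ t : ℝ, 0 ≤ t ∧ t ≤ 1 ∧
    y.1 = (p.1 : ℝ) + t * ((q.1 : ℝ) - p.1) ∧ y.2 = (p.2 : ℝ) + t * ((q.2 : ℝ) - p.2) := by
  unfold sg
  rw [segment_eq_image']
  constructor
  · rintro ⟨t, ht, rfl⟩
    exact ⟨t, ht.1, ht.2, by simp [toR], by simp [toR]⟩
  · rintro ⟨t, h0, h1, h2, h3⟩
    refine ⟨t, ⟨h0, h1⟩, ?_⟩
    refine Prod.ext ?_ ?_
    · simp [toR, h2]
    · simp [toR, h3]

theorem isClosed_sg (p q : Pt) : IsClosed (sg p q) := by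
  unfold sg
  rw [segment_eq_image']
  refine (isCompact_Icc.image ?_).isClosed
  fun_prop

/-- the affine function with zero set the line `p q` -/
def g01_f (p q : Pt) (y : ℝ × ℝ) : ℝ :=
  ((q.1 : ℝ) - p.1) * (y.2 - p.2) - ((q.2 : ℝ) - p.2) * (y.1 - p.1)

theorem g01_f_ori (p q r : Pt) : g01_f p q (toR r) = (ori p q r : ℝ) := by
  unfold g01_f ori toR
  push_cast
  ring

theorem g01_f_seg (p q r s : Pt) (y : ℝ × ℝ) (t : ℝ)
    (h1 : y.1 = (r.1 : ℝ) + t * ((s.1 : ℝ) - r.1)) (h2 : y.2 = (r.2 : ℝ) + t * ((s.2 : ℝ) - r.2)) :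
    g01_f p q y = (1 - t) * (ori p q r : ℝ) + t * (ori p q s : ℝ) := by
  unfold g01_f ori
  rw [h1, h2]
  push_cast
  ring

theorem g01_f_self (p q : Pt) (y : ℝ × ℝ) (hy : y ∈ sg p q) : g01_f p q y = 0 := by
  obtain ⟨t, _, _, h1, h2⟩ := (g01_mem p q y).1 hy
  unfold g01_f
  rw [h1, h2]
  ring

theorem g01_disj1 {p q r s : Pt} (h : 0 < ori p q r * ori p q s) (y : ℝ × ℝ)
    (h1 : y ∈ sg p q) (h2 : y ∈ sg r s) : False := by
  obtain ⟨t, t0, t1, h3, h4⟩ := (g01_mem r s y).1 h2
  have h5 := g01_f_seg p q r s y t h3 h4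
  rw [g01_f_self p q y h1] at h5
  have h6 : (0 : ℝ) < (ori p q r : ℝ) * (ori p q s : ℝ) := by exact_mod_cast h
  have h7 : 0 = (1 - t) * ((ori p q r : ℝ) * (ori p q r : ℝ))
      + t * ((ori p q r : ℝ) * (ori p q s : ℝ)) := by
    calc (0 : ℝ) = (ori p q r : ℝ) * 0 := by ring
      _ = (ori p q r : ℝ) * ((1 - t) * (ori p q r : ℝ) + t * (ori p q s : ℝ)) := by rw [← h5]
      _ = _ := by ring
  have h8 : 0 < (ori p q r : ℝ) * (ori p q r : ℝ) := by
    rcases lt_trichotomy (ori p q r : ℝ) 0 with h | h | h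
    · nlinarith
    · rw [h] at h6; simp at h6
    · nlinarith
  rcases eq_or_lt_of_le t0 with h9 | h9
  · rw [← h9] at h7
    linarith
  · have h10 : 0 < t * ((ori p q r : ℝ) * (ori p q s : ℝ)) := mul_pos h9 h6
    have h11 : 0 ≤ (1 - t) * ((ori p q r : ℝ) * (ori p q r : ℝ)) :=
      mul_nonneg (by linarith) h8.le
    linarith

theorem seg_disj {p q r s : Pt} (h : sepB p q r s = true) : Disjoint (sg p q) (sg r s) := by
  unfold sepB at h
  rw [Bool.or_eq_true, decide_eq_true_eq, decide_eq_true_eq] at h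
  rw [Set.disjoint_left]
  intro y h1 h2
  rcases h with h | h
  · exact g01_disj1 h y h1 h2
  · exact g01_disj1 h y h2 h1

/-- the homeomorphism of the plane given by the two affine functions -/
noncomputable def g01_H (p q r s : Pt) (Δ : ℝ) (hΔ : Δ ≠ 0)
    (h : Δ = ((q.1 : ℝ) - p.1) * ((s.2 : ℝ) - r.2) - ((q.2 : ℝ) - p.2) * ((s.1 : ℝ) - r.1)) :
    ℝ × ℝ ≃ₜ ℝ × ℝ where
  toFun y := (g01_f r s y, g01_f p q y)
  invFun z :=
    ((((s.1 : ℝ) - r.1) * (z.2 + ((q.1 : ℝ) - p.1) * p.2 - ((q.2 : ℝ) - p.2) * p.1)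
      - ((q.1 : ℝ) - p.1) * (z.1 + ((s.1 : ℝ) - r.1) * r.2 - ((s.2 : ℝ) - r.2) * r.1)) / Δ,
    (((s.2 : ℝ) - r.2) * (z.2 + ((q.1 : ℝ) - p.1) * p.2 - ((q.2 : ℝ) - p.2) * p.1)
      - ((q.2 : ℝ) - p.2) * (z.1 + ((s.1 : ℝ) - r.1) * r.2 - ((s.2 : ℝ) - r.2) * r.1)) / Δ)
  left_inv y := by
    refine Prod.ext ?_ ?_
    · simp only [g01_f]
      rw [div_eq_iff hΔ, h]
      ring
    · simp only [g01_f]
      rw [div_eq_iff hΔ, h]
      ring
  right_inv z := by
    have h1 : ∀ a b c d e f : ℝ, a * (b / Δ - c) - d * (e / Δ - f)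
        = (a * b - d * e) / Δ - a * c + d * f := by
      intro a b c d e f
      ring
    refine Prod.ext ?_ ?_
    · simp only [g01_f]
      rw [h1]
      have h2 : ∀ A B C D : ℝ, A = (D + B - C) * Δ → A / Δ - B + C = D := by
        intro A B C D hA
        rw [hA, mul_div_assoc, div_self hΔ]
        ring
      apply h2
      rw [h]
      ring
    · simp only [g01_f]
      rw [h1]
      have h2 : ∀ A B C D : ℝ, A = (D + B - C) * Δ → A / Δ - B + C = D := by
        intro A B C D hA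
        rw [hA, mul_div_assoc, div_self hΔ]
        ring
      apply h2
      rw [h]
      ring
  continuous_toFun := by
    unfold g01_f
    fun_prop
  continuous_invFun := by
    fun_prop

theorem g01_between (G c d : ℝ) (h : (G - c) * (G - d) < 0) (hcd : d - c ≠ 0) :
    0 ≤ (G - c) / (d - c) ∧ (G - c) / (d - c) ≤ 1 := by
  have h1 : 0 < (d - c) ^ 2 := by positivity
  have h2 : 0 < ((G - c) / (d - c)) * (1 - (G - c) / (d - c)) := by
    have h3 : ((G - c) / (d - c)) * (1 - (G - c) / (d - c))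
        = -((G - c) * (G - d)) / (d - c) ^ 2 := by
      field_simp
      ring
    rw [h3]
    exact div_pos (by linarith) h1
  constructor
  · by_contra h3
    push Not at h3
    nlinarith
  · by_contra h3
    push Not at h3
    nlinarith

/-- a point of the line between the end points is on the segment -/
theorem g01_on (p q : Pt) (G : ℝ × ℝ → ℝ) (c d : ℝ) (hcd : d - c ≠ 0) (y : ℝ × ℝ)
    (hG : (G y - c) * (G y - d) < 0)
    (hinj : ∀ z : ℝ × ℝ, (∀ t : ℝ, z.1 = (p.1 : ℝ) + t * ((q.1 : ℝ) - p.1) →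
      z.2 = (p.2 : ℝ) + t * ((q.2 : ℝ) - p.2) → t = (G y - c) / (d - c) → z = y)) :
    y ∈ sg p q := by
  obtain ⟨h0, h1⟩ := g01_between (G y) c d hG hcd
  have h2 := hinj ((p.1 : ℝ) + (G y - c) / (d - c) * ((q.1 : ℝ) - p.1),
    (p.2 : ℝ) + (G y - c) / (d - c) * ((q.2 : ℝ) - p.2)) _ rfl rfl rfl
  rw [g01_mem]
  refine ⟨(G y - c) / (d - c), h0, h1, ?_, ?_⟩
  · exact (congrArg Prod.fst h2).symm
  · exact (congrArg Prod.snd h2).symm

theorem seg_cross {p q r s : Pt} (h : croB p q r s = true) :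
    ∃ x, sg p q ∩ sg r s = {x} ∧ CrossAt x (sg p q) (sg r s) := by
  unfold croB at h
  rw [Bool.and_eq_true, decide_eq_true_eq, decide_eq_true_eq] at h
  obtain ⟨hab, hcd⟩ := h
  have hab' : (ori p q r : ℝ) * (ori p q s : ℝ) < 0 := by exact_mod_cast hab
  have hcd' : (ori r s p : ℝ) * (ori r s q : ℝ) < 0 := by exact_mod_cast hcd
  set a : ℝ := (ori p q r : ℝ) with ha
  set b : ℝ := (ori p q s : ℝ) with hb
  set c : ℝ := (ori r s p : ℝ) with hc
  set d : ℝ := (ori r s q : ℝ) with hd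
  have hΔ1 : b - a
      = ((q.1 : ℝ) - p.1) * ((s.2 : ℝ) - r.2) - ((q.2 : ℝ) - p.2) * ((s.1 : ℝ) - r.1) := by
    rw [ha, hb]
    unfold ori
    push_cast
    ring
  have hΔ2 : c - d
      = ((q.1 : ℝ) - p.1) * ((s.2 : ℝ) - r.2) - ((q.2 : ℝ) - p.2) * ((s.1 : ℝ) - r.1) := by
    rw [hc, hd]
    unfold ori
    push_cast
    ring
  have hba : b - a ≠ 0 := by
    intro h0
    have : a = b := by linarith
    rw [this] at hab'
    nlinarith [mul_self_nonneg b]
  have hdc : d - c ≠ 0 := by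
    intro h0
    apply hba
    linarith
  set H := g01_H p q r s (b - a) hba hΔ1 with hH
  have hHy : ∀ y, H y = (g01_f r s y, g01_f p q y) := fun y => rfl
  have hinj : ∀ y z : ℝ × ℝ, g01_f r s y = g01_f r s z → g01_f p q y = g01_f p q z → y = z := by
    intro y z h1 h2
    apply H.injective
    rw [hHy, hHy, h1, h2]
  -- membership
  have hmem1 : ∀ y, (g01_f r s y - c) * (g01_f r s y - d) < 0 →
      (y ∈ sg p q ↔ g01_f p q y = 0) := by
    intro y hy
    constructor
    · exact g01_f_self p q y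
    · intro hf
      refine g01_on p q (g01_f r s) c d hdc y hy ?_
      intro z t hz1 hz2 ht
      apply hinj
      · rw [g01_f_seg r s p q z t hz1 hz2, ← hc, ← hd]
        have h3 : t * (d - c) = g01_f r s y - c := by
          rw [ht, div_mul_cancel₀ _ hdc]
        linarith
      · rw [hf]
        unfold g01_f
        rw [hz1, hz2]
        ring
  have hmem2 : ∀ y, (g01_f p q y - a) * (g01_f p q y - b) < 0 →
      (y ∈ sg r s ↔ g01_f r s y = 0) := by
    intro y hy
    constructor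
    · exact g01_f_self r s y
    · intro hf
      refine g01_on r s (g01_f p q) a b hba y hy ?_
      intro z t hz1 hz2 ht
      apply hinj
      · rw [hf]
        unfold g01_f
        rw [hz1, hz2]
        ring
      · rw [g01_f_seg p q r s z t hz1 hz2, ← ha, ← hb]
        have h3 : t * (b - a) = g01_f p q y - a := by
          rw [ht, div_mul_cancel₀ _ hba]
        linarith
  set x : ℝ × ℝ := H.symm (0, 0) with hx
  have hHx : H x = (0, 0) := H.apply_symm_apply _
  have hgx : g01_f r s x = 0 := congrArg Prod.fst hHx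
  have hfx : g01_f p q x = 0 := congrArg Prod.snd hHx
  have hx1 : (g01_f r s x - c) * (g01_f r s x - d) < 0 := by
    rw [hgx]
    linarith
  have hx2 : (g01_f p q x - a) * (g01_f p q x - b) < 0 := by
    rw [hfx]
    linarith
  refine ⟨x, ?_, ?_⟩
  · ext y
    constructor
    · rintro ⟨h1, h2⟩
      rw [mem_singleton_iff]
      apply hinj
      · rw [g01_f_self r s y h2, hgx]
      · rw [g01_f_self p q y h1, hfx]
    · intro hy
      rw [mem_singleton_iff] at hy
      rw [hy]
      exact ⟨(hmem1 x hx1).2 hfx, (hmem2 x hx2).2 hgx⟩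
  · set U : Set (ℝ × ℝ) := {y | (g01_f r s y - c) * (g01_f r s y - d) < 0 ∧
      (g01_f p q y - a) * (g01_f p q y - b) < 0} with hU
    have hUo : IsOpen U := by
      have h1 : Continuous (g01_f r s) := by
        unfold g01_f
        fun_prop
      have h2 : Continuous (g01_f p q) := by
        unfold g01_f
        fun_prop
      exact (isOpen_lt ((h1.sub continuous_const).mul (h1.sub continuous_const))
        continuous_const).inter (isOpen_lt ((h2.sub continuous_const).mul
          (h2.sub continuous_const)) continuous_const)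
    refine ⟨H.toOpenPartialHomeomorph.restrOpen U hUo, ?_, hHx, ?_⟩
    · exact ⟨mem_univ _, hx1, hx2⟩
    · rintro y ⟨_, hy1, hy2⟩
      exact ⟨hmem1 y hy1, hmem2 y hy2⟩

theorem seg_share {c p q : Pt} (h : ori c p q ≠ 0) : sg c p ∩ sg c q = {toR c} := by
  ext y
  rw [mem_singleton_iff]
  constructor
  · rintro ⟨h1, h2⟩
    obtain ⟨a, a0, a1, h3, h4⟩ := (g01_mem c p y).1 h1
    obtain ⟨b, b0, b1, h5, h6⟩ := (g01_mem c q y).1 h2
    have h7 : (ori c p q : ℝ) ≠ 0 := by exact_mod_cast h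
    have h8 : b * (ori c p q : ℝ) = 0 := by
      have e1 : a * ((p.1 : ℝ) - c.1) = b * ((q.1 : ℝ) - c.1) := by linarith
      have e2 : a * ((p.2 : ℝ) - c.2) = b * ((q.2 : ℝ) - c.2) := by linarith
      have e3 : (ori c p q : ℝ) = ((p.1 : ℝ) - c.1) * ((q.2 : ℝ) - c.2)
          - ((p.2 : ℝ) - c.2) * ((q.1 : ℝ) - c.1) := by
        unfold ori
        push_cast
        ring
      calc b * (ori c p q : ℝ) = ((p.1 : ℝ) - c.1) * (b * ((q.2 : ℝ) - c.2))
            - ((p.2 : ℝ) - c.2) * (b * ((q.1 : ℝ) - c.1)) := by rw [e3]; ring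
        _ = 0 := by rw [← e1, ← e2]; ring
    have h9 : b = 0 := by
      rcases mul_eq_zero.1 h8 with h9 | h9
      · exact h9
      · exact absurd h9 h7
    rw [h9] at h5 h6
    refine Prod.ext ?_ ?_
    · rw [h5]; simp [toR]
    · rw [h6]; simp [toR]
  · intro hy
    rw [hy]
    exact ⟨left_mem_segment ℝ _ _, left_mem_segment ℝ _ _⟩

end Pool.HexDraw
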