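import Pool.Agent.Lib.MP_8613e3_co_hex.G01

/-!
# G02: polylines are arcs (45 min)

`poly_cons` and `poly_append` from the definitions (induction on `l` for the second one).
`segs_reverse`: `segs l.reverse` is the reversed list of the swapped segments (or argue with
membership only, by induction with `poly_append`).
`poly_arc`: induction on `l`: for `p :: q :: r :: l` use `IsArc.append` with `isArc_segment` for
`sg p q` (`p ≠ q` because `ori q p r ≠ 0`) and the induction hypothesis; a common point of
`sg p q` and `poly (q :: r :: l) = sg q r ∪ poly (r :: l)` is `toR q` (`seg_share`, `sg_comm`) or is on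
a segment of `r :: l`, impossible by `seg_disj`.
`polyOK_split`: induction on `l`.
-/

namespace Pool.HexDraw

open Set

theorem poly_cons (p q : Pt) (l : List Pt) : poly (p :: q :: l) = sg p q ∪ poly (q :: l) := by
  ext y
  simp only [poly, Set.mem_ofPred_eq, mem_union, segs, List.mem_cons]
  constructor
  · rintro ⟨e, he | he, hy⟩
    · left
      rw [he] at hy
      exact hy
    · right
      exact ⟨e, he, hy⟩
  · rintro (hy | ⟨e, he, hy⟩)
    · exact ⟨(p, q), Or.inl rfl, hy⟩
    · exact ⟨e, Or.inr he, hy⟩

theorem g02_poly_one (p : Pt) : poly [p] = ∅ := by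
  ext y
  simp [poly, segs]

theorem g02_poly_nil : poly [] = ∅ := by
  ext y
  simp [poly, segs]

theorem poly_append (l l' : List Pt) (m : Pt) :
    poly (l ++ m :: l') = poly (l ++ [m]) ∪ poly (m :: l') := by
  induction l with
  | nil => rw [List.nil_append, List.nil_append, g02_poly_one, empty_union]
  | cons a l ih =>
    cases l with
    | nil =>
      change poly (a :: m :: l') = poly [a, m] ∪ poly (m :: l')
      rw [poly_cons, poly_cons, g02_poly_one, union_empty]
    | cons b l =>
      change poly (a :: b :: (l ++ m :: l')) = poly (a :: b :: (l ++ [m])) ∪ poly (m :: l')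
      rw [poly_cons, poly_cons]
      change poly (b :: (l ++ m :: l')) = poly (b :: (l ++ [m])) ∪ poly (m :: l') at ih
      rw [ih, union_assoc]

theorem poly_reverse (l : List Pt) : poly l.reverse = poly l := by
  induction l with
  | nil => rfl
  | cons a l ih =>
    cases l with
    | nil => rfl
    | cons b l =>
      have h1 : (a :: b :: l).reverse = l.reverse ++ b :: [a] := by simp
      have h2 : (b :: l).reverse = l.reverse ++ [b] := by simp
      rw [h1, poly_append, ← h2, ih, poly_cons, poly_cons, g02_poly_one, union_empty, sg_comm b a,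
        union_comm]

theorem isClosed_poly (l : List Pt) : IsClosed (poly l) := by
  induction l with
  | nil =>
    rw [g02_poly_nil]
    exact isClosed_empty
  | cons a l ih =>
    cases l with
    | nil =>
      rw [g02_poly_one]
      exact isClosed_empty
    | cons b l =>
      rw [poly_cons]
      exact (isClosed_sg a b).union ih

theorem g02_ok_cons (a b c : Pt) (l : List Pt) : polyOK (a :: b :: c :: l) = true ↔
    ori b a c ≠ 0 ∧ (∀ e ∈ segs (c :: l), sepB a b e.1 e.2 = true) ∧
      polyOK (b :: c :: l) = true := by
  rw [polyOK, Bool.and_eq_true, Bool.and_eq_true, decide_eq_true_eq, List.all_eq_true, and_assoc]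

theorem g02_ne {a b c : Pt} (h : ori b a c ≠ 0) : a ≠ b := by
  intro hab
  apply h
  rw [hab]
  unfold ori
  ring

theorem g02_inter (a b c : Pt) (l : List Pt) (h1 : ori b a c ≠ 0)
    (h2 : ∀ e ∈ segs (c :: l), sepB a b e.1 e.2 = true) :
    sg a b ∩ poly (b :: c :: l) ⊆ {toR b} := by
  rintro y ⟨hy1, hy2⟩
  rw [poly_cons] at hy2
  rcases hy2 with hy2 | ⟨e, he, hy2⟩
  · rw [← seg_share h1]
    exact ⟨by rw [sg_comm]; exact hy1, hy2⟩
  · exact absurd hy2 (Set.disjoint_left.1 (seg_disj (h2 e he)) hy1)

theorem poly_arc {l : List Pt} {p q : Pt} (h : polyOK l = true) (hp : l.head? = some p)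
    (hq : l.getLast? = some q) : IsArc (toR p) (toR q) (poly l) := by
  induction l generalizing p with
  | nil => simp at hp
  | cons a l ih =>
    rw [List.head?_cons, Option.some.injEq] at hp
    subst hp
    cases l with
    | nil => exact absurd h (by simp [polyOK])
    | cons b l =>
      cases l with
      | nil =>
        have h1 : a ≠ b := by
          rw [polyOK, decide_eq_true_eq] at h
          exact h
        have h2 : b = q := by simpa using hq
        rw [poly_cons, g02_poly_one, union_empty, ← h2]
        exact isArc_segment (fun h => h1 (toR_inj h))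
      | cons c l =>
        rw [g02_ok_cons] at h
        obtain ⟨h1, h2, h3⟩ := h
        have h4 := ih h3 (List.head?_cons) (by
          rw [List.getLast?_cons_cons] at hq
          exact hq)
        rw [poly_cons]
        exact (isArc_segment (fun h => g02_ne h1 (toR_inj h))).append h4
          (g02_inter a b c l h1 h2)

theorem g02_segs_append (l l' : List Pt) (m : Pt) (e : Pt × Pt) :
    e ∈ segs (l ++ m :: l') ↔ e ∈ segs (l ++ [m]) ∨ e ∈ segs (m :: l') := by
  induction l with
  | nil => simp [segs]
  | cons a l ih =>
    cases l with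
    | nil =>
      change e ∈ segs (a :: m :: l') ↔ e ∈ segs [a, m] ∨ e ∈ segs (m :: l')
      simp [segs]
    | cons b l =>
      change e ∈ segs (b :: (l ++ m :: l')) ↔ e ∈ segs (b :: (l ++ [m])) ∨ e ∈ segs (m :: l') at ih
      change e ∈ segs (a :: b :: (l ++ m :: l')) ↔
        e ∈ segs (a :: b :: (l ++ [m])) ∨ e ∈ segs (m :: l')
      have h1 : ∀ k : List Pt, e ∈ segs (a :: b :: k) ↔ e = (a, b) ∨ e ∈ segs (b :: k) := by
        intro k
        rw [segs, List.mem_cons]
      rw [h1, h1, ih, or_assoc]

theorem polyOK_split {l l' : List Pt} {m : Pt} (h : polyOK (l ++ m :: l') = true) (hl : l ≠ [])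
    (hl' : l' ≠ []) : polyOK (l ++ [m]) = true ∧ polyOK (m :: l') = true ∧
      poly (l ++ [m]) ∩ poly (m :: l') ⊆ {toR m} := by
  induction l with
  | nil => exact absurd rfl hl
  | cons a l ih =>
    cases l with
    | nil =>
      cases l' with
      | nil => exact absurd rfl hl'
      | cons c l' =>
        change polyOK (a :: m :: c :: l') = true at h
        rw [g02_ok_cons] at h
        obtain ⟨h1, h2, h3⟩ := h
        refine ⟨?_, h3, ?_⟩
        · change polyOK [a, m] = true
          rw [polyOK, decide_eq_true_eq]
          exact g02_ne h1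
        · change poly [a, m] ∩ poly (m :: c :: l') ⊆ {toR m}
          rw [poly_cons, g02_poly_one, union_empty]
          exact g02_inter a m c l' h1 h2
    | cons b l =>
      change polyOK (a :: b :: (l ++ m :: l')) = true at h
      change polyOK (a :: b :: (l ++ [m])) = true ∧ polyOK (m :: l') = true ∧
        poly (a :: b :: (l ++ [m])) ∩ poly (m :: l') ⊆ {toR m}
      have key : ∃ c : Pt, ori b a c ≠ 0 ∧
          (∀ e ∈ segs (l ++ m :: l'), sepB a b e.1 e.2 = true) ∧
          polyOK (b :: (l ++ m :: l')) = true ∧
          ∀ k : List Pt, (∀ e ∈ segs (l ++ [m]), sepB a b e.1 e.2 = true) →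
            polyOK (b :: (l ++ [m])) = true → polyOK (a :: b :: (l ++ [m])) = true := by
        cases l with
        | nil =>
          rw [List.nil_append, g02_ok_cons] at h
          refine ⟨m, h.1, h.2.1, h.2.2, fun k h4 h5 => ?_⟩
          rw [List.nil_append, g02_ok_cons]
          exact ⟨h.1, h4, h5⟩
        | cons c l =>
          rw [List.cons_append, g02_ok_cons] at h
          refine ⟨c, h.1, h.2.1, h.2.2, fun k h4 h5 => ?_⟩
          rw [List.cons_append, g02_ok_cons]
          exact ⟨h.1, h4, h5⟩
      obtain ⟨c, h1, h2, h3, h4⟩ := key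
      obtain ⟨i1, i2, i3⟩ := ih (by exact h3) (by simp)
      change polyOK (b :: (l ++ [m])) = true at i1
      change poly (b :: (l ++ [m])) ∩ poly (m :: l') ⊆ {toR m} at i3
      refine ⟨h4 [] (fun e he => h2 e ((g02_segs_append l l' m e).2 (Or.inl he))) i1, i2, ?_⟩
      rw [poly_cons]
      rintro y ⟨hy1 | hy1, hy2⟩
      · obtain ⟨e, he, hy⟩ := hy2
        exact absurd hy (Set.disjoint_left.1
          (seg_disj (h2 e ((g02_segs_append l l' m e).2 (Or.inr he)))) hy1)
      · exact i3 ⟨hy1, hy2⟩

end Pool.HexDraw
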