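import Pool.Agent.Lib.MP_8613e3_co_hex.G02

/-!
# G03: pairs of polylines (45 min)

`sepPoly_disj`, `noBoth_empty`: directly from `seg_disj`.
`crossAt_union`: restrict the chart to the open set `(C ∪ C')ᶜ`.
`croPoly_cross`: there are segments `e` of `l` and `f` of `m` which cross (`seg_cross`, point `x`)
and all other pairs are separated. Let `C` be the union of the segments `e' ≠ e` of `l` and `C'`
that of the segments `f' ≠ f` of `m`; they are closed (finite unions of segments),
`poly l = sg e ∪ C`, `poly m = sg f ∪ C'`, and `x ∉ C`, `x ∉ C'` because `x` is on `f` and on `e`.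
`adjPoly_inter`: by cases on the lists, `poly_cons` twice, `seg_share`, `sepPoly_disj`.
-/

namespace Pool.HexDraw

open Set

theorem crossAt_union {S : Type} [TopologicalSpace S] {x : S} {A B C C' : Set S}
    (h : CrossAt x A B) (hC : IsClosed C) (hC' : IsClosed C') (hx : x ∉ C) (hx' : x ∉ C') :
    CrossAt x (A ∪ C) (B ∪ C') := by
  obtain ⟨φ, h1, h2, h3⟩ := h
  refine ⟨φ.restrOpen (Cᶜ ∩ C'ᶜ) (hC.isOpen_compl.inter hC'.isOpen_compl), ?_, h2, ?_⟩
  · exact ⟨h1, hx, hx'⟩
  · rintro y ⟨hy1, hy2, hy3⟩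
    obtain ⟨h4, h5⟩ := h3 y hy1
    refine ⟨?_, ?_⟩
    · change y ∈ A ∪ C ↔ (φ y).2 = 0
      rw [← h4]
      exact ⟨fun h => h.resolve_right hy2, Or.inl⟩
    · change y ∈ B ∪ C' ↔ (φ y).1 = 0
      rw [← h5]
      exact ⟨fun h => h.resolve_right hy3, Or.inl⟩

theorem sepPoly_disj {l m : List Pt} (h : sepPoly l m = true) : Disjoint (poly l) (poly m) := by
  unfold sepPoly at h
  rw [List.all_eq_true] at h
  rw [Set.disjoint_left]
  rintro y ⟨e, he, hy1⟩ ⟨f, hf, hy2⟩
  have h1 := h e he
  rw [List.all_eq_true] at h1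
  exact Set.disjoint_left.1 (seg_disj (h1 f hf)) hy1 hy2

theorem g03_closed (l : List Pt) (e : Pt × Pt) :
    IsClosed {y | ∃ e' ∈ segs l, e' ≠ e ∧ y ∈ sg e'.1 e'.2} := by
  have h1 : {y | ∃ e' ∈ segs l, e' ≠ e ∧ y ∈ sg e'.1 e'.2}
      = ⋃ e' ∈ {e' | e' ∈ segs l ∧ e' ≠ e}, sg e'.1 e'.2 := by
    ext y
    constructor
    · rintro ⟨e', h1, h2, h3⟩
      exact mem_biUnion (show e' ∈ {e' | e' ∈ segs l ∧ e' ≠ e} from ⟨h1, h2⟩) h3
    · intro hy
      obtain ⟨e', h1, h2⟩ := mem_iUnion₂.1 hy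
      exact ⟨e', h1.1, h1.2, h2⟩
  rw [h1]
  refine Set.Finite.isClosed_biUnion ?_ (fun e' _ => isClosed_sg _ _)
  exact (List.finite_toSet (segs l)).subset (fun e' he' => he'.1)

theorem g03_poly (l : List Pt) (e : Pt × Pt) (he : e ∈ segs l) :
    poly l = sg e.1 e.2 ∪ {y | ∃ e' ∈ segs l, e' ≠ e ∧ y ∈ sg e'.1 e'.2} := by
  ext y
  constructor
  · rintro ⟨e', h1, h2⟩
    by_cases h3 : e' = e
    · left
      rw [← h3]
      exact h2
    · exact Or.inr ⟨e', h1, h3, h2⟩
  · rintro (h1 | ⟨e', h1, _, h2⟩)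
    · exact ⟨e, he, h1⟩
    · exact ⟨e', h1, h2⟩

theorem croPoly_cross {l m : List Pt} (h : croPoly l m = true) :
    ∃ x, poly l ∩ poly m = {x} ∧ CrossAt x (poly l) (poly m) := by
  unfold croPoly at h
  rw [List.any_eq_true] at h
  obtain ⟨e, he, h⟩ := h
  rw [List.any_eq_true] at h
  obtain ⟨f, hf, h⟩ := h
  unfold croAt at h
  rw [Bool.and_eq_true, List.all_eq_true] at h
  obtain ⟨h1, h2⟩ := h
  have h3 : ∀ e' ∈ segs l, ∀ f' ∈ segs m, (e' = e ∧ f' = f) ∨
      Disjoint (sg e'.1 e'.2) (sg f'.1 f'.2) := by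
    intro e' he' f' hf'
    have h4 := h2 e' he'
    rw [List.all_eq_true] at h4
    have h5 := h4 f' hf'
    rw [Bool.or_eq_true, Bool.and_eq_true, decide_eq_true_eq, decide_eq_true_eq] at h5
    rcases h5 with h5 | h5
    · exact Or.inl h5
    · exact Or.inr (seg_disj h5)
  obtain ⟨x, hx1, hx2⟩ := seg_cross h1
  have hxx : x ∈ sg e.1 e.2 ∩ sg f.1 f.2 := by
    rw [hx1]
    exact mem_singleton x
  refine ⟨x, ?_, ?_⟩
  · ext y
    rw [mem_singleton_iff]
    constructor
    · rintro ⟨⟨e', he', hy1⟩, ⟨f', hf', hy2⟩⟩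
      rcases h3 e' he' f' hf' with ⟨h4, h5⟩ | h4
      · have : y ∈ sg e.1 e.2 ∩ sg f.1 f.2 := by
          rw [← h4, ← h5]
          exact ⟨hy1, hy2⟩
        rw [hx1] at this
        exact this
      · exact absurd hy2 (Set.disjoint_left.1 h4 hy1)
    · intro hy
      rw [hy]
      exact ⟨⟨e, he, hxx.1⟩, ⟨f, hf, hxx.2⟩⟩
  · rw [g03_poly l e he, g03_poly m f hf]
    refine crossAt_union hx2 (g03_closed l e) (g03_closed m f) ?_ ?_
    · rintro ⟨e', he', hne, hy⟩
      rcases h3 e' he' f hf with ⟨h4, _⟩ | h4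
      · exact hne h4
      · exact Set.disjoint_left.1 h4 hy hxx.2
    · rintro ⟨f', hf', hne, hy⟩
      rcases h3 e he f' hf' with ⟨_, h4⟩ | h4
      · exact hne h4
      · exact Set.disjoint_left.1 h4 hxx.1 hy

theorem adjPoly_inter {l m : List Pt} {c : Pt} (h : adjPoly l m = true)
    (hc : l.head? = some c) : poly l ∩ poly m = {toR c} := by
  cases l with
  | nil => simp at hc
  | cons a l =>
    cases l with
    | nil => simp [adjPoly] at h
    | cons p l =>
      cases m with
      | nil => simp [adjPoly] at h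
      | cons a' m =>
        cases m with
        | nil => simp [adjPoly] at h
        | cons q m =>
          rw [adjPoly, Bool.and_eq_true, Bool.and_eq_true, Bool.and_eq_true, decide_eq_true_eq,
            decide_eq_true_eq] at h
          obtain ⟨⟨⟨h1, h2⟩, h3⟩, h4⟩ := h
          rw [List.head?_cons, Option.some.injEq] at hc
          subst hc
          subst h1
          have h5 := Set.disjoint_left.1 (sepPoly_disj h3)
          have h6 := Set.disjoint_left.1 (sepPoly_disj h4)
          ext y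
          constructor
          · rintro ⟨hy1, hy2⟩
            rw [← seg_share h2]
            refine ⟨?_, ?_⟩
            · rw [poly_cons] at hy1
              rcases hy1 with hy1 | hy1
              · exact hy1
              · exact absurd hy2 (h6 hy1)
            · have hy2' := hy2
              rw [poly_cons] at hy2'
              rcases hy2' with hy3 | hy3
              · exact hy3
              · exact absurd hy3 (h5 hy1)
          · intro hy
            rw [mem_singleton_iff] at hy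
            rw [hy, poly_cons, poly_cons]
            exact ⟨Or.inl (left_mem_segment ℝ _ _), Or.inl (left_mem_segment ℝ _ _)⟩

theorem noBoth_empty {l m m' : List Pt} (h : noBoth l m m' = true) :
    poly l ∩ poly m ∩ poly m' = ∅ := by
  unfold noBoth at h
  rw [List.all_eq_true] at h
  rw [Set.eq_empty_iff_forall_notMem]
  rintro y ⟨⟨⟨e, he, hy1⟩, ⟨f, hf, hy2⟩⟩, ⟨f', hf', hy3⟩⟩
  have h1 := h e he
  rw [Bool.or_eq_true, List.all_eq_true, List.all_eq_true] at h1
  rcases h1 with h1 | h1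
  · exact Set.disjoint_left.1 (seg_disj (h1 f hf)) hy1 hy2
  · exact Set.disjoint_left.1 (seg_disj (h1 f' hf')) hy1 hy3

end Pool.HexDraw
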