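import Pool.Agent.Lib.MP_8613e3_co_hex.R02

/-!
# Definitions for part G: polylines with integer vertices and the drawing of `K_6`
-/

namespace Pool.HexDraw

open Set

abbrev Pt : Type := ℤ × ℤ

/-- Twice the signed area of the triangle `p q r`. -/
def ori (p q r : Pt) : ℤ := (q.1 - p.1) * (r.2 - p.2) - (q.2 - p.2) * (r.1 - p.1)

/-- One of the two lines separates the end points of the other segment. -/
def sepB (p q r s : Pt) : Bool :=
  decide (0 < ori p q r * ori p q s) || decide (0 < ori r s p * ori r s q)

/-- The segments `pq` and `rs` cross in their interiors. -/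
def croB (p q r s : Pt) : Bool :=
  decide (ori p q r * ori p q s < 0) && decide (ori r s p * ori r s q < 0)

def toR (p : Pt) : ℝ × ℝ := ((p.1 : ℝ), (p.2 : ℝ))

def sg (p q : Pt) : Set (ℝ × ℝ) := segment ℝ (toR p) (toR q)

/-- The list of the segments of a polyline. -/
def segs : List Pt → List (Pt × Pt)
  | p :: q :: l => (p, q) :: segs (q :: l)
  | _ => []

/-- The point set of a polyline. -/
def poly (l : List Pt) : Set (ℝ × ℝ) := {y | ∃ e ∈ segs l, y ∈ sg e.1 e.2}

/-- The polyline is simple (checked by orientations). -/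
def polyOK : List Pt → Bool
  | p :: q :: r :: l => decide (ori q p r ≠ 0) &&
      (segs (r :: l)).all (fun e => sepB p q e.1 e.2) && polyOK (q :: r :: l)
  | [p, q] => decide (p ≠ q)
  | _ => false

/-- All segments of the two polylines are separated. -/
def sepPoly (l m : List Pt) : Bool :=
  (segs l).all (fun e => (segs m).all (fun f => sepB e.1 e.2 f.1 f.2))

/-- The segments `e` of `l` and `f` of `m` cross and all other pairs are separated. -/
def croAt (l m : List Pt) (e f : Pt × Pt) : Bool :=
  croB e.1 e.2 f.1 f.2 && (segs l).all (fun e' => (segs m).all (fun f' =>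
    (decide (e' = e) && decide (f' = f)) || sepB e'.1 e'.2 f'.1 f'.2))

/-- The two polylines cross exactly once. -/
def croPoly (l m : List Pt) : Bool :=
  (segs l).any (fun e => (segs m).any (fun f => croAt l m e f))

/-- The two polylines start in the same point and have no other common point. -/
def adjPoly : List Pt → List Pt → Bool
  | c :: p :: l, c' :: q :: m => decide (c = c') && decide (ori c p q ≠ 0) &&
      sepPoly (c :: p :: l) (q :: m) && sepPoly (p :: l) (c :: q :: m)
  | _, _ => false

/-- No segment of `l` meets both `m` and `m'`. -/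
def noBoth (l m m' : List Pt) : Bool :=
  (segs l).all (fun e => (segs m).all (fun f => sepB e.1 e.2 f.1 f.2) ||
    (segs m').all (fun f => sepB e.1 e.2 f.1 f.2))

/-- First part of the hexagon edge from `k` to `k+1`. -/
def hA : Fin 6 → List Pt
  | 0 => [(-6, 9), (-18, -12), (-8, -11)]
  | 1 => [(-3, 3), (-5, 0)]
  | 2 => [(-9, -9), (-3, -11)]
  | 3 => [(-6, 0), (-4, -1)]
  | 4 => [(6, -9), (-24, -18)]
  | 5 => [(-3, -3), (-4, 0)]

/-- Second part of the hexagon edge from `k` to `k+1`, without its first point. -/
def hB : Fin 6 → List Pt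
  | 0 => [(3, -6), (-3, 3)]
  | 1 => [(-9, -9)]
  | 2 => [(24, -24), (3, 21), (-6, 0)]
  | 3 => [(6, -9)]
  | 4 => [(-3, -3)]
  | 5 => [(-6, 9)]

/-- The last point of the first part. -/
def hM : Fin 6 → Pt
  | 0 => (-8, -11)
  | 1 => (-5, 0)
  | 2 => (-3, -11)
  | 3 => (-4, -1)
  | 4 => (-24, -18)
  | 5 => (-4, 0)

/-- The six vertices. -/
def vx : Fin 6 → Pt
  | 0 => (-6, 9)
  | 1 => (-3, 3)
  | 2 => (-9, -9)
  | 3 => (-6, 0)
  | 4 => (6, -9)
  | 5 => (-3, -3)

/-- The polyline from the vertex `i` to the vertex `j`. -/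
def E0 (i j : Fin 6) : List Pt :=
  if j = i + 1 then hA i ++ hB i else if i = j + 1 then (hA j ++ hB j).reverse else [vx i, vx j]

end Pool.HexDraw
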