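import Pool.Agent.Lib.MP_8613e3_co_hex.P01
import Pool.Agent.Lib.MP_8613e3_co_hex.C02

/-!
# H01: a twisted hexagon gives a state with six smoothings
-/

namespace Pool.HexDraw

open Set

variable {S : Type} [TopologicalSpace S] {n : ℕ}

/-- an edge through a crossing of two disjoint edges is one of the two -/
theorem h01_three (D : Drawing S n) {a b c d i j : Fin n} (hab : a ≠ b) (hcd : c ≠ d)
    (hD : Dj a b c d) (hij : i ≠ j) {x : S} (h1 : x ∈ D.edge a b) (h2 : x ∈ D.edge c d)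
    (h3 : x ∈ D.edge i j) :
    (i = a ∧ j = b) ∨ (i = b ∧ j = a) ∨ (i = c ∧ j = d) ∨ (i = d ∧ j = c) := by
  -- two different edges with a common end do not both pass `x`
  have key : ∀ a b c d u : Fin n, a ≠ b → c ≠ d → Dj a b c d → x ∈ D.edge a b →
      x ∈ D.edge c d → a ≠ u → x ∈ D.edge a u → b = u := by
    intro a b c d u hab hcd hD h1 h2 hau h4
    by_contra hbu
    have h5 : x ∈ D.edge a b ∩ D.edge a u := ⟨h1, h4⟩
    rw [D.adjacent a b u hab hau hbu] at h5
    have h6 : x = D.pt a := h5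
    rw [h6] at h2
    exact D.avoid c d a hcd hD.1 hD.2.1 h2
  have key2 : ∀ a b c d i j : Fin n, a ≠ b → c ≠ d → Dj a b c d → x ∈ D.edge a b →
      x ∈ D.edge c d → i ≠ j → x ∈ D.edge i j →
      ((i = a ∧ j = b) ∨ (i = b ∧ j = a)) ∨ Dj a b i j := by
    intro a b c d i j hab hcd hD h1 h2 hij h3
    have h1' : x ∈ D.edge b a := by rw [D.symm]; exact h1
    have h3' : x ∈ D.edge j i := by rw [D.symm]; exact h3
    have hD' : Dj b a c d := ⟨hD.2.2.1, hD.2.2.2, hD.1, hD.2.1⟩
    by_cases e1 : a = i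
    · subst e1
      exact Or.inl (Or.inl ⟨rfl, (key a b c d j hab hcd hD h1 h2 hij h3).symm⟩)
    by_cases e2 : a = j
    · subst e2
      exact Or.inl (Or.inr ⟨(key a b c d i hab hcd hD h1 h2 (Ne.symm hij) h3').symm, rfl⟩)
    by_cases e3 : b = i
    · subst e3
      exact Or.inl (Or.inr ⟨rfl, (key b a c d j (Ne.symm hab) hcd hD' h1' h2 hij h3).symm⟩)
    by_cases e4 : b = j
    · subst e4
      exact Or.inl (Or.inl ⟨(key b a c d i (Ne.symm hab) hcd hD' h1' h2
        (Ne.symm hij) h3').symm, rfl⟩)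
    exact Or.inr ⟨e1, e2, e3, e4⟩
  rcases key2 a b c d i j hab hcd hD h1 h2 hij h3 with h | h
  · rcases h with h | h
    · exact Or.inl h
    · exact Or.inr (Or.inl h)
  · have hD' : Dj c d a b :=
      ⟨hD.1.symm, hD.2.2.1.symm, hD.2.1.symm, hD.2.2.2.symm⟩
    rcases key2 c d a b i j hcd hab hD' h2 h1 hij h3 with h' | h'
    · rcases h' with h' | h'
      · exact Or.inr (Or.inr (Or.inl h'))
      · exact Or.inr (Or.inr (Or.inr h'))
    · exfalso
      have := D.noTriple a b c d i j hab hcd hij hD h h'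
      rw [Set.eq_empty_iff_forall_notMem] at this
      exact this x ⟨⟨h1, h2⟩, h3⟩

section

variable {D : Drawing S n} {h : Fin 6 → Fin n} {P : Fin 6 → S}

theorem h01_f1 (m : Fin 6) : m - 1 ≠ m := by revert m; decide

theorem h01_f2 (m : Fin 6) : m + 1 ≠ m + 2 := by revert m; decide

theorem h01_f3 (m : Fin 6) : m ≠ m + 1 := by revert m; decide

theorem h01_f4 (m k : Fin 6) (h1 : k = m) (h2 : k + 1 = m - 1) : False := by
  revert m k; decide

theorem h01_f5 (m k : Fin 6) (h1 : k = m + 2) (h2 : k + 1 = m + 1) : False := by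
  revert m k; decide

theorem h01_ne (hi : Function.Injective h) {a b : Fin 6} (hab : a ≠ b) : h a ≠ h b :=
  fun e => hab (hi e)

theorem h01_dj (hi : Function.Injective h) (k : Fin 6) :
    Dj (h (k - 1)) (h k) (h (k + 1)) (h (k + 2)) := by
  refine ⟨h01_ne hi ?_, h01_ne hi ?_, h01_ne hi ?_, h01_ne hi ?_⟩ <;> revert k <;> decide

/-- the edges of the hexagon through `P m` -/
theorem h01_edges (hi : Function.Injective h) (hP1 : ∀ k, P k ∈ D.edge (h (k - 1)) (h k))
    (hP2 : ∀ k, P k ∈ D.edge (h (k + 1)) (h (k + 2))) (m : Fin 6) {i j : Fin n}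
    (hij : i ≠ j) (hm : P m ∈ D.edge i j) :
    (i = h (m - 1) ∧ j = h m) ∨ (i = h m ∧ j = h (m - 1)) ∨
      (i = h (m + 1) ∧ j = h (m + 2)) ∨ (i = h (m + 2) ∧ j = h (m + 1)) := by
  exact h01_three D (h01_ne hi (h01_f1 m)) (h01_ne hi (h01_f2 m)) (h01_dj hi m) hij
    (hP1 m) (hP2 m) hm

theorem h01_on (hi : Function.Injective h) (hP1 : ∀ k, P k ∈ D.edge (h (k - 1)) (h k))
    (hP2 : ∀ k, P k ∈ D.edge (h (k + 1)) (h (k + 2))) (m k : Fin 6)
    (hm : P m ∈ D.edge (h k) (h (k + 1))) : m = k + 1 ∨ m = k - 1 := by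
  have hne : h k ≠ h (k + 1) := h01_ne hi (h01_f3 k)
  have := h01_edges hi hP1 hP2 m hne hm
  rcases this with ⟨a, b⟩ | ⟨a, b⟩ | ⟨a, b⟩ | ⟨a, b⟩
  · left
    rw [hi a, sub_add_cancel]
  · exact (h01_f4 m k (hi a) (hi b)).elim
  · right
    rw [hi a, add_sub_cancel_right]
  · exact (h01_f5 m k (hi a) (hi b)).elim

theorem h01_inj (hi : Function.Injective h) (hP1 : ∀ k, P k ∈ D.edge (h (k - 1)) (h k))
    (hP2 : ∀ k, P k ∈ D.edge (h (k + 1)) (h (k + 2))) : Function.Injective P := by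
  intro k m hkm
  have h1 : P m ∈ D.edge (h (k - 1)) (h (k - 1 + 1)) := by
    rw [← hkm, sub_add_cancel]
    exact hP1 k
  have h2 : P m ∈ D.edge (h (k + 1)) (h (k + 1 + 1)) := by
    rw [← hkm, add_assoc]
    exact hP2 k
  have h3 := h01_on hi hP1 hP2 m _ h1
  have h4 := h01_on hi hP1 hP2 m _ h2
  clear h1 h2 hkm
  revert k m
  decide

end

/-- the strands of two darts at the same crossing on different edges are different -/
theorem h01_strand {D : Drawing S n} (E : EdgeNet D) {c c' : CD D.crossings}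
    (h1 : c'.1 = c.1) (h2 : E.dir c' ≠ E.dir c) (h3 : E.dir c' ≠ (E.dir c).rev) :
    c'.2.1 = !c.2.1 := by
  obtain ⟨x, s, d⟩ := c
  obtain ⟨x', s', d'⟩ := c'
  simp only at h1
  subst h1
  by_contra hs
  have hss : s' = s := by
    revert hs
    cases s <;> cases s' <;> simp
  subst hss
  by_cases hd : d' = d
  · subst hd
    exact h2 rfl
  · have hdd : d' = !d := by
      revert hd
      cases d <;> cases d' <;> simp
    subst hdd
    exact h3 (E.dir_opp x' s' d)

/-- one new trail -/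
theorem h01_trail {D : Drawing S n} (E : EdgeNet D) {ω : State D.crossings} {v v' : VD n}
    {l l' : List (CD D.crossings)} {c c' : CD D.crossings}
    (w1 : E.toNet.Walk (st0 _) (E.flip (Sum.inl v)) l (Sum.inr c))
    (w2 : E.toNet.Walk (st0 _) (E.flip (Sum.inl v')) l' (Sum.inr c'))
    (h1 : ∀ f ∈ l, ω f.1 = none) (h2 : ∀ f ∈ l', ω f.1 = none) (hm : mate ω c = c') :
    ∃ l'', E.toNet.Trail ω v l'' v' := by
  have w1' := walk_congr (ω' := ω) (fun f hf => (h1 f hf).symm) w1
  have w2' := walk_congr (ω' := ω) (fun f hf => (h2 f hf).symm) w2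
  have w3 := walk_rev w2'
  rw [E.flip_flip] at w3
  refine ⟨l ++ c :: (l'.map (mate ω)).reverse, c02_join w1' ?_⟩
  rw [hm]
  exact w3

open Classical in
theorem hexagon_state [T2Space S] {D : Drawing S n} (E : EdgeNet D) {h : Fin 6 → Fin n}
    (hh : D.TwistedHexagon h) :
    ∃ ω : State D.crossings, E.toNet.K ω ∧ (strt ω).ncard + 6 ≤ D.cr := by
  obtain ⟨hi, P, hP⟩ := hh
  have hP1 : ∀ k, P k ∈ D.edge (h (k - 1)) (h k) := fun k => (hP k).1
  have hP2 : ∀ k, P k ∈ D.edge (h (k + 1)) (h (k + 2)) := fun k => (hP k).2.1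
  have hB : ∀ k, Before (D.edge (h k) (h (k + 1))) (D.pt (h k)) (P (k - 1)) (P (k + 1)) :=
    fun k => (hP k).2.2
  have n01 : ∀ k, h (k - 1) ≠ h k := fun k => h01_ne hi (by revert k; decide)
  have n12 : ∀ k, h (k + 1) ≠ h (k + 2) := fun k => h01_ne hi (by revert k; decide)
  have hcr : ∀ k, P k ∈ D.crossings := fun k =>
    ⟨h (k - 1), h k, h (k + 1), h (k + 2), n01 k, n12 k, h01_dj hi k, hP1 k, hP2 k⟩
  set x : Fin 6 → D.crossings := fun k => ⟨P k, hcr k⟩ with hxdef
  have hxi : Function.Injective x := by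
    intro a b hab
    exact h01_inj hi hP1 hP2 (congrArg Subtype.val hab)
  -- the first walks
  have W1 : ∀ k : Fin 6, ∃ (c : CD D.crossings) (l : List (CD D.crossings)), c.1 = x k ∧
      E.dir c = ⟨(h (k - 1), h k), n01 k⟩ ∧
      E.toNet.Walk (st0 _) (E.flip (Sum.inl ⟨(h k, h (k - 1)), (n01 k).symm⟩)) l (Sum.inr c) ∧
      ∀ f ∈ l, ∀ m, f.1 ≠ x m := by
    intro k
    obtain ⟨c, l, h1, h2, h3, h4⟩ := E.walk_cross ⟨(h k, h (k - 1)), (n01 k).symm⟩ (x k)
      (by
        change P k ∈ D.edge (h k) (h (k - 1))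
        rw [D.symm]
        exact hP1 k)
    refine ⟨c, l, h1, h2, h3, ?_⟩
    intro f hf m hfm
    obtain ⟨g1, g2⟩ := h4 f hf
    rw [hfm] at g1 g2
    change P m ∈ D.edge (h k) (h (k - 1)) at g1
    change Before (D.edge (h k) (h (k - 1))) (D.pt (h k)) (P m) (P k) at g2
    have g1' : P m ∈ D.edge (h (k - 1)) (h (k - 1 + 1)) := by
      rw [sub_add_cancel, D.symm]
      exact g1
    rcases h01_on hi hP1 hP2 m (k - 1) g1' with e | e
    · rw [sub_add_cancel] at e
      rw [e] at g2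
      exact g2.ne rfl
    · have b1 := hB (k - 1)
      rw [sub_add_cancel, ← e] at b1
      have b2 := Before.rev (D.arc _ _ (n01 k)) b1
      rw [D.symm] at g2
      exact b2.asymm g2
  have W2 : ∀ k : Fin 6, ∃ (c : CD D.crossings) (l : List (CD D.crossings)), c.1 = x k ∧
      E.dir c = ⟨(h (k + 2), h (k + 1)), (n12 k).symm⟩ ∧
      E.toNet.Walk (st0 _) (E.flip (Sum.inl ⟨(h (k + 1), h (k + 2)), n12 k⟩)) l (Sum.inr c) ∧
      ∀ f ∈ l, ∀ m, f.1 ≠ x m := by
    intro k
    obtain ⟨c, l, h1, h2, h3, h4⟩ := E.walk_cross ⟨(h (k + 1), h (k + 2)), n12 k⟩ (x k)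
      (hP2 k)
    refine ⟨c, l, h1, h2, h3, ?_⟩
    intro f hf m hfm
    obtain ⟨g1, g2⟩ := h4 f hf
    rw [hfm] at g1 g2
    change P m ∈ D.edge (h (k + 1)) (h (k + 2)) at g1
    change Before (D.edge (h (k + 1)) (h (k + 2))) (D.pt (h (k + 1))) (P m) (P k) at g2
    have ek : k + 1 + 1 = k + 2 := by rw [add_assoc]; rfl
    have g1' : P m ∈ D.edge (h (k + 1)) (h (k + 1 + 1)) := by
      rw [ek]
      exact g1
    have b1 := hB (k + 1)
    rw [ek, add_sub_cancel_right] at b1
    rcases h01_on hi hP1 hP2 m (k + 1) g1' with e | e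
    · rw [ek] at e
      rw [e] at g2
      exact b1.asymm g2
    · rw [add_sub_cancel_right] at e
      rw [e] at g2
      exact g2.ne rfl
  choose c l hc1 hc2 hc3 hc4 using W1
  choose c' l' hc1' hc2' hc3' hc4' using W2
  have hstrand : ∀ k, (c' k).2.1 = !(c k).2.1 := by
    intro k
    obtain ⟨d1, d2, d3, d4⟩ := h01_dj hi k
    apply h01_strand E
    · rw [hc1, hc1']
    · rw [hc2, hc2']
      intro e
      have := congrArg (fun z : VD n => z.1.1) e
      exact d2 this.symm
    · rw [hc2, hc2']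
      intro e
      have := congrArg (fun z : VD n => z.1.1) e
      exact d4 this.symm
  -- the state
  set ω : State D.crossings := fun y =>
    if hy : ∃ k, x k = y then some (xor (c hy.choose).2.2 (c' hy.choose).2.2) else none with hω
  have hωx : ∀ k, ω (x k) = some (xor (c k).2.2 (c' k).2.2) := by
    intro k
    have hy : ∃ m, x m = x k := ⟨k, rfl⟩
    have e : hy.choose = k := hxi hy.choose_spec
    simp only [hω]
    rw [dif_pos hy, e]
  have hωn : ∀ y, (∀ m, y ≠ x m) → ω y = none := by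
    intro y hy
    simp only [hω]
    rw [dif_neg]
    rintro ⟨k, hk⟩
    exact hy k hk.symm
  have hmate : ∀ k, mate ω (c k) = c' k := by
    intro k
    have h1 := hωx k
    rw [← hc1 k] at h1
    rw [c01_mate_some h1]
    have h2 : (c' k) = ((c' k).1, (c' k).2.1, (c' k).2.2) := rfl
    rw [h2, hstrand k, hc1', ← hc1]
    congr 2
    cases (c k).2.2 <;> cases (c' k).2.2 <;> rfl
  refine ⟨ω, ?_, ?_⟩
  · intro i j hij
    by_cases hk : ∃ k, (i = h k ∧ j = h (k + 1)) ∨ (i = h (k + 1) ∧ j = h k)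
    · obtain ⟨k, hk⟩ := hk
      obtain ⟨l'', t⟩ := h01_trail E (hc3 k) (hc3' k) (fun f hf => hωn _ (hc4 k f hf))
        (fun f hf => hωn _ (hc4' k f hf)) (hmate k)
      rcases hk with ⟨e1, e2⟩ | ⟨e1, e2⟩
      · exact ⟨_, _, _, e1.symm, e2.symm, t⟩
      · exact ⟨_, _, _, e1.symm, e2.symm, trail_rev t⟩
    · push Not at hk
      obtain ⟨l0, t, ht⟩ := E.walk_vertex ⟨(i, j), hij⟩
      refine ⟨⟨(i, j), hij⟩, l0, VD.rev ⟨(i, j), hij⟩, rfl, rfl, ?_⟩
      refine walk_congr (fun f hf => ?_) t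
      change none = ω f.1
      symm
      apply hωn
      intro m hm
      have h1 := ht f hf
      rw [hm] at h1
      change P m ∈ D.edge i j at h1
      have em : m - 1 + 1 = m := sub_add_cancel m 1
      have em2 : m + 1 + 1 = m + 2 := by rw [add_assoc]; rfl
      have k1 := hk (m - 1)
      have k2 := hk (m + 1)
      rw [em] at k1
      rw [em2] at k2
      rcases h01_edges hi hP1 hP2 m hij h1 with ⟨a, b⟩ | ⟨a, b⟩ | ⟨a, b⟩ | ⟨a, b⟩
      · exact k1.1 a b
      · exact k1.2 a b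
      · exact k2.1 a b
      · exact k2.2 a b
  · have hfin : Finite D.crossings := (crossings_finite D).to_subtype
    have hs : strt ω ⊆ (range x)ᶜ := by
      rintro y hy ⟨k, rfl⟩
      have := hωx k
      rw [show ω (x k) = none from hy] at this
      exact absurd this (by simp)
    have h1 : (strt ω).ncard ≤ ((range x)ᶜ).ncard := Set.ncard_le_ncard hs (Set.toFinite _)
    have h2 := Set.ncard_add_ncard_compl (range x)
    have h3 : (range x).ncard = 6 := by
      rw [← Set.image_univ, Set.ncard_image_of_injective _ hxi, Set.ncard_univ]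
      simp
    have h4 : D.cr = Nat.card D.crossings := by
      unfold Drawing.cr
      rw [Nat.card_coe_set_eq]
    omega

end Pool.HexDraw
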