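import Pool.Agent.Lib.MP_8613e3_co_hex.NDefs

/-!
# Definitions for part P: from a drawing to its net
-/

namespace Pool.HexDraw

open Set

variable {S : Type} [TopologicalSpace S] {n : ℕ} {X : Type}

/-- Small boxes around the crossings of a drawing. The crossing `x` lies on the two edges
`st x false` (the first axis of the chart) and `st x true` (the second axis). -/
structure BoxData (D : Drawing S n) extends Boxes S n D.crossings where
  pt_eq : pt = D.pt
  centre : ∀ x, (chart x).symm (0, 0) = x.1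
  disj : ∀ x y, x ≠ y → Disjoint (toBoxes.box x) (toBoxes.box y)
  pt_box : ∀ i x, pt i ∉ toBoxes.box x
  st : D.crossings → Bool → VD n
  st_disj : ∀ x, Dj (st x false).1.1 (st x false).1.2 (st x true).1.1 (st x true).1.2
  st_chart : ∀ x s y, y ∈ (chart x).source →
    (y ∈ D.edge (st x s).1.1 (st x s).1.2 ↔
      (if s then (chart x y).1 = 0 else (chart x y).2 = 0))
  edge_box : ∀ x (v : VD n), (∀ s, v ≠ st x s ∧ v ≠ (st x s).rev) →
    Disjoint (toBoxes.box x) (D.edge v.1.1 v.1.2)

/-- Abstract positions of crossing darts on the edges: the dart `c` lies on the oriented edge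
`dir c` and points to its end; `pos c` is the position of the end point of the dart, measured
from the beginning of `dir c`. On the edge `dir (x,s,d)` the box of the crossing `x` is the
interval `[1 - pos (x,s,!d), pos (x,s,d)]`; different boxes on one edge are disjoint. -/
structure Line (n : ℕ) (X : Type) where
  dir : CD X → VD n
  pos : CD X → ℝ
  dir_opp : ∀ x s d, dir (x, s, !d) = (dir (x, s, d)).rev
  pos_pos : ∀ c, 0 < pos c
  pos_lt : ∀ c, pos c < 1
  box : ∀ x s d, 1 - pos (x, s, !d) < pos (x, s, d)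
  sep : ∀ x s d y t e, dir (x, s, d) = dir (y, t, e) → (x, s) ≠ (y, t) →
    pos (x, s, d) < 1 - pos (y, t, !e) ∨ pos (y, t, e) < 1 - pos (x, s, !d)

/-- The oriented edge of a dart. -/
def Line.ddir (L : Line n X) : Dart n X → VD n
  | Sum.inl v => v
  | Sum.inr c => L.dir c

/-- The position of a dart. -/
def Line.dpos (L : Line n X) : Dart n X → ℝ
  | Sum.inl _ => 0
  | Sum.inr c => L.pos c

/-- The net given by the positions: `flip h` is the next dart on the edge. -/
structure LineNet (L : Line n X) extends Net n X where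
  ddir_flip : ∀ h, L.ddir (flip h) = (L.ddir h).rev
  dpos_flip : ∀ h, L.dpos h < 1 - L.dpos (flip h)
  gap : ∀ h x s d, L.dir (x, s, d) = L.ddir h → Sum.inr (x, s, d) = h ∨
    Sum.inr (x, s, !d) = flip h ∨ L.pos (x, s, d) < L.dpos h ∨
    1 - L.dpos (flip h) < 1 - L.pos (x, s, !d)

/-- Boxes, parametrisations of the edges and positions of the darts of a drawing. -/
structure Geo (D : Drawing S n) where
  B : BoxData D
  L : Line n D.crossings
  γ : VD n → ℝ → S
  param : ∀ v : VD n, Param (γ v) (D.pt v.1.1) (D.pt v.1.2) (D.edge v.1.1 v.1.2)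
  rev : ∀ (v : VD n) t, γ v.rev t = γ v (1 - t)
  pos_eq : ∀ c, γ (L.dir c) (L.pos c) = B.toBoxes.bp (Sum.inr c)
  mem_box : ∀ x s d, ∀ u ∈ Icc (0 : ℝ) 1, (γ (L.dir (x, s, d)) u ∈ B.toBoxes.box x ↔
    u ∈ Icc (1 - L.pos (x, s, !d)) (L.pos (x, s, d)))
  ctr : ∀ x s d, ∃ t ∈ Ioo (1 - L.pos (x, s, !d)) (L.pos (x, s, d)), γ (L.dir (x, s, d)) t = x.1
  dir_st : ∀ x s d, L.dir (x, s, d) = B.st x s ∨ L.dir (x, s, d) = (B.st x s).rev

end Pool.HexDraw
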