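import Pool.Agent.Lib.MP_8613e3_co_hex.P01
import Pool.Agent.Lib.MP_8613e3_co_hex.PDefs

/-!
# P03: small disjoint boxes around the crossings
-/

namespace Pool.HexDraw

open Set

variable {S : Type} [TopologicalSpace S] {n : ℕ}

theorem p03_local {φ : OpenPartialHomeomorph S (ℝ × ℝ)} {x : S} (hx : x ∈ φ.source)
    (h0 : φ x = (0, 0)) {V : Set S} (hV : IsOpen V) (hxV : x ∈ V) :
    ∃ ψ : OpenPartialHomeomorph S (ℝ × ℝ), K2 ⊆ ψ.target ∧ ψ.source = φ.source ∧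
      ψ.symm (0, 0) = x ∧ ψ.symm '' K2 ⊆ V ∧
      ∀ y, ((ψ y).1 = 0 ↔ (φ y).1 = 0) ∧ ((ψ y).2 = 0 ↔ (φ y).2 = 0) := by
  have hsx : φ.symm (0, 0) = x := by rw [← h0]; exact φ.left_inv hx
  have hW : IsOpen (φ.target ∩ φ.symm ⁻¹' V) := φ.isOpen_inter_preimage_symm hV
  have h0W : ((0, 0) : ℝ × ℝ) ∈ φ.target ∩ φ.symm ⁻¹' V := by
    refine ⟨by rw [← h0]; exact φ.map_source hx, ?_⟩
    simp only [mem_preimage, hsx]
    exact hxV
  obtain ⟨r, hr, hball⟩ := (Metric.nhds_basis_closedBall.mem_iff).1 (hW.mem_nhds h0W)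
  have hr' : (r⁻¹ : ℝ) ≠ 0 := inv_ne_zero hr.ne'
  have hK : ∀ z ∈ K2, r • z ∈ φ.target ∩ φ.symm ⁻¹' V := by
    rintro ⟨a, b⟩ ⟨ha, hb⟩
    simp only [mem_Icc] at ha hb
    apply hball
    rw [← closedBall_prod_same]
    simp only [Prod.smul_mk, smul_eq_mul, mem_prod, Real.closedBall_eq_Icc, mem_Icc]
    refine ⟨⟨?_, ?_⟩, ?_, ?_⟩ <;> nlinarith
  set ψ := φ.transHomeomorph (Homeomorph.smulOfNeZero (α := ℝ × ℝ) r⁻¹ hr') with hψ
  have e1 : ∀ y, ψ y = r⁻¹ • φ y := fun y => rfl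
  have e2 : ∀ z, ψ.symm z = φ.symm (r • z) := by
    intro z
    have : ψ.symm z = φ.symm ((r⁻¹)⁻¹ • z) := rfl
    rw [this, inv_inv]
  have e3 : ∀ z, z ∈ ψ.target ↔ r • z ∈ φ.target := by
    intro z
    have : z ∈ ψ.target ↔ (r⁻¹)⁻¹ • z ∈ φ.target := Iff.rfl
    rw [this, inv_inv]
  refine ⟨ψ, fun z hz => (e3 z).2 (hK z hz).1, rfl, ?_, ?_, fun y => ?_⟩
  · rw [e2, Prod.smul_mk, smul_zero]
    exact hsx
  · rintro _ ⟨z, hz, rfl⟩
    rw [e2]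
    exact (hK z hz).2
  · rw [e1]
    constructor <;> simp [hr.ne']

theorem p03_vertex (D : Drawing S n) {i j k l : Fin n} (hij : i ≠ j) (hkl : k ≠ l)
    (hD : Dj i j k l) {x : S} (h1 : x ∈ D.edge i j) (h2 : x ∈ D.edge k l) (m : Fin n) :
    x ≠ D.pt m := by
  rintro rfl
  have a : m = i ∨ m = j := by
    by_contra h
    push Not at h
    exact D.avoid i j m hij h.1 h.2 h1
  have b : m = k ∨ m = l := by
    by_contra h
    push Not at h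
    exact D.avoid k l m hkl h.1 h.2 h2
  obtain ⟨h3, h4, h5, h6⟩ := hD
  rcases a with rfl | rfl <;> rcases b with rfl | rfl <;> contradiction

theorem p03_adj (D : Drawing S n) {a b c d : Fin n} (hab : a ≠ b) (hcd : c ≠ d) {x : S}
    (hx : ∀ m, x ≠ D.pt m) (h1 : x ∈ D.edge a b) (h2 : x ∈ D.edge c d) :
    Dj a b c d ∨ (c = a ∧ d = b) ∨ (c = b ∧ d = a) := by
  by_cases hca : c = a
  · subst hca
    by_cases hdb : d = b
    · exact Or.inr (Or.inl ⟨rfl, hdb⟩)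
    · exact absurd ((D.adjacent c b d hab hcd (Ne.symm hdb)).subset ⟨h1, h2⟩) (hx c)
  by_cases hcb : c = b
  · subst hcb
    by_cases hda : d = a
    · exact Or.inr (Or.inr ⟨rfl, hda⟩)
    · rw [D.symm] at h1
      exact absurd ((D.adjacent c a d (Ne.symm hab) hcd (Ne.symm hda)).subset ⟨h1, h2⟩) (hx c)
  by_cases hda : d = a
  · subst hda
    rw [D.symm] at h2
    exact absurd ((D.adjacent d b c hab (Ne.symm hcd) (Ne.symm hcb)).subset ⟨h1, h2⟩) (hx d)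
  by_cases hdb : d = b
  · subst hdb
    rw [D.symm] at h1 h2
    exact absurd ((D.adjacent d a c (Ne.symm hab) (Ne.symm hcd) (Ne.symm hca)).subset
      ⟨h1, h2⟩) (hx d)
  exact Or.inl ⟨Ne.symm hca, Ne.symm hda, Ne.symm hcb, Ne.symm hdb⟩

theorem p03_third (D : Drawing S n) {i j k l u v : Fin n} (hij : i ≠ j) (hkl : k ≠ l)
    (hD : Dj i j k l) {x : S} (h1 : x ∈ D.edge i j) (h2 : x ∈ D.edge k l) (huv : u ≠ v)
    (h3 : x ∈ D.edge u v) :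
    (u = i ∧ v = j) ∨ (u = j ∧ v = i) ∨ (u = k ∧ v = l) ∨ (u = l ∧ v = k) := by
  have hx := p03_vertex D hij hkl hD h1 h2
  rcases p03_adj D hij huv hx h1 h3 with a | a | a
  · rcases p03_adj D hkl huv hx h2 h3 with b | b | b
    · have := D.noTriple i j k l u v hij hkl huv hD a b
      exact absurd (this.subset ⟨⟨h1, h2⟩, h3⟩) (notMem_empty x)
    · exact Or.inr (Or.inr (Or.inl b))
    · exact Or.inr (Or.inr (Or.inr b))
  · exact Or.inl a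
  · exact Or.inr (Or.inl a)

/-- All vertices and all edges except `v₀`, `v₁`. -/
def p03_F (D : Drawing S n) (v₀ v₁ : VD n) : Set S :=
  range D.pt ∪ ⋃ v ∈ {v : VD n | v ≠ v₀ ∧ v ≠ v₀.rev ∧ v ≠ v₁ ∧ v ≠ v₁.rev},
    D.edge v.1.1 v.1.2

theorem p03_closed [T2Space S] (D : Drawing S n) (v₀ v₁ : VD n) : IsClosed (p03_F D v₀ v₁) := by
  refine IsClosed.union (finite_range _).isClosed ?_
  refine (toFinite _).isClosed_biUnion fun v _ => ?_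
  exact (D.arc _ _ v.2).isCompact.isClosed

theorem p03_notMem (D : Drawing S n) {v₀ v₁ : VD n} (hD : Dj v₀.1.1 v₀.1.2 v₁.1.1 v₁.1.2) {x : S}
    (h1 : x ∈ D.edge v₀.1.1 v₀.1.2) (h2 : x ∈ D.edge v₁.1.1 v₁.1.2) : x ∉ p03_F D v₀ v₁ := by
  rintro (⟨m, hm⟩ | h)
  · exact p03_vertex D v₀.2 v₁.2 hD h1 h2 m hm.symm
  · simp only [mem_iUnion] at h
    obtain ⟨v, ⟨a, b, c, d⟩, h3⟩ := h
    rcases p03_third D v₀.2 v₁.2 hD h1 h2 v.2 h3 with e | e | e | e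
    · exact a (Subtype.ext (Prod.ext e.1 e.2))
    · exact b (Subtype.ext (Prod.ext e.1 e.2))
    · exact c (Subtype.ext (Prod.ext e.1 e.2))
    · exact d (Subtype.ext (Prod.ext e.1 e.2))

theorem p03_one [T2Space S] (D : Drawing S n) (x : D.crossings) {U : Set S} (hU : IsOpen U)
    (hxU : x.1 ∈ U) : ∃ (v₀ v₁ : VD n) (ψ : OpenPartialHomeomorph S (ℝ × ℝ)),
      Dj v₀.1.1 v₀.1.2 v₁.1.1 v₁.1.2 ∧ K2 ⊆ ψ.target ∧ ψ.symm (0, 0) = x.1 ∧
      ψ.symm '' K2 ⊆ U ∩ (p03_F D v₀ v₁)ᶜ ∧ ∀ y ∈ ψ.source,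
        (y ∈ D.edge v₀.1.1 v₀.1.2 ↔ (ψ y).2 = 0) ∧ (y ∈ D.edge v₁.1.1 v₁.1.2 ↔ (ψ y).1 = 0) := by
  obtain ⟨i, j, k, l, hij, hkl, hD, h1, h2⟩ := x.2
  obtain ⟨φ, hx, h0, hφ⟩ := D.cross i j k l hij hkl hD x.1 ⟨h1, h2⟩
  have hV : IsOpen (U ∩ (p03_F D ⟨(i, j), hij⟩ ⟨(k, l), hkl⟩)ᶜ) :=
    hU.inter (p03_closed D _ _).isOpen_compl
  obtain ⟨ψ, a, b, c, d, e⟩ := p03_local hx h0 hV ⟨hxU, p03_notMem D hD h1 h2⟩
  refine ⟨⟨(i, j), hij⟩, ⟨(k, l), hkl⟩, ψ, hD, a, c, d, fun y hy => ?_⟩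
  rw [b] at hy
  exact ⟨(hφ y hy).1.trans (e y).2.symm, (hφ y hy).2.trans (e y).1.symm⟩

theorem exists_boxData [T2Space S] (D : Drawing S n) : Nonempty (BoxData D) := by
  obtain ⟨U, hU, hUd⟩ := (crossings_finite D).t2_separation
  choose v₀ v₁ ψ hD hK h0 hsub hch using
    fun x : D.crossings => p03_one D x (hU x.1).2 (hU x.1).1
  refine ⟨BoxData.mk (Boxes.mk D.pt D.pt_inj ψ hK) rfl h0 ?_ ?_
    (fun x s => if s then v₁ x else v₀ x) ?_ ?_ ?_⟩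
  · intro x y hxy
    have hne : x.1 ≠ y.1 := fun h => hxy (Subtype.ext h)
    exact (hUd x.2 y.2 hne).mono (fun z hz => (hsub x hz).1) (fun z hz => (hsub y hz).1)
  · intro i x hx
    exact (hsub x hx).2 (Or.inl ⟨i, rfl⟩)
  · intro x
    simpa using hD x
  · intro x s y hy
    cases s
    · simpa using (hch x y hy).1
    · simpa using (hch x y hy).2
  · intro x v hv
    rw [disjoint_left]
    intro y hy hy'
    refine (hsub x hy).2 (Or.inr ?_)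
    simp only [mem_iUnion]
    exact ⟨v, ⟨by simpa using (hv false).1, by simpa using (hv false).2,
      by simpa using (hv true).1, by simpa using (hv true).2⟩, hy'⟩

end Pool.HexDraw
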