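import Pool.Agent.Lib.MP_8613e3_co_hex.PDefs

/-!
# P04: the net of a family of positions (pure order combinatorics, 60 min)

`Line.inj`: two darts on the same oriented edge with the same position are equal: a vertex dart
has position `0`, crossing darts have positive positions; two crossing darts `(x,s,d)`,
`(y,t,e)` with `(x,s) ≠ (y,t)` have disjoint boxes (`sep`, `box`), and if `(x,s) = (y,t)` then
`d = e` since `dir (x,s,!d) = (dir (x,s,d)).rev ≠ dir (x,s,d)`.
`exists_lineNet`: for a dart `h` consider the finite set of darts `g` with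
`ddir g = (ddir h).rev` and `dpos h < 1 - dpos g`; it contains `inl (ddir h).rev` (as `dpos h < 1`);
let `flip h` be an element for which `1 - dpos g` is minimal. `gap`: let `c = (x,s,d)`,
`dir c = ddir h`, `inr c ≠ h`. If `h = inl v`: `1 - pos (x,s,!d) > 0`, so `inr (x,s,!d)` is a
candidate, and by minimality `1 - dpos (flip h) ≤ 1 - pos (x,s,!d)`, with equality only if
`flip h = inr (x,s,!d)` (`Line.inj`). If `h = inr (y,t,e)`, then `(y,t) ≠ (x,s)` and by `sep`
either `pos c < 1 - pos (y,t,!e) < pos (y,t,e) = dpos h`, or
`dpos h < 1 - pos (x,s,!d)`, and `inr (x,s,!d)` is a candidate as before.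
`flip (flip h) = h`: `h` is a candidate for `flip h` (`1 - (1 - dpos ..)`: the condition
`dpos (flip h) < 1 - dpos h` is the same as `dpos h < 1 - dpos (flip h)`). Let `g = flip (flip h)`,
so `ddir g = ddir h` and `1 - dpos g ≤ 1 - dpos h`, i.e. `dpos h ≤ dpos g < 1 - dpos (flip h)`; if
`g ≠ h` then `dpos h < dpos g` by `Line.inj`, so `g = inr c` is a crossing dart and `gap` for `h`
and `c` gives a contradiction in each of its cases (if `inr (x,s,!d) = flip h` then
`1 - dpos (flip h) = 1 - pos (x,s,!d) < pos (x,s,d) = dpos g`).
`flip_ne`: `ddir (flip h) = (ddir h).rev ≠ ddir h`.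
-/

namespace Pool.HexDraw

open Set

variable {n : ℕ} {X : Type}

theorem VD.rev_rev (v : VD n) : v.rev.rev = v := by
  apply Subtype.ext
  rfl

theorem VD.rev_ne (v : VD n) : v.rev ≠ v := by
  intro h
  have h1 : v.1.2 = v.1.1 := congrArg (fun u : VD n => u.1.1) h
  exact v.2 h1.symm

theorem Line.inj (L : Line n X) {g h : Dart n X} (h1 : L.ddir g = L.ddir h)
    (h2 : L.dpos g = L.dpos h) : g = h := by
  rcases g with v | ⟨x, s, d⟩
  · rcases h with w | c
    · exact congrArg Sum.inl h1
    · exact absurd h2 (ne_of_lt (L.pos_pos c))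
  · rcases h with w | ⟨y, t, e⟩
    · exact absurd h2 (ne_of_gt (L.pos_pos _))
    · change L.dir (x, s, d) = L.dir (y, t, e) at h1
      change L.pos (x, s, d) = L.pos (y, t, e) at h2
      by_cases hxs : (x, s) = (y, t)
      · obtain ⟨hx, hs⟩ := Prod.mk.inj hxs
        subst hx
        subst hs
        have hde : d = e := by
          by_contra hde
          have hd : e = !d := by cases d <;> cases e <;> simp_all
          subst hd
          rw [L.dir_opp] at h1
          exact VD.rev_ne _ h1.symm
        subst hde
        rfl
      · exfalso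
        have b1 := L.box x s d
        have b2 := L.box y t e
        rcases L.sep x s d y t e h1 hxs with h3 | h3 <;> linarith

theorem p04_dpos_lt (L : Line n X) (h : Dart n X) : L.dpos h < 1 := by
  rcases h with v | c
  · exact one_pos
  · exact L.pos_lt c

theorem p04_dpos_nonneg (L : Line n X) (h : Dart n X) : 0 ≤ L.dpos h := by
  rcases h with v | c
  · exact le_refl _
  · exact (L.pos_pos c).le

theorem exists_lineNet [Finite X] (L : Line n X) : Nonempty (LineNet L) := by
  have hex : ∀ h : Dart n X, ∃ g : Dart n X, (L.ddir g = (L.ddir h).rev ∧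
      L.dpos h < 1 - L.dpos g) ∧ ∀ g' : Dart n X, (L.ddir g' = (L.ddir h).rev ∧
      L.dpos h < 1 - L.dpos g') → L.dpos g' ≤ L.dpos g := by
    intro h
    have hne : {g : Dart n X | L.ddir g = (L.ddir h).rev ∧
        L.dpos h < 1 - L.dpos g}.Nonempty := by
      refine ⟨Sum.inl (L.ddir h).rev, rfl, ?_⟩
      change L.dpos h < 1 - 0
      rw [sub_zero]
      exact p04_dpos_lt L h
    obtain ⟨g, hg, hg2⟩ := Set.exists_max_image _ L.dpos (Set.toFinite _) hne
    exact ⟨g, hg, fun g' hg' => hg2 g' hg'⟩
  choose F hF hmax using hex
  have hgap : ∀ h x s d, L.dir (x, s, d) = L.ddir h → Sum.inr (x, s, d) = h ∨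
      Sum.inr (x, s, !d) = F h ∨ L.pos (x, s, d) < L.dpos h ∨
      1 - L.dpos (F h) < 1 - L.pos (x, s, !d) := by
    intro h x s d hdir
    -- the candidate step
    have cand : L.dpos h < 1 - L.pos (x, s, !d) → Sum.inr (x, s, !d) = F h ∨
        1 - L.dpos (F h) < 1 - L.pos (x, s, !d) := by
      intro hlt
      have hd2 : L.ddir (Sum.inr (x, s, !d)) = (L.ddir h).rev := by
        change L.dir (x, s, !d) = _
        rw [L.dir_opp, hdir]
      have hle := hmax h (Sum.inr (x, s, !d)) ⟨hd2, hlt⟩
      rcases eq_or_lt_of_le hle with heq | hl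
      · left
        exact L.inj (hd2.trans (hF h).1.symm) heq
      · right
        change L.pos (x, s, !d) < L.dpos (F h) at hl
        linarith
    by_cases hh : Sum.inr (x, s, d) = h
    · exact Or.inl hh
    right
    rcases h with v | ⟨y, t, e⟩
    · have hlt : L.dpos (Sum.inl v : Dart n X) < 1 - L.pos (x, s, !d) := by
        change (0 : ℝ) < 1 - L.pos (x, s, !d)
        have := L.pos_lt (x, s, !d)
        linarith
      rcases cand hlt with h1 | h1
      · exact Or.inl h1
      · exact Or.inr (Or.inr h1)
    · change L.dir (x, s, d) = L.dir (y, t, e) at hdir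
      have hxs : (x, s) ≠ (y, t) := by
        intro hxs
        obtain ⟨hx, hs⟩ := Prod.mk.inj hxs
        subst hx
        subst hs
        apply hh
        have hde : d = e := by
          by_contra hde
          have hd : e = !d := by cases d <;> cases e <;> simp_all
          subst hd
          rw [L.dir_opp] at hdir
          exact VD.rev_ne _ hdir.symm
        subst hde
        rfl
      have b2 := L.box y t e
      rcases L.sep x s d y t e hdir hxs with h3 | h3
      · right
        left
        change L.pos (x, s, d) < L.pos (y, t, e)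
        linarith
      · rcases cand h3 with h1 | h1
        · exact Or.inl h1
        · exact Or.inr (Or.inr h1)
  have hff : ∀ h, F (F h) = h := by
    intro h
    have hdd : L.ddir (F (F h)) = L.ddir h := by
      rw [(hF (F h)).1, (hF h).1, VD.rev_rev]
    have hc : L.dpos h ≤ L.dpos (F (F h)) := by
      apply hmax (F h) h
      refine ⟨?_, ?_⟩
      · rw [(hF h).1, VD.rev_rev]
      · have := (hF h).2
        linarith
    have hlt := (hF (F h)).2
    rcases eq_or_lt_of_le hc with heq | hl
    · exact (L.inj hdd.symm heq).symm
    · exfalso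
      rcases hg : F (F h) with v | ⟨x, s, d⟩
      · rw [hg] at hl
        have := p04_dpos_nonneg L h
        change L.dpos h < 0 at hl
        linarith
      · rw [hg] at hl hdd hlt
        change L.dpos h < L.pos (x, s, d) at hl
        change L.dpos (F h) < 1 - L.pos (x, s, d) at hlt
        change L.dir (x, s, d) = L.ddir h at hdd
        have hb := L.box x s d
        rcases hgap h x s d hdd with h1 | h1 | h1 | h1
        · rw [← h1] at hl
          exact lt_irrefl _ hl
        · rw [← h1] at hlt
          change L.pos (x, s, !d) < 1 - L.pos (x, s, d) at hlt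
          linarith
        · linarith
        · linarith
  refine ⟨{ flip := F, flip_flip := hff, flip_ne := ?_, ddir_flip := fun h => (hF h).1, dpos_flip := fun h => (hF h).2, gap := hgap }⟩
  intro h hh
  have h1 := (hF h).1
  rw [hh] at h1
  exact VD.rev_ne _ h1.symm

end Pool.HexDraw
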