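import Pool.Agent.Lib.MP_8613e3_co_hex.P02
import Pool.Agent.Lib.MP_8613e3_co_hex.P03
import Pool.Agent.Lib.MP_8613e3_co_hex.P04

/-!
# P06: positions of the darts of a drawing
-/

namespace Pool.HexDraw

open Set

variable {S : Type} [TopologicalSpace S] {n : ℕ}

theorem p06_param (D : Drawing S n) : ∃ γ : VD n → ℝ → S,
    (∀ v : VD n, Param (γ v) (D.pt v.1.1) (D.pt v.1.2) (D.edge v.1.1 v.1.2)) ∧
    ∀ (v : VD n) t, γ v.rev t = γ v (1 - t) := by
  choose g hg using fun v : VD n => D.arc v.1.1 v.1.2 v.2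
  refine ⟨fun v => if v.1.1 < v.1.2 then g v else fun t => g v.rev (1 - t), fun v => ?_,
    fun v t => ?_⟩
  · by_cases h : v.1.1 < v.1.2
    · simp only [h, if_true]
      exact hg v
    · simp only [h, if_false]
      have := (hg v.rev).symm
      rw [D.symm]
      exact this
  · by_cases h : v.1.1 < v.1.2
    · have h' : ¬ v.rev.1.1 < v.rev.1.2 := by
        change ¬ v.1.2 < v.1.1
        exact not_lt.2 h.le
      simp only [h, h', if_true, if_false]
      rw [VD.rev_rev]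
    · have h' : v.rev.1.1 < v.rev.1.2 := by
        change v.1.2 < v.1.1
        exact lt_of_le_of_ne (not_lt.1 h) (Ne.symm v.2)
      simp only [h, h', if_true, if_false]
      rw [sub_sub_cancel]

theorem p06_st (n : ℕ) {v w : VD n} (h : Dj v.1.1 v.1.2 w.1.1 w.1.2) : v ≠ w ∧ v ≠ w.rev := by
  obtain ⟨h1, h2, h3, h4⟩ := h
  refine ⟨fun e => h1 (by rw [e]), fun e => h2 (by rw [e]; rfl)⟩

theorem exists_geo [T2Space S] (D : Drawing S n) : Nonempty (Geo D) := by
  obtain ⟨B⟩ := exists_boxData D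
  obtain ⟨γ, hγ, hrev⟩ := p06_param D
  have hpt : ∀ i x, D.pt i ∉ (B.chart x).symm '' K2 := by
    intro i x h
    exact B.pt_box i x (by rw [B.pt_eq]; exact h)
  choose a t b d₀ ha hat htb hb ht hga hgb hbox using fun (x : D.crossings) (s : Bool) =>
    box_interval (hγ (B.st x s)) (B.chart x) (B.sub x) s (fun y hy => B.st_chart x s y hy)
      (hpt _ x) (hpt _ x)
  let dir : CD D.crossings → VD n := fun c =>
    if c.2.2 = d₀ c.1 c.2.1 then B.st c.1 c.2.1 else (B.st c.1 c.2.1).rev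
  let pos : CD D.crossings → ℝ := fun c =>
    if c.2.2 = d₀ c.1 c.2.1 then b c.1 c.2.1 else 1 - a c.1 c.2.1
  have hdir : ∀ x s d, dir (x, s, d) = B.st x s ∨ dir (x, s, d) = (B.st x s).rev := by
    intro x s d
    by_cases h : d = d₀ x s
    · exact Or.inl (if_pos h)
    · exact Or.inr (if_neg h)
  have key : ∀ x s d, (d = d₀ x s ∧ dir (x, s, d) = B.st x s ∧ dir (x, s, !d) = (B.st x s).rev ∧
      pos (x, s, d) = b x s ∧ pos (x, s, !d) = 1 - a x s) ∨
      ((!d) = d₀ x s ∧ dir (x, s, d) = (B.st x s).rev ∧ dir (x, s, !d) = B.st x s ∧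
      pos (x, s, d) = 1 - a x s ∧ pos (x, s, !d) = b x s) := by
    intro x s d
    by_cases h : d = d₀ x s
    · have h' : ¬ (!d) = d₀ x s := by rw [← h]; cases d <;> simp
      exact Or.inl ⟨h, if_pos h, if_neg h', if_pos h, if_neg h'⟩
    · have h' : (!d) = d₀ x s := by
        cases d <;> cases hd : d₀ x s <;> simp_all
      exact Or.inr ⟨h', if_neg h, if_pos h', if_neg h, if_pos h'⟩
  have hmem : ∀ x s d, ∀ u ∈ Icc (0 : ℝ) 1, (γ (dir (x, s, d)) u ∈ B.toBoxes.box x ↔
      u ∈ Icc (1 - pos (x, s, !d)) (pos (x, s, d))) := by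
    intro x s d u hu
    rcases key x s d with ⟨-, h1, -, h3, h4⟩ | ⟨-, h1, -, h3, h4⟩
    · rw [h1, h3, h4, sub_sub_cancel]
      exact hbox x s u hu
    · rw [h1, h3, h4, hrev]
      have hu' : 1 - u ∈ Icc (0 : ℝ) 1 := ⟨by linarith [hu.2], by linarith [hu.1]⟩
      refine (hbox x s (1 - u) hu').trans ?_
      simp only [mem_Icc]
      constructor
      · rintro ⟨h5, h6⟩
        exact ⟨by linarith, by linarith⟩
      · rintro ⟨h5, h6⟩
        exact ⟨by linarith, by linarith⟩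
  have hpp : ∀ c, 0 < pos c ∧ pos c < 1 := by
    rintro ⟨x, s, d⟩
    have h1 := ha x s
    have h2 := hat x s
    have h3 := htb x s
    have h4 := hb x s
    rcases key x s d with ⟨-, -, -, h5, -⟩ | ⟨-, -, -, h5, -⟩ <;> rw [h5] <;>
      constructor <;> linarith
  have hbx : ∀ x s d, 1 - pos (x, s, !d) < pos (x, s, d) := by
    intro x s d
    have h2 := hat x s
    have h3 := htb x s
    rcases key x s d with ⟨-, -, -, h5, h6⟩ | ⟨-, -, -, h5, h6⟩ <;> rw [h5, h6] <;> linarith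
  have hsep : ∀ x s d y t e, dir (x, s, d) = dir (y, t, e) → (x, s) ≠ (y, t) →
      pos (x, s, d) < 1 - pos (y, t, !e) ∨ pos (y, t, e) < 1 - pos (x, s, !d) := by
    intro x s d y r e hd hne
    have hxy : x ≠ y := by
      rintro rfl
      have hsr : s ≠ r := fun h => hne (by rw [h])
      have h2 : Dj (B.st x s).1.1 (B.st x s).1.2 (B.st x r).1.1 (B.st x r).1.2 := by
        obtain ⟨g1, g2, g3, g4⟩ := B.st_disj x
        cases s <;> cases r
        · exact absurd rfl hsr
        · exact ⟨g1, g2, g3, g4⟩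
        · exact ⟨Ne.symm g1, Ne.symm g3, Ne.symm g2, Ne.symm g4⟩
        · exact absurd rfl hsr
      obtain ⟨h3, h4⟩ := p06_st n h2
      rcases hdir x s d with h5 | h5 <;> rcases hdir x r e with h6 | h6 <;> rw [h5, h6] at hd
      · exact h3 hd
      · exact h4 hd
      · exact h4 (by rw [← hd, VD.rev_rev])
      · exact h3 (by rw [← VD.rev_rev (B.st x s), hd, VD.rev_rev])
    by_contra hcon
    push Not at hcon
    obtain ⟨h1, h2⟩ := hcon
    have h3 := hbx x s d
    have h4 := hbx y r e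
    set u := max (1 - pos (x, s, !d)) (1 - pos (y, r, !e)) with hu
    have hu1 : u ∈ Icc (1 - pos (x, s, !d)) (pos (x, s, d)) :=
      ⟨le_max_left _ _, max_le h3.le h1⟩
    have hu2 : u ∈ Icc (1 - pos (y, r, !e)) (pos (y, r, e)) :=
      ⟨le_max_right _ _, max_le h2 h4.le⟩
    have hu0 : u ∈ Icc (0 : ℝ) 1 := by
      refine ⟨?_, ?_⟩
      · have := (hpp (x, s, !d)).2
        linarith [hu1.1]
      · have := (hpp (x, s, d)).2
        linarith [hu1.2]
    have h5 := (hmem x s d u hu0).2 hu1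
    have h6 := (hmem y r e u hu0).2 hu2
    rw [hd] at h5
    exact (disjoint_left.1 (B.disj x y hxy)) h5 h6
  have hopp : ∀ x s d, dir (x, s, !d) = (dir (x, s, d)).rev := by
    intro x s d
    rcases key x s d with ⟨-, h1, h2, -, -⟩ | ⟨-, h1, h2, -, -⟩ <;> rw [h1, h2]
    rw [VD.rev_rev]
  refine ⟨Geo.mk B (Line.mk dir pos hopp (fun c => (hpp c).1) (fun c => (hpp c).2) hbx hsep)
    γ hγ hrev ?_ hmem ?_ hdir⟩
  · rintro ⟨x, s, d⟩
    change γ (dir (x, s, d)) (pos (x, s, d)) = (B.chart x).symm (dv s d)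
    rcases key x s d with ⟨h0, h1, -, h3, -⟩ | ⟨h0, h1, -, h3, -⟩
    · rw [h1, h3, hgb, h0]
    · rw [h1, h3, hrev, sub_sub_cancel, hga, ← h0, Bool.not_not]
  · intro x s d
    have h2 := hat x s
    have h3 := htb x s
    change ∃ t ∈ Ioo (1 - pos (x, s, !d)) (pos (x, s, d)), γ (dir (x, s, d)) t = x.1
    rcases key x s d with ⟨-, h1, -, h5, h6⟩ | ⟨-, h1, -, h5, h6⟩
    · refine ⟨t x s, ⟨by rw [h6]; linarith, by rw [h5]; linarith⟩, ?_⟩
      rw [h1, ht]
      exact B.centre x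
    · refine ⟨1 - t x s, ⟨by rw [h6]; linarith, by rw [h5]; linarith⟩, ?_⟩
      rw [h1, hrev, sub_sub_cancel, ht]
      exact B.centre x

end Pool.HexDraw
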