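import Pool.Agent.Lib.MP_8613e3_co_hex.Defs

/-!
# R02: basic facts on arcs (50 min)

`symm`: `t ↦ γ (1 - t)`. `append`: `t ↦ γ₁ (2 t)` for `t ≤ 1/2`, `γ₂ (2 t - 1)` for `t ≥ 1/2`
(`ContinuousOn.if` / `ContinuousOn.union_continuousAt`-style gluing on two closed intervals,
injectivity by cases with `A ∩ B ⊆ {q}`); `append_before` is the same parametrisation: `x` is a
point of the first part different from `q`, or `x = q` ... it is enough that `x ∈ A`, `x ≠ q` and
`y ∈ B`. `Param.sub`: `t ↦ γ (a + t (b - a))`.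
-/

namespace Pool.HexDraw

open Set

variable {S : Type} [TopologicalSpace S] {S' : Type} [TopologicalSpace S']

theorem Param.symm {γ : ℝ → S} {p q : S} {A : Set S} (h : Param γ p q A) :
    Param (fun t => γ (1 - t)) q p A := by
  obtain ⟨hc, hi, h0, h1, hA⟩ := h
  have hmaps : MapsTo (fun t : ℝ => 1 - t) (Icc 0 1) (Icc 0 1) := by
    intro t ht
    simp only [mem_Icc] at ht ⊢
    constructor <;> linarith [ht.1, ht.2]
  refine ⟨?_, ?_, ?_, ?_, ?_⟩
  · exact hc.comp (by fun_prop) hmaps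
  · intro s hs t ht hst
    have := hi (hmaps hs) (hmaps ht) hst
    simp only at this
    linarith
  · simpa using h1
  · simpa using h0
  · rw [← hA]
    ext x
    constructor
    · rintro ⟨t, ht, rfl⟩
      exact ⟨1 - t, hmaps ht, rfl⟩
    · rintro ⟨t, ht, rfl⟩
      exact ⟨1 - t, hmaps ht, by simp⟩

theorem IsArc.symm {p q : S} {A : Set S} (h : IsArc p q A) : IsArc q p A := by
  obtain ⟨γ, h⟩ := h
  exact ⟨_, h.symm⟩

theorem IsArc.left_mem {p q : S} {A : Set S} (h : IsArc p q A) : p ∈ A := by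
  obtain ⟨γ, hc, hi, h0, h1, hA⟩ := h
  rw [← hA, ← h0]
  exact ⟨0, by simp, rfl⟩

theorem IsArc.right_mem {p q : S} {A : Set S} (h : IsArc p q A) : q ∈ A := h.symm.left_mem

theorem IsArc.ne {p q : S} {A : Set S} (h : IsArc p q A) : p ≠ q := by
  obtain ⟨γ, hc, hi, h0, h1, hA⟩ := h
  intro hpq
  have := hi (show (0 : ℝ) ∈ Icc 0 1 by simp) (show (1 : ℝ) ∈ Icc 0 1 by simp)
    (by rw [h0, h1, hpq])
  norm_num at this

theorem IsArc.isCompact {p q : S} {A : Set S} (h : IsArc p q A) : IsCompact A := by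
  obtain ⟨γ, hc, hi, h0, h1, hA⟩ := h
  rw [← hA]
  exact isCompact_Icc.image_of_continuousOn hc

theorem Param.sub {γ : ℝ → S} {p q : S} {A : Set S} (h : Param γ p q A) {a b : ℝ} (ha : 0 ≤ a)
    (hab : a < b) (hb : b ≤ 1) : IsArc (γ a) (γ b) (γ '' Icc a b) := by
  obtain ⟨hc, hi, h0, h1, hA⟩ := h
  have hmaps : MapsTo (fun t : ℝ => a + t * (b - a)) (Icc 0 1) (Icc a b) := by
    intro t ht
    simp only [mem_Icc] at ht ⊢
    constructor <;> nlinarith [ht.1, ht.2]
  have hsub : Icc a b ⊆ Icc 0 1 := Icc_subset_Icc ha hb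
  refine ⟨fun t => γ (a + t * (b - a)), ?_, ?_, ?_, ?_, ?_⟩
  · exact (hc.mono hsub).comp (by fun_prop) hmaps
  · intro s hs t ht hst
    have := hi (hsub (hmaps hs)) (hsub (hmaps ht)) hst
    simp only at this
    have h2 : (s - t) * (b - a) = 0 := by linarith
    rcases mul_eq_zero.1 h2 with h3 | h3
    · linarith
    · linarith
  · simp
  · simp
  · ext x
    constructor
    · rintro ⟨t, ht, rfl⟩
      exact ⟨_, hmaps ht, rfl⟩
    · rintro ⟨t, ht, rfl⟩
      have hba : 0 < b - a := by linarith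
      refine ⟨(t - a) / (b - a), ⟨div_nonneg (by linarith [ht.1]) hba.le, ?_⟩, ?_⟩
      · rw [div_le_one hba]
        linarith [ht.2]
      · simp only
        congr 1
        field_simp
        ring

/-- the glued parametrisation -/
theorem r02_append {γ₁ γ₂ : ℝ → S} {p q r : S} {A B : Set S} (hA : Param γ₁ p q A)
    (hB : Param γ₂ q r B) (h : A ∩ B ⊆ {q}) :
    Param (fun t => if t ≤ 1 / 2 then γ₁ (2 * t) else γ₂ (2 * t - 1)) p r (A ∪ B) := by
  obtain ⟨hc, hi, h0, h1, hA⟩ := hA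
  obtain ⟨hc', hi', h0', h1', hB⟩ := hB
  have m1 : MapsTo (fun t : ℝ => 2 * t) (Icc 0 (1 / 2)) (Icc 0 1) := by
    intro t ht
    simp only [mem_Icc] at ht ⊢
    constructor <;> linarith [ht.1, ht.2]
  have m2 : MapsTo (fun t : ℝ => 2 * t - 1) (Icc (1 / 2) 1) (Icc 0 1) := by
    intro t ht
    simp only [mem_Icc] at ht ⊢
    constructor <;> linarith [ht.1, ht.2]
  have e1 : ∀ t ∈ Icc (0 : ℝ) (1 / 2),
      (if t ≤ 1 / 2 then γ₁ (2 * t) else γ₂ (2 * t - 1)) = γ₁ (2 * t) := by
    intro t ht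
    rw [if_pos ht.2]
  have e2 : ∀ t ∈ Icc (1 / 2 : ℝ) 1,
      (if t ≤ 1 / 2 then γ₁ (2 * t) else γ₂ (2 * t - 1)) = γ₂ (2 * t - 1) := by
    intro t ht
    split_ifs with h2
    · have : t = 1 / 2 := le_antisymm h2 ht.1
      subst this
      norm_num
      rw [h1, h0']
    · rfl
  have hu : Icc (0 : ℝ) 1 = Icc 0 (1 / 2) ∪ Icc (1 / 2) 1 := by
    rw [Icc_union_Icc_eq_Icc] <;> norm_num
  -- a point of the first half and a point of the second half with the same image
  have key : ∀ s ∈ Icc (0 : ℝ) (1 / 2), ∀ t ∈ Icc (1 / 2 : ℝ) 1, γ₁ (2 * s) = γ₂ (2 * t - 1) →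
      s = t := by
    intro s hs t ht hst
    have hq : γ₁ (2 * s) = q := by
      have : γ₁ (2 * s) ∈ A ∩ B := by
        refine ⟨?_, ?_⟩
        · rw [← hA]
          exact ⟨_, m1 hs, rfl⟩
        · rw [← hB, hst]
          exact ⟨_, m2 ht, rfl⟩
      exact h this
    have h2 : 2 * s = 1 := hi (m1 hs) (by simp) (by rw [hq, h1])
    have h3 : 2 * t - 1 = 0 := hi' (m2 ht) (by simp) (by rw [← hst, hq, h0'])
    linarith
  refine ⟨?_, ?_, ?_, ?_, ?_⟩
  · rw [hu]
    apply ContinuousOn.union_of_isClosed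
    · exact (hc.comp (by fun_prop) m1).congr e1
    · exact (hc'.comp (by fun_prop) m2).congr e2
    · exact isClosed_Icc
    · exact isClosed_Icc
  · rw [hu]
    rintro s (hs | hs) t (ht | ht) hst
    · simp only at hst
      rw [e1 s hs, e1 t ht] at hst
      have := hi (m1 hs) (m1 ht) hst
      simp only at this
      linarith
    · simp only at hst
      rw [e1 s hs, e2 t ht] at hst
      exact key s hs t ht hst
    · simp only at hst
      rw [e2 s hs, e1 t ht] at hst
      exact (key t ht s hs hst.symm).symm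
    · simp only at hst
      rw [e2 s hs, e2 t ht] at hst
      have := hi' (m2 hs) (m2 ht) hst
      simp only at this
      linarith
  · have := e1 0 (by norm_num)
    simp only at this ⊢
    rw [this]
    simpa using h0
  · have := e2 1 (by norm_num)
    simp only at this ⊢
    rw [this]
    norm_num
    exact h1'
  · rw [hu, image_union]
    congr 1
    · rw [← hA]
      ext x
      constructor
      · rintro ⟨t, ht, rfl⟩
        simp only
        rw [e1 t ht]
        exact ⟨_, m1 ht, rfl⟩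
      · rintro ⟨t, ht, rfl⟩
        refine ⟨t / 2, ⟨by linarith [ht.1], by linarith [ht.2]⟩, ?_⟩
        simp only
        rw [e1 _ ⟨by linarith [ht.1], by linarith [ht.2]⟩]
        congr 1
        ring
    · rw [← hB]
      ext x
      constructor
      · rintro ⟨t, ht, rfl⟩
        simp only
        rw [e2 t ht]
        exact ⟨_, m2 ht, rfl⟩
      · rintro ⟨t, ht, rfl⟩
        refine ⟨(t + 1) / 2, ⟨by linarith [ht.1], by linarith [ht.2]⟩, ?_⟩
        simp only
        rw [e2 _ ⟨by linarith [ht.1], by linarith [ht.2]⟩]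
        congr 1
        ring

theorem IsArc.append {p q r : S} {A B : Set S} (hA : IsArc p q A) (hB : IsArc q r B)
    (h : A ∩ B ⊆ {q}) : IsArc p r (A ∪ B) := by
  obtain ⟨γ₁, h1⟩ := hA
  obtain ⟨γ₂, h2⟩ := hB
  exact ⟨_, r02_append h1 h2 h⟩

theorem append_before {p q r : S} {A B : Set S} (hA : IsArc p q A) (hB : IsArc q r B)
    (h : A ∩ B ⊆ {q}) {x y : S} (hx : x ∈ A) (hxq : x ≠ q) (hy : y ∈ B) :
    Before (A ∪ B) p x y := by
  obtain ⟨γ₁, h1⟩ := hA
  obtain ⟨γ₂, h2⟩ := hB
  refine ⟨r, _, r02_append h1 h2 h, ?_⟩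
  obtain ⟨hc, hi, h0, h11, hA⟩ := h1
  obtain ⟨hc', hi', h0', h1', hB⟩ := h2
  rw [← hA] at hx
  rw [← hB] at hy
  obtain ⟨s, hs, rfl⟩ := hx
  obtain ⟨t, ht, rfl⟩ := hy
  have hs1 : s < 1 := by
    rcases lt_or_eq_of_le hs.2 with h | h
    · exact h
    · exact absurd (by rw [h, h11]) hxq
  refine ⟨s / 2, (t + 1) / 2, by linarith [hs.1], by linarith [ht.1], by linarith [ht.2], ?_, ?_⟩
  · rw [if_pos (by linarith)]
    congr 1
    ring
  · split_ifs with h3
    · have h4 : t = 0 := by linarith [ht.1]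
      subst h4
      norm_num
      rw [h11, h0']
    · congr 1
      ring

theorem Param.image {γ : ℝ → S} {p q : S} {A : Set S} (h : Param γ p q A) {f : S → S'}
    (hf : ContinuousOn f A) (hi : InjOn f A) : Param (f ∘ γ) (f p) (f q) (f '' A) := by
  obtain ⟨hc, hi', h0, h1, hA⟩ := h
  have hm : MapsTo γ (Icc 0 1) A := by
    intro t ht
    rw [← hA]
    exact ⟨t, ht, rfl⟩
  refine ⟨hf.comp hc hm, hi.comp hi' hm, ?_, ?_, ?_⟩
  · simp [h0]
  · simp [h1]
  · rw [image_comp, hA]

theorem IsArc.image {p q : S} {A : Set S} (h : IsArc p q A) {f : S → S'}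
    (hf : ContinuousOn f A) (hi : InjOn f A) : IsArc (f p) (f q) (f '' A) := by
  obtain ⟨γ, h⟩ := h
  exact ⟨_, h.image hf hi⟩

theorem Before.image {p x y : S} {A : Set S} (h : Before A p x y) {f : S → S'}
    (hf : ContinuousOn f A) (hi : InjOn f A) : Before (f '' A) (f p) (f x) (f y) := by
  obtain ⟨q, γ, h, s, t, h0, hst, h1, rfl, rfl⟩ := h
  exact ⟨f q, _, h.image hf hi, s, t, h0, hst, h1, rfl, rfl⟩

theorem isArc_segment {p q : ℝ × ℝ} (h : p ≠ q) : IsArc p q (segment ℝ p q) := by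
  refine ⟨fun t => p + t • (q - p), ?_, ?_, ?_, ?_, ?_⟩
  · fun_prop
  · intro s _ t _ hst
    simp only at hst
    have h1 : (s - t) • (q - p) = 0 := by
      rw [sub_smul, sub_eq_zero]
      exact add_left_cancel hst
    rcases smul_eq_zero.1 h1 with h2 | h2
    · linarith
    · exact absurd (sub_eq_zero.1 h2).symm h
  · simp
  · simp
  · rw [segment_eq_image']

end Pool.HexDraw
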