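import Pool.Agent.Lib.MP_8613e3_co_hex.PDefs
import Pool.Agent.Lib.MP_8613e3_co_hex.P04
import Pool.Agent.Lib.MP_8613e3_co_hex.R02

/-!
# P07: the topological net of a drawing (75 min)

`toBoxes := G.B.toBoxes`, `toNet := M.toNet`,
`seg h := G.γ (ddir h) '' Icc (dpos h) (1 - dpos (flip h))`.
First: `G.γ (ddir h) (dpos h) = bp h` for all darts (`pos_eq`, `param`, `pt_eq`) and
`G.γ (ddir h) (1 - dpos (flip h)) = bp (flip h)` (`rev`, `ddir_flip`).
`seg_flip`: `u ↦ 1 - u` maps one interval to the other. `seg_arc`: `Param.sub`.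
`seg_box`: let `y = γ (ddir h) u`, `dpos h ≤ u ≤ 1 - dpos (flip h)`, be in the box of `x`. By
`edge_box` the edge `ddir h` is `st x s` or its reverse for some `s`, so `dir (x,s,d) = ddir h`
for some `d` (`dir_st`, `dir_opp`). By `mem_box` `1 - pos (x,s,!d) ≤ u ≤ pos (x,s,d)`. Now `gap`:
if `inr (x,s,d) = h` then `u = dpos h`, `y = bp h`; if `inr (x,s,!d) = flip h` then
`u = 1 - dpos (flip h)`, `y = bp (flip h)`; the other two cases are impossible.
`seg_pt`: a vertex on the edge `ddir h` is one of its ends (`D.avoid`), so `u = 0` or `u = 1` by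
injectivity, so `dpos h = 0` or `dpos (flip h) = 0`, and a dart with position `0` is a vertex dart.
`seg_seg`: let `y = γ (ddir h) u = γ (ddir h') u'`. If the edges `ddir h`, `ddir h'` are different
and share a vertex, `y` is that vertex (`D.adjacent`). If they are disjoint, `y = x.1` for a
crossing `x`; `y` is in the box of `x`, so by `seg_box` `y = bp (inr c)` with `c.1 = x`, which is
`(chart x).symm (dv ..) ≠ (chart x).symm (0,0) = x.1` (`centre`). If
`ddir h' = ddir h` or `ddir h' = (ddir h).rev`, replace `h'` by `flip h'` in the second case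
(`seg_flip`); so `ddir h' = ddir h` and `u = u'`. If `h ≠ h'`, then `dpos h ≠ dpos h'`
(`Line.inj`), by symmetry `dpos h < dpos h'`, so `h' = inr (x,s,d)` and `gap` for `h` shows
`1 - dpos (flip h) < dpos h'`, a contradiction to `dpos h' ≤ u ≤ 1 - dpos (flip h)`.
-/

namespace Pool.HexDraw

open Set

variable {S : Type} [TopologicalSpace S] {n : ℕ}

variable {D : Drawing S n}

theorem p07_bp (G : Geo D) (h : Dart n D.crossings) :
    G.γ (G.L.ddir h) (G.L.dpos h) = G.B.toBoxes.bp h := by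
  cases h with
  | inl v =>
    have h1 : G.γ v 0 = D.pt v.1.1 := (G.param v).2.2.1
    have h2 : G.B.toBoxes.bp (Sum.inl v) = G.B.pt v.1.1 := rfl
    rw [h2, G.B.pt_eq]
    exact h1
  | inr c => exact G.pos_eq c

theorem p07_bp' (G : Geo D) (M : LineNet G.L) (h : Dart n D.crossings) :
    G.γ (G.L.ddir h) (1 - G.L.dpos (M.flip h)) = G.B.toBoxes.bp (M.flip h) := by
  have h1 := p07_bp G (M.flip h)
  rw [M.ddir_flip, G.rev] at h1
  exact h1

theorem p07_nonneg (L : Line n D.crossings) (h : Dart n D.crossings) : 0 ≤ L.dpos h := by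
  cases h with
  | inl v => exact le_refl _
  | inr c => exact (L.pos_pos c).le

theorem p07_zero (L : Line n D.crossings) (h : Dart n D.crossings) (h0 : L.dpos h ≤ 0) :
    h = Sum.inl (L.ddir h) := by
  cases h with
  | inl v => rfl
  | inr c => exact absurd h0 (not_le.2 (L.pos_pos c))

/-- the pieces of the edges -/
def p07_seg (G : Geo D) (M : LineNet G.L) (h : Dart n D.crossings) : Set S :=
  G.γ (G.L.ddir h) '' Icc (G.L.dpos h) (1 - G.L.dpos (M.flip h))

theorem p07_seg_flip (G : Geo D) (M : LineNet G.L) (h : Dart n D.crossings) :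
    p07_seg G M (M.flip h) = p07_seg G M h := by
  unfold p07_seg
  rw [M.flip_flip, M.ddir_flip]
  ext y
  constructor
  · rintro ⟨t, ⟨h1, h2⟩, rfl⟩
    refine ⟨1 - t, ⟨by linarith, by linarith⟩, ?_⟩
    rw [G.rev]
  · rintro ⟨t, ⟨h1, h2⟩, rfl⟩
    refine ⟨1 - t, ⟨by linarith, by linarith⟩, ?_⟩
    rw [G.rev, sub_sub_cancel]

theorem p07_Icc (G : Geo D) (M : LineNet G.L) (h : Dart n D.crossings) {u : ℝ}
    (hu : u ∈ Icc (G.L.dpos h) (1 - G.L.dpos (M.flip h))) : u ∈ Icc (0 : ℝ) 1 :=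
  ⟨(p07_nonneg G.L h).trans hu.1, hu.2.trans (by linarith [p07_nonneg G.L (M.flip h)])⟩

theorem p07_mem_edge (G : Geo D) (v : VD n) {u : ℝ} (hu : u ∈ Icc (0 : ℝ) 1) :
    G.γ v u ∈ D.edge v.1.1 v.1.2 := by
  rw [← (G.param v).2.2.2.2]
  exact ⟨u, hu, rfl⟩

theorem p07_seg_box (G : Geo D) (M : LineNet G.L) (h : Dart n D.crossings) (x : D.crossings)
    (y : S) (hy : y ∈ p07_seg G M h) (hx : y ∈ G.B.toBoxes.box x) : ∃ c : CD D.crossings,
      c.1 = x ∧ y = G.B.toBoxes.bp (Sum.inr c) ∧ (Sum.inr c = h ∨ Sum.inr c = M.flip h) := by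
  obtain ⟨u, hu, rfl⟩ := hy
  have hu01 := p07_Icc G M h hu
  have hmem := p07_mem_edge G (G.L.ddir h) hu01
  have hst : ∃ s, G.L.ddir h = G.B.st x s ∨ G.L.ddir h = (G.B.st x s).rev := by
    by_contra hcon
    push Not at hcon
    exact Set.disjoint_left.1 (G.B.edge_box x (G.L.ddir h) hcon) hx hmem
  obtain ⟨s, hs⟩ := hst
  have hd : ∃ d, G.L.dir (x, s, d) = G.L.ddir h := by
    have ht : G.L.dir (x, s, false) = (G.L.dir (x, s, true)).rev := G.L.dir_opp x s true
    rcases G.dir_st x s true with h1 | h1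
    · rcases hs with h2 | h2
      · exact ⟨true, by rw [h1, h2]⟩
      · exact ⟨false, by rw [ht, h1, h2]⟩
    · rcases hs with h2 | h2
      · exact ⟨false, by rw [ht, h1, h2, VD.rev_rev]⟩
      · exact ⟨true, by rw [h1, h2]⟩
  obtain ⟨d, hd⟩ := hd
  have hbox := (G.mem_box x s d u hu01).1 (by rw [hd]; exact hx)
  rcases M.gap h x s d hd with h1 | h1 | h1 | h1
  · refine ⟨(x, s, d), rfl, ?_, Or.inl h1⟩
    have e : G.L.dpos h = G.L.pos (x, s, d) := by rw [← h1]; rfl
    have e2 : u = G.L.dpos h := le_antisymm (by rw [e]; exact hbox.2) hu.1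
    rw [e2, p07_bp, ← h1]
  · refine ⟨(x, s, !d), rfl, ?_, Or.inr h1⟩
    have e : G.L.dpos (M.flip h) = G.L.pos (x, s, !d) := by rw [← h1]; rfl
    have e2 : u = 1 - G.L.dpos (M.flip h) := le_antisymm hu.2 (by rw [e]; exact hbox.1)
    rw [e2, p07_bp', ← h1]
  · exact absurd h1 (not_lt.2 (hu.1.trans hbox.2))
  · exact absurd h1 (not_lt.2 (hbox.1.trans hu.2))

theorem p07_seg_pt (G : Geo D) (M : LineNet G.L) (h : Dart n D.crossings) (i : Fin n)
    (hy : D.pt i ∈ p07_seg G M h) : ∃ v : VD n, v.1.1 = i ∧ (Sum.inl v = h ∨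
      Sum.inl v = M.flip h) := by
  obtain ⟨u, hu, he⟩ := hy
  have hu01 := p07_Icc G M h hu
  have hmem := p07_mem_edge G (G.L.ddir h) hu01
  rw [he] at hmem
  have hi : i = (G.L.ddir h).1.1 ∨ i = (G.L.ddir h).1.2 := by
    by_contra hcon
    push Not at hcon
    exact D.avoid _ _ i (G.L.ddir h).2 hcon.1 hcon.2 hmem
  have hP := G.param (G.L.ddir h)
  rcases hi with hi | hi
  · have h0 : G.γ (G.L.ddir h) 0 = D.pt i := by rw [hi]; exact hP.2.2.1
    have hu0 : u = 0 := hP.2.1 hu01 ⟨le_refl _, zero_le_one⟩ (by rw [he, h0])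
    have hz : G.L.dpos h ≤ 0 := by rw [← hu0]; exact hu.1
    exact ⟨G.L.ddir h, hi.symm, Or.inl (p07_zero G.L h hz).symm⟩
  · have h0 : G.γ (G.L.ddir h) 1 = D.pt i := by rw [hi]; exact hP.2.2.2.1
    have hu0 : u = 1 := hP.2.1 hu01 ⟨zero_le_one, le_refl _⟩ (by rw [he, h0])
    have hz : G.L.dpos (M.flip h) ≤ 0 := by
      have := hu.2
      rw [hu0] at this
      linarith
    refine ⟨(G.L.ddir h).rev, hi.symm, Or.inr ?_⟩
    rw [← M.ddir_flip]
    exact (p07_zero G.L (M.flip h) hz).symm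

theorem p07_lt (G : Geo D) (M : LineNet G.L) (h h' : Dart n D.crossings) (y : S)
    (hy : y ∈ p07_seg G M h) (hy' : y ∈ p07_seg G M h') (hd : G.L.ddir h' = G.L.ddir h)
    (hlt : G.L.dpos h < G.L.dpos h') : False := by
  obtain ⟨u, hu, he⟩ := hy
  obtain ⟨u', hu', he'⟩ := hy'
  have hP := G.param (G.L.ddir h)
  have huu : u = u' := by
    refine hP.2.1 (p07_Icc G M h hu) (p07_Icc G M h' hu') ?_
    rw [he, ← he', hd]
  subst huu
  cases h' with
  | inl v => exact absurd hlt (not_lt.2 (p07_nonneg G.L h))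
  | inr c =>
    obtain ⟨x, s, d⟩ := c
    have hd' : G.L.dir (x, s, d) = G.L.ddir h := hd
    have hlt' : G.L.dpos h < G.L.pos (x, s, d) := hlt
    have h3 : G.L.pos (x, s, d) ≤ u := hu'.1
    have hb := G.L.box x s d
    rcases M.gap h x s d hd' with h1 | h1 | h1 | h1
    · rw [← h1] at hlt'
      exact absurd hlt' (lt_irrefl _)
    · have e : G.L.dpos (M.flip h) = G.L.pos (x, s, !d) := by rw [← h1]; rfl
      have h4 := hu.2
      rw [e] at h4
      linarith
    · linarith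
    · have h4 := hu.2
      linarith

theorem p07_same (G : Geo D) (M : LineNet G.L) (h h' : Dart n D.crossings) (y : S)
    (hy : y ∈ p07_seg G M h) (hy' : y ∈ p07_seg G M h') (hd : G.L.ddir h' = G.L.ddir h) :
    h' = h := by
  rcases lt_trichotomy (G.L.dpos h) (G.L.dpos h') with h1 | h1 | h1
  · exact (p07_lt G M h h' y hy hy' hd h1).elim
  · exact Line.inj G.L hd h1.symm
  · exact (p07_lt G M h' h y hy' hy hd.symm h1).elim

theorem p07_dv_mem (s d : Bool) : dv s d ∈ K2 := by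
  cases s <;> cases d <;> simp [dv, K2]

theorem p07_zero_mem : ((0 : ℝ), (0 : ℝ)) ∈ K2 := by
  simp [K2]

theorem p07_dv_ne (s d : Bool) : dv s d ≠ (0, 0) := by
  cases s <;> cases d <;> simp [dv]

theorem p07_seg_seg (G : Geo D) (M : LineNet G.L) (h h' : Dart n D.crossings) (y : S)
    (hy : y ∈ p07_seg G M h) (hy' : y ∈ p07_seg G M h') :
    h' = h ∨ h' = M.flip h ∨ ∃ i, y = D.pt i := by
  by_cases e1 : G.L.ddir h' = G.L.ddir h
  · exact Or.inl (p07_same G M h h' y hy hy' e1)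
  by_cases e2 : G.L.ddir h' = (G.L.ddir h).rev
  · right; left
    have h1 : G.L.ddir (M.flip h') = G.L.ddir h := by
      rw [M.ddir_flip, e2, VD.rev_rev]
    have h2 := p07_same G M h (M.flip h') y hy (by rw [p07_seg_flip]; exact hy') h1
    rw [← h2, M.flip_flip]
  right; right
  obtain ⟨u, hu, he⟩ := id hy
  obtain ⟨u', hu', he'⟩ := id hy'
  have hm := p07_mem_edge G (G.L.ddir h) (p07_Icc G M h hu)
  have hm' := p07_mem_edge G (G.L.ddir h') (p07_Icc G M h' hu')
  rw [he] at hm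
  rw [he'] at hm'
  rcases hv : G.L.ddir h with ⟨⟨a, b⟩, hab⟩
  rcases hv' : G.L.ddir h' with ⟨⟨a', b'⟩, hab'⟩
  rw [hv] at hm e1 e2
  rw [hv'] at hm' e1 e2
  simp only at hab hab' hm hm'
  have e1' : ¬ (a' = a ∧ b' = b) := by
    rintro ⟨rfl, rfl⟩
    exact e1 rfl
  have e2' : ¬ (a' = b ∧ b' = a) := by
    rintro ⟨rfl, rfl⟩
    exact e2 rfl
  by_cases c1 : a = a'
  · subst c1
    have h3 : b ≠ b' := fun hh => e1' ⟨rfl, hh.symm⟩
    have h4 := D.adjacent a b b' hab hab' h3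
    have h5 : y ∈ D.edge a b ∩ D.edge a b' := ⟨hm, hm'⟩
    rw [h4] at h5
    exact ⟨a, h5⟩
  by_cases c2 : a = b'
  · subst c2
    have h3 : b ≠ a' := fun hh => e2' ⟨hh.symm, rfl⟩
    have h4 := D.adjacent a b a' hab c1 h3
    have h5 : y ∈ D.edge a b ∩ D.edge a a' := ⟨hm, by rw [D.symm]; exact hm'⟩
    rw [h4] at h5
    exact ⟨a, h5⟩
  by_cases c3 : b = a'
  · subst c3
    have h4 := D.adjacent b a b' hab.symm hab' c2
    have h5 : y ∈ D.edge b a ∩ D.edge b b' := ⟨by rw [D.symm]; exact hm, hm'⟩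
    rw [h4] at h5
    exact ⟨b, h5⟩
  by_cases c4 : b = b'
  · subst c4
    have h4 := D.adjacent b a a' hab.symm hab'.symm c1
    have h5 : y ∈ D.edge b a ∩ D.edge b a' :=
      ⟨by rw [D.symm]; exact hm, by rw [D.symm]; exact hm'⟩
    rw [h4] at h5
    exact ⟨b, h5⟩
  exfalso
  have hx : y ∈ D.crossings := ⟨a, b, a', b', hab, hab', ⟨c1, c2, c3, c4⟩, hm, hm'⟩
  have hc : (G.B.chart ⟨y, hx⟩).symm (0, 0) = y := G.B.centre ⟨y, hx⟩
  have hbox : y ∈ G.B.toBoxes.box ⟨y, hx⟩ := ⟨(0, 0), p07_zero_mem, hc⟩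
  obtain ⟨c, hcx, hcy, -⟩ := p07_seg_box G M h ⟨y, hx⟩ y hy hbox
  obtain ⟨x, s, d⟩ := c
  simp only at hcx
  subst hcx
  have h6 : (G.B.chart ⟨y, hx⟩).symm (dv s d) = (G.B.chart ⟨y, hx⟩).symm (0, 0) := by
    rw [hc]
    exact hcy.symm
  have h7 := (G.B.chart ⟨y, hx⟩).symm.injOn
    (show dv s d ∈ (G.B.chart ⟨y, hx⟩).symm.source from G.B.sub _ (p07_dv_mem s d))
    (show ((0 : ℝ), (0 : ℝ)) ∈ (G.B.chart ⟨y, hx⟩).symm.source from G.B.sub _ p07_zero_mem) h6
  exact p07_dv_ne s d h7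

theorem exists_topNet [T2Space S] {D : Drawing S n} (G : Geo D) (M : LineNet G.L) :
    ∃ T : TopNet S n D.crossings, T.toNet = M.toNet :=
  ⟨{ toBoxes := G.B.toBoxes
     toNet := M.toNet
     disj := G.B.disj
     pt_box := G.B.pt_box
     seg := p07_seg G M
     seg_flip := p07_seg_flip G M
     seg_arc := fun h => by
       have h1 := Param.sub (G.param (G.L.ddir h)) (p07_nonneg G.L h) (M.dpos_flip h)
         (by linarith [p07_nonneg G.L (M.flip h)])
       rw [p07_bp, p07_bp'] at h1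
       exact h1
     seg_box := p07_seg_box G M
     seg_pt := fun h i hi => p07_seg_pt G M h i (by
       have e : G.B.pt i = D.pt i := by rw [G.B.pt_eq]
       rw [← e]; exact hi)
     seg_seg := fun h h' y hy hy' => by
       rcases p07_seg_seg G M h h' y hy hy' with h1 | h1 | ⟨i, h1⟩
       · exact Or.inl h1
       · exact Or.inr (Or.inl h1)
       · refine Or.inr (Or.inr ⟨i, ?_⟩)
         rw [h1, G.B.pt_eq] }, rfl⟩

end Pool.HexDraw
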