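import Pool.Agent.Lib.MP_8613e3_co_hex.P04
import Pool.Agent.Lib.MP_8613e3_co_hex.C01

/-!
# P05: straight walks along an edge (45 min)

Strong induction on the number of crossing darts `c` with `dir c = (ddir h).rev` and
`dpos h < 1 - pos c < 1 - dpos g`... (any measure which decreases). Let `h' = flip h`. First
`1 - dpos h' ≤ 1 - dpos g`: if `g` is a crossing dart `(x,s,!d)` use `gap` for `(x,s,d)` (whose
direction is `ddir h`): `inr (x,s,d) = h` is impossible because then
`dpos h = pos (x,s,d) > 1 - pos (x,s,!d) = 1 - dpos g`; `pos (x,s,d) < dpos h` is impossible for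
the same reason; the two other cases are what we want. If `g = inl ..`, then `1 - dpos g = 1`.
If equality holds, `h' = g` by `Line.inj` and `l = []`. Otherwise `h'` is a crossing dart
`(x,s,d)` (a vertex dart has `1 - dpos h' = 1`), `inr (x,s,!d)` has direction `ddir h` and
`dpos h < 1 - pos (x,s,d) < pos (x,s,!d) < 1 - dpos g`, the last inequality because the box of
`x` is disjoint from the box of `g` or `g` is a vertex dart (`sep`; `g` is not `(x,s,d)`, and not
`(x,s,!d)` by its direction). Apply the induction hypothesis to `inr (x,s,!d)` and `g`; the list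
is `(x,s,d) :: l`, `mate (st0 X) (x,s,d) = (x,s,!d)`.
-/

namespace Pool.HexDraw

open Set

variable {n : ℕ} {X : Type}

theorem p05_nonneg (L : Line n X) (h : Dart n X) : 0 ≤ L.dpos h := by
  cases h with
  | inl v => exact le_refl _
  | inr c => exact (L.pos_pos c).le

theorem p05_wf [Finite X] (L : Line n X) :
    WellFounded (fun a b : Dart n X => L.dpos b < L.dpos a) := by
  have : IsTrans (Dart n X) (fun a b : Dart n X => L.dpos b < L.dpos a) :=
    ⟨fun a b c h1 h2 => lt_trans h2 h1⟩
  have : Std.Irrefl (fun a b : Dart n X => L.dpos b < L.dpos a) := ⟨fun a h => lt_irrefl _ h⟩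
  exact Finite.wellFounded_of_trans_of_irrefl _

theorem LineNet.walk [Finite X] {L : Line n X} (M : LineNet L) {h g : Dart n X}
    (hd : L.ddir g = (L.ddir h).rev) (hp : L.dpos h < 1 - L.dpos g) :
    ∃ l, M.toNet.Walk (st0 X) (M.flip h) l g ∧ ∀ c ∈ l, L.dir c = (L.ddir h).rev ∧
      L.dpos h < 1 - L.pos c ∧ 1 - L.pos c < 1 - L.dpos g := by
  induction h using (p05_wf L).induction with
  | _ h ih =>
  have hdf := M.ddir_flip h
  have hpf := M.dpos_flip h
  have key : L.dpos g ≤ L.dpos (M.flip h) := by
    cases g with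
    | inl v' => exact p05_nonneg L _
    | inr c0 =>
      obtain ⟨x, s, d0⟩ := c0
      have e1 : L.dir (x, s, !d0) = L.ddir h := by
        rw [L.dir_opp x s d0]
        have e2 : L.dir (x, s, d0) = (L.ddir h).rev := hd
        rw [e2, VD.rev_rev]
      have e3 : L.dpos (Sum.inr (x, s, d0)) = L.pos (x, s, d0) := rfl
      have e4 := L.box x s (!d0)
      rw [Bool.not_not] at e4
      rw [e3] at hp ⊢
      rcases M.gap h x s (!d0) e1 with h1 | h1 | h1 | h1
      · exfalso
        rw [← h1] at hp
        have e5 : L.dpos (Sum.inr (x, s, !d0) : Dart n X) = L.pos (x, s, !d0) := rfl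
        rw [e5] at hp
        linarith
      · rw [Bool.not_not] at h1
        rw [← h1]
        exact le_refl _
      · exfalso
        linarith
      · rw [Bool.not_not] at h1
        linarith
  by_cases hg : M.flip h = g
  · exact ⟨[], hg, fun c hc => absurd hc (by simp)⟩
  have key2 : L.dpos g < L.dpos (M.flip h) := by
    refine lt_of_le_of_ne key (fun e => hg ?_)
    exact L.inj (hdf.trans hd.symm) e.symm
  rcases hf : M.flip h with v | c
  · exfalso
    rw [hf] at key2
    have := p05_nonneg L g
    have e5 : L.dpos (Sum.inl v : Dart n X) = 0 := rfl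
    linarith
  obtain ⟨x, s, d⟩ := c
  rw [hf] at hdf hpf key2
  have e1 : L.dir (x, s, d) = (L.ddir h).rev := hdf
  have e2 : L.dir (x, s, !d) = L.ddir h := by rw [L.dir_opp x s d, e1, VD.rev_rev]
  have e3 : L.dpos (Sum.inr (x, s, d) : Dart n X) = L.pos (x, s, d) := rfl
  rw [e3] at hpf key2
  have e4 := L.box x s (!d)
  rw [Bool.not_not] at e4
  have e5 : L.dpos h < L.dpos (Sum.inr (x, s, !d)) := by
    show L.dpos h < L.pos (x, s, !d)
    linarith
  have e6 : L.dpos (Sum.inr (x, s, !d) : Dart n X) < 1 - L.dpos g := by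
    show L.pos (x, s, !d) < 1 - L.dpos g
    cases g with
    | inl v' =>
      have := L.pos_lt (x, s, !d)
      have e7 : L.dpos (Sum.inl v' : Dart n X) = 0 := rfl
      rw [e7]
      linarith
    | inr c' =>
      obtain ⟨y, t, e⟩ := c'
      have e7 : L.dir (x, s, d) = L.dir (y, t, e) := e1.trans hd.symm
      have e8 : (x, s) ≠ (y, t) := by
        intro e9
        rw [Prod.mk.injEq] at e9
        obtain ⟨rfl, rfl⟩ := e9
        by_cases hde : d = e
        · subst hde
          exact hg hf
        · have hde2 : e = !d := by cases d <;> cases e <;> simp_all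
          rw [hde2, L.dir_opp x s d] at e7
          exact VD.rev_ne _ e7.symm
      have e9 : L.dpos (Sum.inr (y, t, e) : Dart n X) = L.pos (y, t, e) := rfl
      rw [e9] at key2 ⊢
      rcases L.sep x s d y t e e7 e8 with h1 | h1
      · have := L.box y t e
        linarith
      · linarith
  obtain ⟨l, hl1, hl2⟩ := ih (Sum.inr (x, s, !d)) e5 (hd.trans (by rw [← e2]; rfl)) e6
  refine ⟨(x, s, d) :: l, ?_, ?_⟩
  · refine ⟨rfl, ?_⟩
    have e7 : mate (st0 X) (x, s, d) = (x, s, !d) := rfl
    rw [e7]
    exact hl1
  · intro c hc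
    rcases List.mem_cons.1 hc with rfl | hc
    · refine ⟨e1, ?_, ?_⟩
      · linarith
      · linarith
    · obtain ⟨h1, h2, h3⟩ := hl2 c hc
      refine ⟨h1.trans (by rw [← e2]; rfl), ?_, h3⟩
      linarith

end Pool.HexDraw
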