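import Pool.Agent.Lib.MP_8613e3_co_hex.P01
import Pool.Agent.Lib.MP_8613e3_co_hex.P05

/-!
# P08: the edge net of a drawing (45 min)

`toNet := M.toNet`, `dir := G.L.dir`. `dir_mem`: `G.ctr` and `G.param`. `dir_disj`: `dir_st` and
`st_disj` (reversing an edge does not change its set of ends). `walk_vertex`: `LineNet.walk`
for `inl v` and `inl v.rev`; a dart `c` with `dir c = v.rev` has its crossing on the edge
(`dir_mem`, `D.symm`). `walk_cross`: `x.1 ∈ D.edge v` and `x.1` is in the box of `x` (`centre`),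
so by `edge_box` `v` is `st x s` or its reverse for some `s`, so there is `d` with
`dir (x,s,d) = v.rev`; let `c = (x,s,d)` and apply `LineNet.walk` to `inl v` and `inr c`
(`0 < 1 - pos c`). For `c' = (x',s',d')` on the list: `dir c' = v.rev = dir c` and
`1 - pos c' < 1 - pos c`, i.e. `pos c < pos c'`, so `c' ≠ c`, `(x',s') ≠ (x,s)`
(the same crossing strand and the same direction would give the same dart), and `sep` gives
`pos c < 1 - pos (x',s',!d')` (the other alternative contradicts `pos c < pos c'`). By `ctr` the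
crossing `x` has parameter `t < pos c` and `x'` has parameter `t' > 1 - pos (x',s',!d')` on the
edge `v.rev`; so `t < t'`, and on the edge `v` the parameters are `1 - t' < 1 - t` (`rev`): this is
`Before` for the parametrisation `G.γ v`.
-/

namespace Pool.HexDraw

open Set

variable {S : Type} [TopologicalSpace S] {n : ℕ}

theorem p08_rev_rev (v : VD n) : v.rev.rev = v := rfl

theorem p08_edge_rev (D : Drawing S n) (v : VD n) :
    D.edge v.rev.1.1 v.rev.1.2 = D.edge v.1.1 v.1.2 := D.symm _ _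

theorem p08_dir_mem {D : Drawing S n} (G : Geo D) (c : CD D.crossings) :
    c.1.1 ∈ D.edge (G.L.dir c).1.1 (G.L.dir c).1.2 := by
  obtain ⟨x, s, d⟩ := c
  obtain ⟨t, ht, he⟩ := G.ctr x s d
  have h1 := (G.param (G.L.dir (x, s, d))).2.2.2.2
  have h2 := G.L.pos_lt (x, s, !d)
  have h3 := G.L.pos_lt (x, s, d)
  rw [← h1]
  exact ⟨t, ⟨by linarith [ht.1], by linarith [ht.2]⟩, he⟩

theorem p08_on {D : Drawing S n} (G : Geo D) {v : VD n} {c : CD D.crossings}
    (hc : G.L.dir c = v.rev) : c.1.1 ∈ D.edge v.1.1 v.1.2 := by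
  have h1 := p08_dir_mem G c
  rw [hc, p08_edge_rev] at h1
  exact h1

theorem exists_edgeNet [T2Space S] {D : Drawing S n} (G : Geo D) (M : LineNet G.L) :
    ∃ E : EdgeNet D, E.toNet = M.toNet := by
  have : Finite D.crossings := (crossings_finite D).to_subtype
  refine ⟨⟨M.toNet, G.L.dir, G.L.dir_opp, p08_dir_mem G, ?_, ?_, ?_⟩, rfl⟩
  · intro x d d'
    have h0 := G.B.st_disj x
    obtain ⟨h1, h2, h3, h4⟩ := h0
    rcases G.dir_st x false d with e1 | e1 <;> rcases G.dir_st x true d' with e2 | e2 <;>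
      rw [e1, e2]
    · exact ⟨h1, h2, h3, h4⟩
    · exact ⟨h2, h1, h4, h3⟩
    · exact ⟨h3, h4, h1, h2⟩
    · exact ⟨h4, h3, h2, h1⟩
  · intro v
    obtain ⟨l, hl1, hl2⟩ := M.walk (h := Sum.inl v) (g := Sum.inl v.rev) rfl (by
      show (0 : ℝ) < 1 - 0
      norm_num)
    exact ⟨l, hl1, fun c hc => p08_on G (hl2 c hc).1⟩
  · intro v x hx
    have hxb : x.1 ∈ G.B.toBoxes.box x := by
      refine ⟨(0, 0), ?_, G.B.centre x⟩
      constructor <;> constructor <;> norm_num
    have hs : ∃ s, v = G.B.st x s ∨ v = (G.B.st x s).rev := by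
      by_contra hcon
      push Not at hcon
      exact (disjoint_left.1 (G.B.edge_box x v hcon)) hxb hx
    obtain ⟨s, hs⟩ := hs
    have hd : ∃ d, G.L.dir (x, s, d) = v.rev := by
      have e0 : G.L.dir (x, s, false) = (G.L.dir (x, s, true)).rev := G.L.dir_opp x s true
      rcases G.dir_st x s true with e1 | e1 <;> rcases hs with e2 | e2
      · exact ⟨false, by rw [e0, e1, e2]⟩
      · exact ⟨true, by rw [e1, e2]; rfl⟩
      · exact ⟨true, by rw [e1, e2]⟩
      · exact ⟨false, by rw [e0, e1, e2]⟩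
    obtain ⟨d, hd⟩ := hd
    have hlt := G.L.pos_lt (x, s, d)
    obtain ⟨l, hl1, hl2⟩ := M.walk (h := Sum.inl v) (g := Sum.inr (x, s, d)) hd (by
      show (0 : ℝ) < 1 - G.L.pos (x, s, d)
      linarith)
    refine ⟨(x, s, d), l, rfl, hd, hl1, ?_⟩
    intro c' hc'
    obtain ⟨h1, h2, h3⟩ := hl2 c' hc'
    have h1' : G.L.dir c' = v.rev := h1
    refine ⟨p08_on G h1', ?_⟩
    obtain ⟨x', s', d'⟩ := c'
    have h3' : G.L.pos (x, s, d) < G.L.pos (x', s', d') := by
      have e : G.L.dpos (Sum.inr (x, s, d)) = G.L.pos (x, s, d) := rfl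
      rw [e] at h3
      linarith
    have e7 : G.L.dir (x, s, d) = G.L.dir (x', s', d') := hd.trans h1'.symm
    have hne : (x, s) ≠ (x', s') := by
      intro e9
      rw [Prod.mk.injEq] at e9
      obtain ⟨rfl, rfl⟩ := e9
      by_cases hde : d = d'
      · subst hde
        exact lt_irrefl _ h3'
      · have hde2 : d' = !d := by cases d <;> cases d' <;> simp_all
        rw [hde2, G.L.dir_opp x s d] at e7
        exact VD.rev_ne _ e7.symm
    have hb := G.L.box x s d
    have hlt2 : G.L.pos (x, s, d) < 1 - G.L.pos (x', s', !d') := by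
      rcases G.L.sep x s d x' s' d' e7 hne with h4 | h4
      · exact h4
      · linarith
    obtain ⟨t, ht, he⟩ := G.ctr x s d
    obtain ⟨t', ht', he'⟩ := G.ctr x' s' d'
    rw [hd, G.rev] at he
    rw [h1', G.rev] at he'
    have h5 := G.L.pos_lt (x', s', d')
    have h6 := G.L.pos_lt (x, s, !d)
    refine ⟨D.pt v.1.2, G.γ v, G.param v, 1 - t', 1 - t, ?_, ?_, ?_, he', he⟩
    · linarith [ht'.2]
    · linarith [ht.2, ht'.1]
    · linarith [ht.1]

end Pool.HexDraw
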