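import Pool.Agent.Lib.MP_8613e3_co_hex.C01

/-!
# R01: chords in the box of a crossing (50 min)

For `A ⊆ K2` one has `y ∈ (B.chart x).symm '' A ↔ y ∈ source ∧ B.chart x y ∈ A`
(`(B.chart x).right_inv`, `left_inv`, `map_target`, `B.sub`), so everything is a statement on
the plane: `K2` is convex and contains the four points `dv s d`; `segment ℝ (dv s d) (dv s' d')`
is described by case analysis on the booleans.
`chord_arc`: the parametrisation `t ↦ (B.chart x).symm ((1-t) • dv .. + t • dv ..)`; it is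
continuous on `[0,1]` because the segment lies in the target, injective because `symm` is
injective on the target and the two points are different (`mate_ne`).
`bp_mem_chord`: the only points `dv s d` on the segment are its ends.
`chord_disj`: in a smoothed crossing the two chords are `[(ε,0),(0,δ)]` and `[(-ε,0),(0,-δ)]`,
on the first `ε y₁ + δ y₂ = 1`, on the second it is `-1`.
`chord_straight`: the two straight chords are `[(-1,0),(1,0)]` and `[(0,-1),(0,1)]`.
-/

namespace Pool.HexDraw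

open Set

variable {S : Type} [TopologicalSpace S] {n : ℕ} {X : Type} {B : Boxes S n X} {ω : State X}

theorem dv_mem (s d : Bool) : dv s d ∈ K2 := by
  unfold K2
  cases s <;> cases d <;> simp [dv]

theorem r01_convex : Convex ℝ K2 := by
  unfold K2
  exact (convex_Icc _ _).prod (convex_Icc _ _)

theorem r01_seg_sub (s d s' d' : Bool) : segment ℝ (dv s d) (dv s' d') ⊆ K2 :=
  r01_convex.segment_subset (dv_mem s d) (dv_mem s' d')

theorem r01_seg (p q z : ℝ × ℝ) : z ∈ segment ℝ p q ↔ ∃ t : ℝ, 0 ≤ t ∧ t ≤ 1 ∧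
    z.1 = (1 - t) * p.1 + t * q.1 ∧ z.2 = (1 - t) * p.2 + t * q.2 := by
  rw [segment_eq_image]
  constructor
  · rintro ⟨t, ⟨h0, h1⟩, rfl⟩
    exact ⟨t, h0, h1, by simp, by simp⟩
  · rintro ⟨t, h0, h1, h2, h3⟩
    refine ⟨t, ⟨h0, h1⟩, ?_⟩
    ext
    · simp [h2]
    · simp [h3]

/-- membership in the image of a subset of the box -/
theorem r01_mem {x : X} {A : Set (ℝ × ℝ)} (hA : A ⊆ K2) {y : S} :
    y ∈ (B.chart x).symm '' A ↔ y ∈ (B.chart x).source ∧ B.chart x y ∈ A := by
  constructor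
  · rintro ⟨a, ha, rfl⟩
    have ht := B.sub x (hA ha)
    refine ⟨(B.chart x).map_target ht, ?_⟩
    rw [(B.chart x).right_inv ht]
    exact ha
  · rintro ⟨h1, h2⟩
    exact ⟨_, h2, (B.chart x).left_inv h1⟩

theorem r01_symm_inj {x : X} {a b : ℝ × ℝ} (ha : a ∈ K2) (hb : b ∈ K2)
    (h : (B.chart x).symm a = (B.chart x).symm b) : a = b := by
  have h1 := (B.chart x).right_inv (B.sub x ha)
  have h2 := (B.chart x).right_inv (B.sub x hb)
  rw [← h1, h, h2]

theorem r01_dv_inj {s d s' d' : Bool} (h : dv s d = dv s' d') : s = s' ∧ d = d' := by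
  have h1 := congrArg Prod.fst h
  have h2 := congrArg Prod.snd h
  cases s <;> cases d <;> cases s' <;> cases d' <;> simp [dv] at h1 h2 ⊢ <;> linarith

theorem bp_mem_box (c : CD X) : B.bp (Sum.inr c) ∈ B.box c.1 :=
  ⟨_, dv_mem _ _, rfl⟩

theorem bp_inj {c c' : CD X} (h1 : c.1 = c'.1) (h : B.bp (Sum.inr c) = B.bp (Sum.inr c')) :
    c = c' := by
  obtain ⟨x, s, d⟩ := c
  obtain ⟨x', s', d'⟩ := c'
  have hx : x = x' := h1
  subst hx
  have h2 : dv s d = dv s' d' := r01_symm_inj (B := B) (x := x) (dv_mem _ _) (dv_mem _ _) h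
  obtain ⟨h3, h4⟩ := r01_dv_inj h2
  rw [h3, h4]

theorem chord_sub_box (c : CD X) : B.chord ω c ⊆ B.box c.1 :=
  image_mono (r01_seg_sub _ _ _ _)

theorem r01_bp_mate (c : CD X) : B.bp (Sum.inr (mate ω c)) =
    (B.chart c.1).symm (dv (mate ω c).2.1 (mate ω c).2.2) := by
  change (B.chart (mate ω c).1).symm _ = _
  rw [mate_fst]

theorem chord_arc (c : CD X) :
    IsArc (B.bp (Sum.inr c)) (B.bp (Sum.inr (mate ω c))) (B.chord ω c) := by
  rw [r01_bp_mate]
  set p := dv c.2.1 c.2.2 with hp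
  set q := dv (mate ω c).2.1 (mate ω c).2.2 with hq
  have hpq : p ≠ q := by
    intro h
    obtain ⟨h1, h2⟩ := r01_dv_inj h
    exact mate_ne ω c (Prod.ext (mate_fst ω c) (Prod.ext h1.symm h2.symm))
  have hsub : ∀ t ∈ Icc (0 : ℝ) 1, (1 - t) • p + t • q ∈ K2 := by
    intro t ht
    apply r01_seg_sub c.2.1 c.2.2 (mate ω c).2.1 (mate ω c).2.2
    rw [segment_eq_image]
    exact ⟨t, ht, rfl⟩
  refine ⟨fun t => (B.chart c.1).symm ((1 - t) • p + t • q), ?_, ?_, ?_, ?_, ?_⟩
  · refine (B.chart c.1).continuousOn_symm.comp (by fun_prop) ?_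
    intro t ht
    exact B.sub _ (hsub t ht)
  · intro t ht t' ht' h
    have h1 := r01_symm_inj (B := B) (x := c.1) (hsub t ht) (hsub t' ht') h
    have h2 : (t - t') • (q - p) = 0 := by
      have h3 : (t - t') • (q - p) = ((1 - t) • p + t • q) - ((1 - t') • p + t' • q) := by
        module
      rw [h3, h1, sub_self]
    rcases smul_eq_zero.1 h2 with h4 | h4
    · linarith
    · exact absurd (sub_eq_zero.1 h4).symm hpq
  · simp only [sub_zero, one_smul, zero_smul, add_zero]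
    rfl
  · simp only [sub_self, one_smul, zero_smul, zero_add]
  · unfold Boxes.chord
    rw [segment_eq_image, image_image]

theorem chord_mate (c : CD X) : B.chord ω (mate ω c) = B.chord ω c := by
  unfold Boxes.chord
  rw [mate_mate, mate_fst, segment_symm]

theorem r01_dv_seg {s d s2 d2 s' d' : Bool} (h : dv s' d' ∈ segment ℝ (dv s d) (dv s2 d2)) :
    (s' = s ∧ d' = d) ∨ (s' = s2 ∧ d' = d2) := by
  rw [r01_seg] at h
  obtain ⟨t, h0, h1, h2, h3⟩ := h
  cases s <;> cases d <;> cases s2 <;> cases d2 <;> cases s' <;> cases d' <;>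
    first
    | exact Or.inl ⟨rfl, rfl⟩
    | exact Or.inr ⟨rfl, rfl⟩
    | (exfalso; simp only [dv] at h2 h3; linarith)

theorem bp_mem_chord {c c' : CD X} (h1 : c'.1 = c.1) (h : B.bp (Sum.inr c') ∈ B.chord ω c) :
    c' = c ∨ c' = mate ω c := by
  have h2 : B.bp (Sum.inr c') = (B.chart c.1).symm (dv c'.2.1 c'.2.2) := by
    change (B.chart c'.1).symm _ = _
    rw [h1]
  rw [h2] at h
  obtain ⟨a, ha, hac⟩ := h
  have h3 : a = dv c'.2.1 c'.2.2 :=
    r01_symm_inj (B := B) (x := c.1) (r01_seg_sub _ _ _ _ ha) (dv_mem _ _) hac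
  rw [h3] at ha
  rcases r01_dv_seg ha with ⟨h4, h5⟩ | ⟨h4, h5⟩
  · exact Or.inl (Prod.ext h1 (Prod.ext h4 h5))
  · exact Or.inr (Prod.ext (h1.trans (mate_fst ω c).symm) (Prod.ext h4 h5))

theorem r01_smooth {b s d s' d' : Bool} (h2 : ¬ (s' = s ∧ d' = d))
    (h3 : ¬ (s' = !s ∧ d' = xor b d)) {z : ℝ × ℝ}
    (hz : z ∈ segment ℝ (dv s d) (dv (!s) (xor b d)))
    (hz' : z ∈ segment ℝ (dv s' d') (dv (!s') (xor b d'))) : False := by
  rw [r01_seg] at hz hz'
  obtain ⟨t, h0, h1, e1, e2⟩ := hz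
  obtain ⟨t', h0', h1', e1', e2'⟩ := hz'
  cases b <;> cases s <;> cases d <;> cases s' <;> cases d' <;>
    first
    | exact h2 ⟨rfl, rfl⟩
    | exact h3 ⟨rfl, rfl⟩
    | (simp only [dv, Bool.not_true, Bool.not_false, Bool.xor_true, Bool.xor_false] at e1 e2 e1' e2'
       linarith)

theorem chord_disj {b : Bool} {c c' : CD X} (hb : ω c.1 = some b) (h1 : c'.1 = c.1)
    (h2 : c' ≠ c) (h3 : c' ≠ mate ω c) : Disjoint (B.chord ω c) (B.chord ω c') := by
  obtain ⟨x, s, d⟩ := c
  obtain ⟨x', s', d'⟩ := c'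
  have hx : x' = x := h1
  subst hx
  have hb1 : ω x' = some b := hb
  have m1 : mate ω (x', s, d) = (x', !s, xor b d) := c01_mate_some (c := (x', s, d)) hb1
  have m2 : mate ω (x', s', d') = (x', !s', xor b d') := c01_mate_some (c := (x', s', d')) hb1
  rw [m1] at h3
  unfold Boxes.chord
  rw [m1, m2, Set.disjoint_left]
  intro y hy hy'
  rw [r01_mem (r01_seg_sub _ _ _ _)] at hy hy'
  refine r01_smooth (b := b) (s := s) (d := d) (s' := s') (d' := d') ?_ ?_ hy.2 hy'.2
  · rintro ⟨rfl, rfl⟩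
    exact h2 rfl
  · rintro ⟨h4, h5⟩
    apply h3
    rw [h4, h5]

theorem r01_seg_false (d : Bool) (z : ℝ × ℝ) :
    z ∈ segment ℝ (dv false d) (dv false (!d)) ↔ -1 ≤ z.1 ∧ z.1 ≤ 1 ∧ z.2 = 0 := by
  rw [r01_seg]
  cases d
  · simp only [dv, Bool.not_false]
    constructor
    · rintro ⟨t, h0, h1, h2, h3⟩
      exact ⟨by linarith, by linarith, by linarith⟩
    · rintro ⟨h1, h2, h3⟩
      exact ⟨(1 + z.1) / 2, by linarith, by linarith, by linarith, by linarith⟩
  · simp only [dv, Bool.not_true]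
    constructor
    · rintro ⟨t, h0, h1, h2, h3⟩
      exact ⟨by linarith, by linarith, by linarith⟩
    · rintro ⟨h1, h2, h3⟩
      exact ⟨(1 - z.1) / 2, by linarith, by linarith, by linarith, by linarith⟩

theorem r01_seg_true (d : Bool) (z : ℝ × ℝ) :
    z ∈ segment ℝ (dv true d) (dv true (!d)) ↔ -1 ≤ z.2 ∧ z.2 ≤ 1 ∧ z.1 = 0 := by
  rw [r01_seg]
  cases d
  · simp only [dv, Bool.not_false]
    constructor
    · rintro ⟨t, h0, h1, h2, h3⟩
      exact ⟨by linarith, by linarith, by linarith⟩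
    · rintro ⟨h1, h2, h3⟩
      exact ⟨(1 + z.2) / 2, by linarith, by linarith, by linarith, by linarith⟩
  · simp only [dv, Bool.not_true]
    constructor
    · rintro ⟨t, h0, h1, h2, h3⟩
      exact ⟨by linarith, by linarith, by linarith⟩
    · rintro ⟨h1, h2, h3⟩
      exact ⟨(1 - z.2) / 2, by linarith, by linarith, by linarith, by linarith⟩

theorem r01_mem_chord {x : X} (hx : ω x = none) (s d : Bool) (y : S) :
    y ∈ B.chord ω (x, s, d) ↔ y ∈ (B.chart x).source ∧
      B.chart x y ∈ segment ℝ (dv s d) (dv s (!d)) := by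
  unfold Boxes.chord
  rw [mate_none (c := (x, s, d)) hx]
  exact r01_mem (r01_seg_sub _ _ _ _)

theorem chord_straight {x : X} (hx : ω x = none) (s d d' : Bool) :
    B.chord ω (x, s, d) ∩ B.chord ω (x, !s, d') = {(B.chart x).symm (0, 0)} := by
  have h00 : ((0 : ℝ), (0 : ℝ)) ∈ K2 := by
    unfold K2
    simp
  have ht := B.sub x h00
  ext y
  rw [mem_inter_iff, r01_mem_chord hx, r01_mem_chord hx, mem_singleton_iff]
  constructor
  · rintro ⟨⟨hy, h1⟩, -, h2⟩
    have h3 : B.chart x y = (0, 0) := by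
      cases s
      · rw [r01_seg_false] at h1
        have h2' : B.chart x y ∈ segment ℝ (dv true d') (dv true (!d')) := h2
        rw [r01_seg_true] at h2'
        exact Prod.ext h2'.2.2 h1.2.2
      · rw [r01_seg_true] at h1
        have h2' : B.chart x y ∈ segment ℝ (dv false d') (dv false (!d')) := h2
        rw [r01_seg_false] at h2'
        exact Prod.ext h1.2.2 h2'.2.2
    rw [← h3, (B.chart x).left_inv hy]
  · rintro rfl
    rw [(B.chart x).right_inv ht]
    have hs := (B.chart x).map_target ht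
    have key : ∀ s d : Bool, ((0 : ℝ), (0 : ℝ)) ∈ segment ℝ (dv s d) (dv s (!d)) := by
      intro s d
      cases s
      · rw [r01_seg_false]
        norm_num
      · rw [r01_seg_true]
        norm_num
    exact ⟨⟨hs, key _ _⟩, hs, key _ _⟩

theorem mem_chord_straight {x : X} (hx : ω x = none) (d : Bool) {y : S}
    (hy : y ∈ (B.chart x).source) (hK : B.chart x y ∈ K2) :
    (y ∈ B.chord ω (x, false, d) ↔ (B.chart x y).2 = 0) ∧
      (y ∈ B.chord ω (x, true, d) ↔ (B.chart x y).1 = 0) := by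
  unfold K2 at hK
  obtain ⟨⟨h1, h2⟩, h3, h4⟩ := hK
  rw [r01_mem_chord hx, r01_mem_chord hx, r01_seg_false, r01_seg_true]
  exact ⟨⟨fun h => h.2.2.2, fun h => ⟨hy, h1, h2, h⟩⟩, ⟨fun h => h.2.2.2, fun h => ⟨hy, h3, h4, h⟩⟩⟩

end Pool.HexDraw
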