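import Pool.Agent.Lib.MP_8613e3_co_hex.RDefs
import Pool.Agent.Lib.MP_8613e3_co_hex.C02
import Pool.Agent.Lib.MP_8613e3_co_hex.R01

/-!
# R04: reversal and intersections of the point sets of trails (75 min)

`trailSet_rev`: both sets are the union of the `seg (inl v)`, `seg (inl w)` ... by induction on
the list (or on the walk) one shows for a walk `flip g → w'` along `l` that
`seg g ∪ ⋃ c ∈ l, (chord ω c ∪ seg (inr (mate ω c)))` equals
`seg w' ∪ ⋃ c ∈ l.map (mate ω), (chord ω c ∪ seg (inr (mate ω c)))`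
(`seg (flip g) = seg g`, `chord_mate`, `mate_mate`).
`trail_pt`: `pt k ∈ seg h` for a departure dart `h` of the trail: by `seg_pt` one of `h`,
`flip h` is a vertex dart with owner `k`; the only vertex dart among the departure darts is
`inl v` and the only one among the arrival darts is `inl w`. Chords lie in boxes (`pt_box`).
`trail_inter`: four cases.
* `y ∈ seg h`, `y ∈ seg h'`, `h`, `h'` departure darts of the two trails. By `seg_seg` `h' = h`
  (then `h` is `inl v = inl v'` or `inr (mate ω c) = inr (mate ω c')`, so `c = c'` is on both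
  lists, `trail_share`), or `h' = flip h` (then `h'` is `inl v'` and is the last arrival dart
  `inl w` of the first trail, excluded by `hvw' : v' ≠ w`; or `h' = inr (mate ω c')` is on the
  list of arrival darts `l`, and it is also on the list of the reversed second trail
  `w' → v'` (`trail_rev`), so `v = w'` by `trail_share`), or `y = pt i`, use `trail_pt` twice.
* `y ∈ seg h`, `y ∈ chord ω c'`: `seg_box` gives `y = bp (inr c₁)`, `c₁.1 = c'.1`,
  `inr c₁ = h` or `inr c₁ = flip h`, and `bp_mem_chord` gives `c₁ = c'` or `c₁ = mate ω c'`; so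
  one of the darts `c'`, `mate ω c'` is a departure or arrival dart of the first trail, and
  `trail_share` (for the trails and their reverses) gives a contradiction.
* symmetric.
* `y ∈ chord ω c`, `y ∈ chord ω c'`: then `c.1 = c'.1` by `disj` and `chord_sub_box`; `c' ≠ c`,
  `c' ≠ mate ω c` by `trail_share`; if `ω c.1 = some b`: `chord_disj`; if it is `none`, the
  darts are on different strands (`mate_none`), `chord_straight`.
`trail_chart`: `y` in the open box and on the trail: not in a segment (`seg_box` says that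
segments meet the box only in points `bp (inr c₁)`, which are not in the open box), not in a
chord of another box, so in `chord ω c` with `c ∈ l`, `c.1 = x`; by `hs` the strand of `c` is `s`;
conclude with `mem_chord_straight`.
-/

namespace Pool.HexDraw

open Set

variable {S : Type} [TopologicalSpace S] {n : ℕ} {X : Type}

theorem r04_walk {N : Net n X} {ω : State X} {l : List (CD X)} :
    ∀ {g w : Dart n X}, N.Walk ω g l w →
      l.map Sum.inr ++ [w] = g :: l.map (fun c => N.flip (Sum.inr (mate ω c))) := by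
  induction l with
  | nil =>
    intro g w h
    have h1 : g = w := h
    rw [h1]
    rfl
  | cons c l ih =>
    intro g w h
    obtain ⟨hg, h1⟩ := h
    have h2 := ih h1
    rw [List.map_cons, List.cons_append, h2, hg]
    rfl

/-- the darts of a trail -/
def r04On (ω : State X) (v w : VD n) (l : List (CD X)) (h : Dart n X) : Prop :=
  h = Sum.inl v ∨ h = Sum.inl w ∨ ∃ c ∈ l, h = Sum.inr c ∨ h = Sum.inr (mate ω c)

theorem r04_flip_dep {N : Net n X} {ω : State X} {v w : VD n} {l : List (CD X)}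
    (h : N.Trail ω v l w) {g : Dart n X}
    (hg : g = Sum.inl v ∨ ∃ c ∈ l, g = Sum.inr (mate ω c)) :
    N.flip g = Sum.inl w ∨ ∃ c ∈ l, N.flip g = Sum.inr c := by
  have h1 := r04_walk h
  have h2 : N.flip g ∈ N.flip (Sum.inl v) :: l.map (fun c => N.flip (Sum.inr (mate ω c))) := by
    rcases hg with rfl | ⟨c, hc, rfl⟩
    · exact List.mem_cons_self
    · exact List.mem_cons_of_mem _ (List.mem_map.2 ⟨c, hc, rfl⟩)
  rw [← h1] at h2
  rcases List.mem_append.1 h2 with h3 | h3
  · obtain ⟨c, hc, e⟩ := List.mem_map.1 h3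
    exact Or.inr ⟨c, hc, e.symm⟩
  · exact Or.inl (List.mem_singleton.1 h3)

theorem r04_flip_arr {N : Net n X} {ω : State X} {v w : VD n} {l : List (CD X)}
    (h : N.Trail ω v l w) {g : Dart n X}
    (hg : g = Sum.inl w ∨ ∃ c ∈ l, g = Sum.inr c) :
    N.flip g = Sum.inl v ∨ ∃ c ∈ l, N.flip g = Sum.inr (mate ω c) := by
  have h1 := r04_walk h
  have h2 : g ∈ l.map Sum.inr ++ [Sum.inl w] := by
    rcases hg with rfl | ⟨c, hc, rfl⟩
    · exact List.mem_append_right _ (List.mem_singleton.2 rfl)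
    · exact List.mem_append_left _ (List.mem_map.2 ⟨c, hc, rfl⟩)
  rw [h1] at h2
  rcases List.mem_cons.1 h2 with h3 | h3
  · left
    rw [h3, N.flip_flip]
  · obtain ⟨c, hc, e⟩ := List.mem_map.1 h3
    right
    refine ⟨c, hc, ?_⟩
    rw [← e, N.flip_flip]

theorem r04_on_flip {N : Net n X} {ω : State X} {v w : VD n} {l : List (CD X)}
    (h : N.Trail ω v l w) {g : Dart n X} (hg : r04On ω v w l g) : r04On ω v w l (N.flip g) := by
  rcases hg with hg | hg | ⟨c, hc, hg | hg⟩
  · rcases r04_flip_dep h (Or.inl hg) with h1 | ⟨c, hc, h1⟩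
    · exact Or.inr (Or.inl h1)
    · exact Or.inr (Or.inr ⟨c, hc, Or.inl h1⟩)
  · rcases r04_flip_arr h (Or.inl hg) with h1 | ⟨c, hc, h1⟩
    · exact Or.inl h1
    · exact Or.inr (Or.inr ⟨c, hc, Or.inr h1⟩)
  · rcases r04_flip_arr h (Or.inr ⟨c, hc, hg⟩) with h1 | ⟨c, hc, h1⟩
    · exact Or.inl h1
    · exact Or.inr (Or.inr ⟨c, hc, Or.inr h1⟩)
  · rcases r04_flip_dep h (Or.inr ⟨c, hc, hg⟩) with h1 | ⟨c, hc, h1⟩
    · exact Or.inr (Or.inl h1)
    · exact Or.inr (Or.inr ⟨c, hc, Or.inl h1⟩)

theorem r04_on_disj {N : Net n X} {ω : State X} {v w v' w' : VD n} {l l' : List (CD X)}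
    (h : N.Trail ω v l w) (h' : N.Trail ω v' l' w') (hv : v ≠ v') (hvw : v ≠ w')
    (hvw' : v' ≠ w) (hw : w ≠ w') {g : Dart n X} (hg : r04On ω v w l g)
    (hg' : r04On ω v' w' l' g) : False := by
  have mem : ∀ {l : List (CD X)} {c : CD X}, c ∈ l → mate ω c ∈ (l.map (mate ω)).reverse := by
    intro l c hc
    exact List.mem_reverse.2 (List.mem_map.2 ⟨c, hc, rfl⟩)
  rcases hg with rfl | rfl | ⟨c, hc, rfl | rfl⟩
  · rcases hg' with e | e | ⟨c', _, e | e⟩
    · exact hv (Sum.inl.inj e)
    · exact hvw (Sum.inl.inj e)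
    · cases e
    · cases e
  · rcases hg' with e | e | ⟨c', _, e | e⟩
    · exact hvw' (Sum.inl.inj e).symm
    · exact hw (Sum.inl.inj e)
    · cases e
    · cases e
  · rcases hg' with e | e | ⟨c', hc', e | e⟩
    · cases e
    · cases e
    · have e1 := Sum.inr.inj e
      subst e1
      exact hv (trail_share h h' hc hc').1
    · have e1 := Sum.inr.inj e
      have h1 := mem hc'
      rw [← e1] at h1
      exact hvw (trail_share h (trail_rev h') hc h1).1
  · rcases hg' with e | e | ⟨c', hc', e | e⟩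
    · cases e
    · cases e
    · have e1 := Sum.inr.inj e
      have h1 := mem hc
      rw [e1] at h1
      exact hvw' (trail_share (trail_rev h) h' h1 hc').1.symm
    · have e1 := Sum.inr.inj e
      have e2 : c = c' := by rw [← mate_mate ω c, e1, mate_mate]
      subst e2
      exact hv (trail_share h h' hc hc').1

/-- the two kinds of points of a trail -/
theorem r04_mem {T : TopNet S n X} {ω : State X} {v : VD n} {l : List (CD X)} {y : S} :
    y ∈ T.trailSet ω v l ↔ (∃ g : Dart n X, (g = Sum.inl v ∨ ∃ c ∈ l, g = Sum.inr (mate ω c)) ∧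
      y ∈ T.seg g) ∨ ∃ c ∈ l, y ∈ T.toBoxes.chord ω c := by
  constructor
  · rintro (h | ⟨c, hc, h | h⟩)
    · exact Or.inl ⟨_, Or.inl rfl, h⟩
    · exact Or.inr ⟨c, hc, h⟩
    · exact Or.inl ⟨_, Or.inr ⟨c, hc, rfl⟩, h⟩
  · rintro (⟨g, rfl | ⟨c, hc, rfl⟩, h⟩ | ⟨c, hc, h⟩)
    · exact Or.inl h
    · exact Or.inr ⟨c, hc, Or.inr h⟩
    · exact Or.inr ⟨c, hc, Or.inl h⟩

theorem trailSet_rev (T : TopNet S n X) {ω : State X} {v w : VD n} {l : List (CD X)}
    (h : T.toNet.Trail ω v l w) :
    T.trailSet ω w (l.map (mate ω)).reverse = T.trailSet ω v l := by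
  have sub : ∀ {v w : VD n} {l : List (CD X)}, T.toNet.Trail ω v l w →
      T.trailSet ω v l ⊆ T.trailSet ω w (l.map (mate ω)).reverse := by
    intro v w l h y hy
    rcases r04_mem.1 hy with ⟨g, hg, hy⟩ | ⟨c, hc, hy⟩
    · refine r04_mem.2 (Or.inl ⟨T.flip g, ?_, by rw [T.seg_flip]; exact hy⟩)
      rcases r04_flip_dep h hg with h1 | ⟨c, hc, h1⟩
      · exact Or.inl h1
      · refine Or.inr ⟨mate ω c, List.mem_reverse.2 (List.mem_map.2 ⟨c, hc, rfl⟩), ?_⟩
        rw [mate_mate]
        exact h1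
    · refine r04_mem.2 (Or.inr ⟨mate ω c, List.mem_reverse.2 (List.mem_map.2 ⟨c, hc, rfl⟩), ?_⟩)
      rw [chord_mate]
      exact hy
  refine Subset.antisymm ?_ (sub h)
  have h1 := sub (trail_rev h)
  have h2 : (((l.map (mate ω)).reverse).map (mate ω)).reverse = l := by
    rw [List.map_reverse, List.reverse_reverse, List.map_map]
    conv_rhs => rw [← List.map_id l]
    refine List.map_congr_left (fun c _ => ?_)
    exact mate_mate ω c
  rw [h2] at h1
  exact h1

theorem trail_pt (T : TopNet S n X) {ω : State X} {v w : VD n} {l : List (CD X)}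
    (h : T.toNet.Trail ω v l w) {k : Fin n} (hk : T.pt k ∈ T.trailSet ω v l) :
    k = v.1.1 ∨ k = w.1.1 := by
  rcases r04_mem.1 hk with ⟨g, hg, hy⟩ | ⟨c, hc, hy⟩
  · obtain ⟨v0, h0, h1 | h1⟩ := T.seg_pt g k hy
    · rcases hg with hg | ⟨c, hc, hg⟩
      · left
        rw [hg] at h1
        rw [← Sum.inl.inj h1, h0]
      · rw [hg] at h1
        cases h1
    · rcases r04_flip_dep h hg with h2 | ⟨c, hc, h2⟩
      · right
        rw [h2] at h1
        rw [← Sum.inl.inj h1, h0]
      · rw [h2] at h1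
        cases h1
  · exact absurd (chord_sub_box c hy) (T.pt_box k c.1)

theorem r04_on_dep {ω : State X} {v w : VD n} {l : List (CD X)} {g : Dart n X}
    (hg : g = Sum.inl v ∨ ∃ c ∈ l, g = Sum.inr (mate ω c)) : r04On ω v w l g := by
  rcases hg with hg | ⟨c, hc, hg⟩
  · exact Or.inl hg
  · exact Or.inr (Or.inr ⟨c, hc, Or.inr hg⟩)

theorem r04_seg_chord (T : TopNet S n X) {ω : State X} {v w v' w' : VD n} {l l' : List (CD X)}
    (h : T.toNet.Trail ω v l w) {g : Dart n X} (hg : r04On ω v w l g) {c : CD X} (hc : c ∈ l')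
    {y : S} (hy : y ∈ T.seg g) (hy' : y ∈ T.toBoxes.chord ω c) :
    ∃ g', r04On ω v w l g' ∧ r04On ω v' w' l' g' := by
  obtain ⟨c1, h1, h2, h3⟩ := T.seg_box g c.1 y hy (chord_sub_box c hy')
  refine ⟨Sum.inr c1, ?_, ?_⟩
  · rcases h3 with h3 | h3
    · rw [h3]
      exact hg
    · rw [h3]
      exact r04_on_flip h hg
  · rw [h2] at hy'
    rcases bp_mem_chord h1 hy' with h4 | h4
    · exact Or.inr (Or.inr ⟨c, hc, Or.inl (by rw [h4])⟩)
    · exact Or.inr (Or.inr ⟨c, hc, Or.inr (by rw [h4])⟩)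

theorem trail_inter (T : TopNet S n X) {ω : State X} {v w v' w' : VD n} {l l' : List (CD X)}
    (h : T.toNet.Trail ω v l w) (h' : T.toNet.Trail ω v' l' w') (hv : v ≠ v') (hvw : v ≠ w')
    (hvw' : v' ≠ w) (hw : w ≠ w') {y : S}
    (hy : y ∈ T.trailSet ω v l) (hy' : y ∈ T.trailSet ω v' l') :
    (∃ i, y = T.pt i ∧ (i = v.1.1 ∨ i = w.1.1) ∧ (i = v'.1.1 ∨ i = w'.1.1)) ∨
    ∃ x s d d', ω x = none ∧ (x, s, d) ∈ l ∧ (x, !s, d') ∈ l' ∧
      y = (T.chart x).symm (0, 0) := by
  rcases r04_mem.1 hy with ⟨g, hg, h1⟩ | ⟨c, hc, h1⟩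
  · rcases r04_mem.1 hy' with ⟨g', hg', h1'⟩ | ⟨c', hc', h1'⟩
    · rcases T.seg_seg g g' y h1 h1' with h2 | h2 | ⟨i, h2⟩
      · rw [h2] at hg'
        exact absurd (r04_on_disj h h' hv hvw hvw' hw (r04_on_dep hg) (r04_on_dep hg')) id
      · have h3 : r04On ω v w l g' := by
          rw [h2]
          exact r04_on_flip h (r04_on_dep hg)
        exact absurd (r04_on_disj h h' hv hvw hvw' hw h3 (r04_on_dep hg')) id
      · left
        refine ⟨i, h2, ?_, ?_⟩
        · rw [h2] at hy
          exact trail_pt T h hy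
        · rw [h2] at hy'
          exact trail_pt T h' hy'
    · obtain ⟨g', h2, h3⟩ := r04_seg_chord T (v' := v') (w' := w') h (r04_on_dep hg) hc' h1 h1'
      exact absurd (r04_on_disj h h' hv hvw hvw' hw h2 h3) id
  · rcases r04_mem.1 hy' with ⟨g', hg', h1'⟩ | ⟨c', hc', h1'⟩
    · obtain ⟨g0, h2, h3⟩ := r04_seg_chord T (v' := v) (w' := w) h' (r04_on_dep hg') hc h1' h1
      exact absurd (r04_on_disj h h' hv hvw hvw' hw h3 h2) id
    · have hx : c.1 = c'.1 := by
        by_contra hne
        exact Set.disjoint_left.1 (T.disj _ _ hne) (chord_sub_box c h1) (chord_sub_box c' h1')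
      have hon : r04On ω v' w' l' (Sum.inr c') := Or.inr (Or.inr ⟨c', hc', Or.inl rfl⟩)
      have n1 : c' ≠ c := by
        intro e
        refine r04_on_disj h h' hv hvw hvw' hw ?_ hon
        rw [e]
        exact Or.inr (Or.inr ⟨c, hc, Or.inl rfl⟩)
      have n2 : c' ≠ mate ω c := by
        intro e
        refine r04_on_disj h h' hv hvw hvw' hw ?_ hon
        rw [e]
        exact Or.inr (Or.inr ⟨c, hc, Or.inr rfl⟩)
      cases hω : ω c.1 with
      | some b =>
        exact absurd h1' (Set.disjoint_left.1 (chord_disj hω hx.symm n1 n2) h1)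
      | none =>
        right
        obtain ⟨x, s, d⟩ := c
        obtain ⟨x', s', d'⟩ := c'
        have e1 : x = x' := hx
        subst e1
        have e2 : s' = !s := by
          by_contra hne
          have e3 : s' = s := by
            revert hne
            cases s <;> cases s' <;> simp
          subst e3
          rw [mate_none (c := (x, s', d)) hω] at n2
          revert n1 n2
          cases d <;> cases d' <;> simp
        subst e2
        refine ⟨x, s, d, d', hω, hc, hc', ?_⟩
        have h3 := chord_straight (B := T.toBoxes) (ω := ω) (x := x) hω s d d'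
        have h4 : y ∈ T.toBoxes.chord ω (x, s, d) ∩ T.toBoxes.chord ω (x, !s, d') := ⟨h1, h1'⟩
        rw [h3] at h4
        exact h4

theorem r04_dv (s d : Bool) : ¬ dv s d ∈ Ioo (-1 : ℝ) 1 ×ˢ Ioo (-1 : ℝ) 1 := by
  rintro ⟨⟨h1, h2⟩, ⟨h3, h4⟩⟩
  cases s <;> cases d <;> simp [dv] at h1 h2 h3 h4

theorem trail_chart (T : TopNet S n X) {ω : State X} {v w : VD n} {l : List (CD X)}
    (h : T.toNet.Trail ω v l w)
    (hs : ∀ x, ω x = none → ∀ d d', (x, false, d) ∈ l → (x, true, d') ∈ l → False)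
    {x : X} (hx : ω x = none) {s d : Bool} (hc : (x, s, d) ∈ l) {y : S}
    (hy : y ∈ (T.chart x).source)
    (hK : T.chart x y ∈ Ioo (-1 : ℝ) 1 ×ˢ Ioo (-1 : ℝ) 1) :
    y ∈ T.trailSet ω v l ↔ (if s then (T.chart x y).1 = 0 else (T.chart x y).2 = 0) := by
  have hK2 : T.chart x y ∈ K2 :=
    ⟨⟨hK.1.1.le, hK.1.2.le⟩, ⟨hK.2.1.le, hK.2.2.le⟩⟩
  have hbox : y ∈ T.toBoxes.box x := ⟨_, hK2, (T.chart x).left_inv hy⟩
  have hst : ∀ d : Bool, y ∈ T.toBoxes.chord ω (x, s, d) ↔
      (if s then (T.chart x y).1 = 0 else (T.chart x y).2 = 0) := by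
    intro d
    have h1 := mem_chord_straight (B := T.toBoxes) (ω := ω) hx d hy hK2
    cases s
    · exact h1.1
    · exact h1.2
  constructor
  · intro hm
    rcases r04_mem.1 hm with ⟨g, hg, h1⟩ | ⟨c, hc', h1⟩
    · obtain ⟨c1, h2, h3, -⟩ := T.seg_box g x y h1 hbox
      exfalso
      refine r04_dv c1.2.1 c1.2.2 ?_
      have h4 : T.chart x y = dv c1.2.1 c1.2.2 := by
        rw [h3]
        show T.chart x ((T.chart c1.1).symm (dv c1.2.1 c1.2.2)) = _
        rw [h2]
        exact (T.chart x).right_inv (T.sub x (dv_mem _ _))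
      rw [← h4]
      exact hK
    · have hx' : x = c.1 := by
        by_contra hne
        exact Set.disjoint_left.1 (T.disj _ _ hne) hbox (chord_sub_box c h1)
      obtain ⟨x', s', d'⟩ := c
      have e1 : x = x' := hx'
      subst e1
      by_cases e : s' = s
      · subst e
        exact (hst d').1 h1
      · exfalso
        cases s <;> cases s'
        · exact e rfl
        · exact hs x hx d d' hc hc'
        · exact hs x hx d' d hc' hc
        · exact e rfl
  · intro hm
    exact r04_mem.2 (Or.inr ⟨(x, s, d), hc, (hst d).2 hm⟩)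

end Pool.HexDraw
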