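import Pool.Agent.Lib.MP_8613e3_co_hex.R03
import Pool.Agent.Lib.MP_8613e3_co_hex.R04

/-!
# R05: a good state is realised by a drawing
-/

namespace Pool.HexDraw

open Set

variable {S : Type} [TopologicalSpace S] {n : ℕ} {X : Type}

theorem CrossAt.symm {x : S} {A B : Set S} (h : CrossAt x A B) : CrossAt x B A := by
  obtain ⟨φ, h1, h2, h3⟩ := h
  refine ⟨φ.transHomeomorph (Homeomorph.prodComm ℝ ℝ), h1, ?_, ?_⟩
  · show (Homeomorph.prodComm ℝ ℝ) (φ x) = (0, 0)
    rw [h2]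
    rfl
  · intro y hy
    exact ⟨(h3 y hy).2, (h3 y hy).1⟩

theorem exists_edges (T : TopNet S n X) {ω : State X} (hG : T.toNet.Good ω) :
    ∃ E : Fin n → Fin n → Set S, (∀ i j, E i j = E j i) ∧ ∀ i j, i ≠ j →
      ∃ v l w, v.1.1 = i ∧ w.1.1 = j ∧ T.toNet.Trail ω v l w ∧ E i j = T.trailSet ω v l := by
  classical
  choose v l w hv hw ht using hG.K
  refine ⟨fun i j => if h : i < j then T.trailSet ω (v i j h.ne) (l i j h.ne) else
    if h : j < i then T.trailSet ω (v j i h.ne) (l j i h.ne) else ∅, ?_, ?_⟩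
  · intro i j
    rcases lt_trichotomy i j with h | h | h
    · simp only [dif_pos h, dif_neg (not_lt.2 h.le)]
    · subst h; rfl
    · simp only [dif_pos h, dif_neg (not_lt.2 h.le)]
  · intro i j hij
    rcases lt_or_gt_of_ne hij with h | h
    · refine ⟨v i j h.ne, l i j h.ne, w i j h.ne, hv _ _ _, hw _ _ _, ht _ _ _, ?_⟩
      simp only [dif_pos h]
    · refine ⟨w j i h.ne, ((l j i h.ne).map (mate ω)).reverse, v j i h.ne, hw _ _ _, hv _ _ _,
        trail_rev (ht _ _ _), ?_⟩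
      simp only [dif_pos h, dif_neg (not_lt.2 h.le)]
      exact (trailSet_rev T (ht _ _ _)).symm

/-- the centre of a box -/
theorem r05_zero_mem : ((0, 0) : ℝ × ℝ) ∈ K2 := by
  unfold K2
  constructor <;> constructor <;> norm_num

theorem r05_center_box (T : TopNet S n X) (x : X) :
    (T.chart x).symm (0, 0) ∈ T.toBoxes.box x := ⟨(0, 0), r05_zero_mem, rfl⟩

/-- two disjoint edges -/
theorem r05_disj (T : TopNet S n X) {ω : State X} {v w v' w' : VD n}
    {l l' : List (CD X)} (h : T.toNet.Trail ω v l w) (h' : T.toNet.Trail ω v' l' w')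
    (hD : Dj v.1.1 w.1.1 v'.1.1 w'.1.1) {y : S} (hy : y ∈ T.trailSet ω v l)
    (hy' : y ∈ T.trailSet ω v' l') :
    ∃ x s d d', ω x = none ∧ (x, s, d) ∈ l ∧ (x, !s, d') ∈ l' ∧
      y = (T.chart x).symm (0, 0) := by
  obtain ⟨d1, d2, d3, d4⟩ := hD
  rcases trail_inter T h h' (fun e => d1 (by rw [e])) (fun e => d2 (by rw [e]))
    (fun e => d3 (by rw [e])) (fun e => d4 (by rw [e])) hy hy' with ⟨i, e, h1, h2⟩ | hx
  · exfalso
    rcases h1 with rfl | rfl
    · rcases h2 with h2 | h2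
      · exact d1 h2
      · exact d2 h2
    · rcases h2 with h2 | h2
      · exact d3 h2
      · exact d4 h2
  · exact hx

/-- two adjacent edges -/
theorem r05_adj (T : TopNet S n X) {ω : State X} (hG : T.toNet.Good ω) {v w v' w' : VD n}
    {l l' : List (CD X)} (h : T.toNet.Trail ω v l w) (h' : T.toNet.Trail ω v' l' w')
    (h1 : v.1.1 = v'.1.1) (h2 : v.1.1 ≠ w.1.1) (h3 : v'.1.1 ≠ w'.1.1) (h4 : w.1.1 ≠ w'.1.1)
    {y : S} (hy : y ∈ T.trailSet ω v l) (hy' : y ∈ T.trailSet ω v' l') : y = T.pt v.1.1 := by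
  rcases trail_inter T h h' (fun e => h4 (by
      subst e
      rw [(walk_det h h').2]))
    (fun e => h3 (by rw [← h1, e])) (fun e => h2 (by rw [h1, e]))
    (fun e => h4 (by rw [e])) hy hy' with ⟨i, e, k1, k2⟩ | ⟨x, s, d, d', k1, k2, k3, k4⟩
  · rcases k1 with k1 | k1
    · rw [e, k1]
    · rcases k2 with k2 | k2
      · rw [e, k2, h1]
      · exact absurd (k1.symm.trans k2) h4
  · exact (hG.adj v l w v' l' w' h h' h1 h2 h3 h4 x k1 s d d' k2 k3).elim

theorem r05_self (T : TopNet S n X) {ω : State X} (hG : T.toNet.Good ω) {v w : VD n}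
    {l : List (CD X)} (h : T.toNet.Trail ω v l w) (hvw : v.1.1 ≠ w.1.1) {x : X}
    (hx : ω x = none) {s t d e : Bool} (h1 : (x, s, d) ∈ l) (h2 : (x, t, e) ∈ l) : t = s := by
  cases s <;> cases t
  · rfl
  · exact (hG.self v l w h hvw x hx _ _ h1 h2).elim
  · exact (hG.self v l w h hvw x hx _ _ h2 h1).elim
  · rfl

/-- three pairwise disjoint edges -/
theorem r05_triple (T : TopNet S n X) {ω : State X} (hG : T.toNet.Good ω)
    {v w v' w' v'' w'' : VD n}
    {l l' l'' : List (CD X)} (h : T.toNet.Trail ω v l w) (h' : T.toNet.Trail ω v' l' w')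
    (h'' : T.toNet.Trail ω v'' l'' w'') (hvw : v.1.1 ≠ w.1.1)
    (hD : Dj v.1.1 w.1.1 v'.1.1 w'.1.1) (hD' : Dj v.1.1 w.1.1 v''.1.1 w''.1.1)
    (hD'' : Dj v'.1.1 w'.1.1 v''.1.1 w''.1.1) {y : S} (hy : y ∈ T.trailSet ω v l)
    (hy' : y ∈ T.trailSet ω v' l') (hy'' : y ∈ T.trailSet ω v'' l'') : False := by
  obtain ⟨x, s, d, d', a1, a2, a3, a4⟩ := r05_disj T h h' hD hy hy'
  obtain ⟨x', t, e, e', b1, b2, b3, b4⟩ := r05_disj T h h'' hD' hy hy''
  have hxx : x = x' := by
    by_contra hne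
    have m1 := r05_center_box T x
    have m2 := r05_center_box T x'
    rw [← a4] at m1
    rw [← b4] at m2
    exact (disjoint_left.1 (T.disj x x' hne)) m1 m2
  subst hxx
  have hts : t = s := r05_self T hG h hvw a1 a2 b2
  subst hts
  by_cases hde : d' = e'
  · subst hde
    exact hD''.1 (by rw [(trail_share h' h'' a3 b3).1])
  · have m : (x, !t, e') ∈ (l'.map (mate ω)).reverse := by
      rw [List.mem_reverse, List.mem_map]
      refine ⟨(x, !t, d'), a3, ?_⟩
      rw [mate_none (c := (x, !t, d')) a1]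
      cases d' <;> cases e' <;> simp_all
    exact hD''.2.2.1 (by rw [(trail_share (trail_rev h') h'' m b3).1])

theorem r05_dj_symm {i j k l : Fin n} (h : Dj i j k l) : Dj k l i j :=
  ⟨h.1.symm, h.2.2.1.symm, h.2.1.symm, h.2.2.2.symm⟩

/-- crossings of two disjoint edges -/
theorem r05_cross (T : TopNet S n X) {ω : State X} (hG : T.toNet.Good ω) {v w v' w' : VD n}
    {l l' : List (CD X)} (h : T.toNet.Trail ω v l w) (h' : T.toNet.Trail ω v' l' w')
    (hvw : v.1.1 ≠ w.1.1) (hvw' : v'.1.1 ≠ w'.1.1) {x : X} (hx : ω x = none) {d d' : Bool}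
    (h1 : (x, false, d) ∈ l) (h2 : (x, true, d') ∈ l') :
    CrossAt ((T.chart x).symm (0, 0)) (T.trailSet ω v l) (T.trailSet ω v' l') := by
  have hW : IsOpen (Ioo (-1 : ℝ) 1 ×ˢ Ioo (-1 : ℝ) 1) := isOpen_Ioo.prod isOpen_Ioo
  have hV := (T.chart x).isOpen_inter_preimage hW
  have ht : ((0, 0) : ℝ × ℝ) ∈ (T.chart x).target := T.sub x r05_zero_mem
  have e0 : T.chart x ((T.chart x).symm (0, 0)) = (0, 0) := (T.chart x).right_inv ht
  have s0 : (T.chart x).symm (0, 0) ∈ (T.chart x).source := (T.chart x).map_target ht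
  refine ⟨(T.chart x).restrOpen _ hV, ?_, e0, ?_⟩
  · refine ⟨s0, s0, ?_⟩
    show T.chart x ((T.chart x).symm (0, 0)) ∈ Ioo (-1 : ℝ) 1 ×ˢ Ioo (-1 : ℝ) 1
    rw [e0]
    constructor <;> constructor <;> norm_num
  · intro y hy
    have hy1 : y ∈ (T.chart x).source := hy.1
    have hy2 : T.chart x y ∈ Ioo (-1 : ℝ) 1 ×ˢ Ioo (-1 : ℝ) 1 := hy.2.2
    have c1 := trail_chart T h (hG.self v l w h hvw) hx h1 hy1 hy2
    have c2 := trail_chart T h' (hG.self v' l' w' h' hvw') hx h2 hy1 hy2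
    simp only [Bool.false_eq_true, if_false] at c1
    simp only [if_true] at c2
    exact ⟨c1, c2⟩

theorem realise [Finite X] (T : TopNet S n X) {ω : State X} (hG : T.toNet.Good ω) :
    ∃ D : Drawing S n, D.cr ≤ (strt ω).ncard := by
  obtain ⟨E, hE1, hE2⟩ := exists_edges T hG
  have harc : ∀ i j, i ≠ j → IsArc (T.pt i) (T.pt j) (E i j) := by
    intro i j hij
    obtain ⟨v, l, w, hv, hw, ht, he⟩ := hE2 i j hij
    subst hv
    subst hw
    rw [he]
    exact trail_arc T ht hij (hG.self v l w ht hij)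
  have hdj : ∀ i j k m, i ≠ j → k ≠ m → Dj i j k m → ∀ y ∈ E i j ∩ E k m,
      ∃ x, ω x = none ∧ y = (T.chart x).symm (0, 0) := by
    intro i j k m hij hkm hD y hy
    obtain ⟨v, l, w, hv, hw, ht, he⟩ := hE2 i j hij
    obtain ⟨v', l', w', hv', hw', ht', he'⟩ := hE2 k m hkm
    subst hv
    subst hw
    subst hv'
    subst hw'
    rw [he, he'] at hy
    obtain ⟨x, s, d, d', a1, a2, a3, a4⟩ := r05_disj T ht ht' hD hy.1 hy.2
    exact ⟨x, a1, a4⟩
  refine ⟨{ pt := T.pt
            edge := E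
            pt_inj := T.pt_inj
            symm := hE1
            arc := harc
            avoid := ?_
            adjacent := ?_
            once := ?_
            cross := ?_
            noTriple := ?_ }, ?_⟩
  · intro i j k hij hki hkj hk
    obtain ⟨v, l, w, hv, hw, ht, he⟩ := hE2 i j hij
    rw [he] at hk
    rcases trail_pt T ht hk with h | h
    · exact hki (h.trans hv)
    · exact hkj (h.trans hw)
  · intro i j k hij hik hjk
    apply Subset.antisymm
    · rintro y ⟨hy1, hy2⟩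
      obtain ⟨v, l, w, hv, hw, ht, he⟩ := hE2 i j hij
      obtain ⟨v', l', w', hv', hw', ht', he'⟩ := hE2 i k hik
      rw [he] at hy1
      rw [he'] at hy2
      have := r05_adj T hG ht ht' (hv.trans hv'.symm) (by rw [hv, hw]; exact hij)
        (by rw [hv', hw']; exact hik) (by rw [hw, hw']; exact hjk) hy1 hy2
      rw [hv] at this
      exact this
    · rintro y rfl
      exact ⟨(harc i j hij).left_mem, (harc i k hik).left_mem⟩
  · intro i j k m hij hkm hD y hy z hz
    obtain ⟨v, l, w, hv, hw, ht, he⟩ := hE2 i j hij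
    obtain ⟨v', l', w', hv', hw', ht', he'⟩ := hE2 k m hkm
    subst hv
    subst hw
    subst hv'
    subst hw'
    rw [he, he'] at hy hz
    obtain ⟨x, s, d, d', a1, a2, a3, a4⟩ := r05_disj T ht ht' hD hy.1 hy.2
    obtain ⟨x', t, e, e', b1, b2, b3, b4⟩ := r05_disj T ht ht' hD hz.1 hz.2
    have := hG.dbl v l w v' l' w' ht ht' hij hkm hD x x' a1 b1 s d d' t e e' a2 a3 b2 b3
    rw [a4, b4, this]
  · intro i j k m hij hkm hD y hy
    obtain ⟨v, l, w, hv, hw, ht, he⟩ := hE2 i j hij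
    obtain ⟨v', l', w', hv', hw', ht', he'⟩ := hE2 k m hkm
    subst hv
    subst hw
    subst hv'
    subst hw'
    rw [he, he'] at hy ⊢
    obtain ⟨x, s, d, d', a1, a2, a3, a4⟩ := r05_disj T ht ht' hD hy.1 hy.2
    rw [a4]
    cases s
    · exact r05_cross T hG ht ht' hij hkm a1 a2 a3
    · exact (r05_cross T hG ht' ht hkm hij a1 a3 a2).symm
  · intro i j k m u z hij hkm huz h1 h2 h3
    rw [Set.eq_empty_iff_forall_notMem]
    rintro y ⟨⟨hy1, hy2⟩, hy3⟩
    obtain ⟨v, l, w, hv, hw, ht, he⟩ := hE2 i j hij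
    obtain ⟨v', l', w', hv', hw', ht', he'⟩ := hE2 k m hkm
    obtain ⟨v'', l'', w'', hv'', hw'', ht'', he''⟩ := hE2 u z huz
    subst hv
    subst hw
    subst hv'
    subst hw'
    subst hv''
    subst hw''
    rw [he] at hy1
    rw [he'] at hy2
    rw [he''] at hy3
    exact r05_triple T hG ht ht' ht'' hij h1 h2 h3 hy1 hy2 hy3
  · unfold Drawing.cr
    refine (Set.ncard_le_ncard (t := (fun x => (T.chart x).symm (0, 0)) '' strt ω) ?_
      (Set.toFinite _)).trans (Set.ncard_image_le (Set.toFinite _))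
    rintro y ⟨i, j, k, m, hij, hkm, hD, hy1, hy2⟩
    obtain ⟨x, hx, e⟩ := hdj i j k m hij hkm hD y ⟨hy1, hy2⟩
    exact ⟨x, hx, e.symm⟩

end Pool.HexDraw
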