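import Pool.Agent.Lib.MP_8613e3_co_hex.H01
import Pool.Agent.Lib.MP_8613e3_co_hex.P06
import Pool.Agent.Lib.MP_8613e3_co_hex.P07
import Pool.Agent.Lib.MP_8613e3_co_hex.P08
import Pool.Agent.Lib.MP_8613e3_co_hex.C06
import Pool.Agent.Lib.MP_8613e3_co_hex.R05

/-!
# H02: a drawing with a twisted hexagon is not optimal
-/

namespace Pool.HexDraw

open Set

variable {S : Type} [TopologicalSpace S] {n : ℕ}

theorem twisted_hexagon [T2Space S] (D : Drawing S n) {h : Fin 6 → Fin n}
    (hh : D.TwistedHexagon h) : ∃ D' : Drawing S n, D'.cr + 6 ≤ D.cr := by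
  have hfin : Finite D.crossings := (crossings_finite D).to_subtype
  obtain ⟨G⟩ := exists_geo D
  obtain ⟨M⟩ := exists_lineNet G.L
  obtain ⟨T, hT⟩ := exists_topNet G M
  obtain ⟨E, hE⟩ := exists_edgeNet G M
  obtain ⟨ω, hK, hω⟩ := hexagon_state E hh
  rw [hE, ← hT] at hK
  obtain ⟨ω', hG, hle⟩ := exists_good hK
  obtain ⟨D', hD'⟩ := realise T hG
  exact ⟨D', by omega⟩

theorem hexagon_of_contains {p : ℕ} (D : Drawing S n) (D₀ : Drawing S p) {h : Fin 6 → Fin p}
    (hh : D₀.TwistedHexagon h) (hc : D.Contains D₀) : ∃ h', D.TwistedHexagon h' := by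
  obtain ⟨ι, f, hι, hpt, hedge⟩ := hc
  obtain ⟨hinj, P, hP⟩ := hh
  have hne : ∀ a b : Fin 6, a ≠ b → h a ≠ h b := fun a b hab e => hab (hinj e)
  refine ⟨ι ∘ h, hι.comp hinj, f ∘ P, fun k => ?_⟩
  have h1 : k - 1 ≠ k := by revert k; decide
  have h2 : k + 1 ≠ k + 2 := by revert k; decide
  have h3 : k ≠ k + 1 := by revert k; decide
  obtain ⟨a, b, c⟩ := hP k
  refine ⟨?_, ?_, ?_⟩
  · have := hedge _ _ (hne _ _ h1)
    simp only [Function.comp]
    rw [← this]
    exact mem_image_of_mem _ a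
  · have := hedge _ _ (hne _ _ h2)
    simp only [Function.comp]
    rw [← this]
    exact mem_image_of_mem _ b
  · have := hedge _ _ (hne _ _ h3)
    simp only [Function.comp]
    rw [← this, ← hpt]
    exact c.image f.continuous.continuousOn f.injective.injOn

end Pool.HexDraw
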