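import Pool.Agent.Lib.MP_8613e3_co_hex.Defs

/-!
# Internal definitions: nets, states, walks, boxes

`VD n`: vertex darts (the dart `(i,j)` leaves the vertex `i` along the edge `ij`).
`CD X`: crossing darts; the crossing `x` has the four darts `(x,s,d)`, `s` is the strand,
`d` the direction; in the chart of `x` the dart `(x,s,d)` ends in the point `dv s d`.
A net is a fixed point free involution `flip` of the darts: `flip h` is the dart at the other end
of the piece of edge which leaves along `h`.
A state `ω` chooses at each crossing `x` a pairing of the four darts: `none` goes straight on,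
`some b` are the two smoothings.
-/

namespace Pool.HexDraw

open Set

abbrev VD (n : ℕ) : Type := {p : Fin n × Fin n // p.1 ≠ p.2}

/-- The reversed vertex dart. -/
def VD.rev {n : ℕ} (v : VD n) : VD n := ⟨(v.1.2, v.1.1), fun h => v.2 h.symm⟩

abbrev CD (X : Type) : Type := X × Bool × Bool

abbrev Dart (n : ℕ) (X : Type) : Type := VD n ⊕ CD X

abbrev State (X : Type) : Type := X → Option Bool

/-- The partner of a crossing dart in the state `ω`. -/
def mate {X : Type} (ω : State X) (c : CD X) : CD X :=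
  match ω c.1 with
  | none => (c.1, c.2.1, !c.2.2)
  | some b => (c.1, !c.2.1, xor b c.2.2)

/-- The straight state. -/
def st0 (X : Type) : State X := fun _ => none

structure Net (n : ℕ) (X : Type) where
  flip : Dart n X → Dart n X
  flip_flip : ∀ h, flip (flip h) = h
  flip_ne : ∀ h, flip h ≠ h

variable {n : ℕ} {X : Type}

/-- `N.Walk ω g l w`: starting at the arrival dart `g` and turning at every crossing as `ω`
says, one arrives successively at the crossing darts in the list `l` and then at `w`. -/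
def Net.Walk (N : Net n X) (ω : State X) : Dart n X → List (CD X) → Dart n X → Prop
  | g, [], w => g = w
  | g, c :: l, w => g = Sum.inr c ∧ Net.Walk N ω (N.flip (Sum.inr (mate ω c))) l w

/-- The trail which leaves along the vertex dart `v` passes the crossing darts `l` (as arrival
darts) and ends in the vertex dart `w`. -/
def Net.Trail (N : Net n X) (ω : State X) (v : VD n) (l : List (CD X)) (w : VD n) : Prop :=
  N.Walk ω (N.flip (Sum.inl v)) l (Sum.inl w)

/-- Any two different vertices are joined by a trail. -/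
def Net.K (N : Net n X) (ω : State X) : Prop :=
  ∀ i j : Fin n, i ≠ j → ∃ v l w, v.1.1 = i ∧ w.1.1 = j ∧ N.Trail ω v l w

/-- The set of straight crossings of a state. -/
def strt (ω : State X) : Set X := {x | ω x = none}

/-- Good states. -/
structure Net.Good (N : Net n X) (ω : State X) : Prop where
  K : N.K ω
  self : ∀ v l w, N.Trail ω v l w → v.1.1 ≠ w.1.1 → ∀ x, ω x = none → ∀ d d',
    (x, false, d) ∈ l → (x, true, d') ∈ l → False
  adj : ∀ v l w v' l' w', N.Trail ω v l w → N.Trail ω v' l' w' → v.1.1 = v'.1.1 →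
    v.1.1 ≠ w.1.1 → v'.1.1 ≠ w'.1.1 → w.1.1 ≠ w'.1.1 → ∀ x, ω x = none → ∀ s d d',
    (x, s, d) ∈ l → (x, !s, d') ∈ l' → False
  dbl : ∀ v l w v' l' w', N.Trail ω v l w → N.Trail ω v' l' w' →
    v.1.1 ≠ w.1.1 → v'.1.1 ≠ w'.1.1 → Dj v.1.1 w.1.1 v'.1.1 w'.1.1 → ∀ x y, ω x = none →
    ω y = none → ∀ s d d' t e e', (x, s, d) ∈ l → (x, !s, d') ∈ l' → (y, t, e) ∈ l →
    (y, !t, e') ∈ l' → x = y

/-- The four directions in the plane. -/
def dv : Bool → Bool → ℝ × ℝ
  | false, true => (1, 0)
  | false, false => (-1, 0)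
  | true, true => (0, 1)
  | true, false => (0, -1)

/-- The closed box `[-1,1]²`. -/
def K2 : Set (ℝ × ℝ) := Icc (-1) 1 ×ˢ Icc (-1) 1

variable {S : Type} [TopologicalSpace S]

/-- Vertices and charts around the crossings. -/
structure Boxes (S : Type) [TopologicalSpace S] (n : ℕ) (X : Type) where
  pt : Fin n → S
  pt_inj : Function.Injective pt
  chart : X → OpenPartialHomeomorph S (ℝ × ℝ)
  sub : ∀ x, K2 ⊆ (chart x).target

/-- The closed box around the crossing `x`. -/
def Boxes.box (B : Boxes S n X) (x : X) : Set S := (B.chart x).symm '' K2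

/-- The end point of a dart. -/
def Boxes.bp (B : Boxes S n X) : Dart n X → S
  | Sum.inl v => B.pt v.1.1
  | Sum.inr c => (B.chart c.1).symm (dv c.2.1 c.2.2)

/-- The straight chord in the box of `c.1` from the dart `c` to its partner in the state `ω`. -/
def Boxes.chord (B : Boxes S n X) (ω : State X) (c : CD X) : Set S :=
  (B.chart c.1).symm '' segment ℝ (dv c.2.1 c.2.2) (dv (mate ω c).2.1 (mate ω c).2.2)

/-- A net realised in `S`: disjoint boxes around the crossings and arcs `seg h = seg (flip h)`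
between the boxes and the vertices. -/
structure TopNet (S : Type) [TopologicalSpace S] (n : ℕ) (X : Type) extends
    Boxes S n X, Net n X where
  disj : ∀ x y, x ≠ y → Disjoint (toBoxes.box x) (toBoxes.box y)
  pt_box : ∀ i x, pt i ∉ toBoxes.box x
  seg : Dart n X → Set S
  seg_flip : ∀ h, seg (flip h) = seg h
  seg_arc : ∀ h, IsArc (toBoxes.bp h) (toBoxes.bp (flip h)) (seg h)
  seg_box : ∀ h x y, y ∈ seg h → y ∈ toBoxes.box x → ∃ c : CD X, c.1 = x ∧
    y = toBoxes.bp (Sum.inr c) ∧ (Sum.inr c = h ∨ Sum.inr c = flip h)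
  seg_pt : ∀ h i, pt i ∈ seg h → ∃ v : VD n, v.1.1 = i ∧ (Sum.inl v = h ∨ Sum.inl v = flip h)
  seg_seg : ∀ h h' y, y ∈ seg h → y ∈ seg h' → h' = h ∨ h' = flip h ∨ ∃ i, y = pt i

/-- The net of a drawing, with the positions of its crossings on the edges. The crossing dart `c`
lies on the edge `(dir c).1.1 (dir c).1.2` and points towards `(dir c).1.2`. -/
structure EdgeNet (D : Drawing S n) extends Net n D.crossings where
  dir : CD D.crossings → VD n
  dir_opp : ∀ x s d, dir (x, s, !d) = (dir (x, s, d)).rev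
  dir_mem : ∀ c : CD D.crossings, c.1.1 ∈ D.edge (dir c).1.1 (dir c).1.2
  dir_disj : ∀ x d d', Dj (dir (x, false, d)).1.1 (dir (x, false, d)).1.2
    (dir (x, true, d')).1.1 (dir (x, true, d')).1.2
  walk_vertex : ∀ v : VD n, ∃ l, toNet.Trail (st0 _) v l v.rev ∧
    ∀ c ∈ l, c.1.1 ∈ D.edge v.1.1 v.1.2
  walk_cross : ∀ (v : VD n) (x : D.crossings), x.1 ∈ D.edge v.1.1 v.1.2 → ∃ c l, c.1 = x ∧
    dir c = v.rev ∧ toNet.Walk (st0 _) (flip (Sum.inl v)) l (Sum.inr c) ∧
    ∀ c' ∈ l, c'.1.1 ∈ D.edge v.1.1 v.1.2 ∧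
      Before (D.edge v.1.1 v.1.2) (D.pt v.1.1) c'.1.1 x.1

end Pool.HexDraw
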