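import Pool.Agent.Lib.MP_8613e3_co_hex.R02

/-!
# P01: the order on an arc does not depend on the parametrisation; finiteness (45 min)

`param_mono`: for `t ∈ [0,1]` let `g t` be the unique parameter with `γ' (g t) = γ t`. The map
`γ'` restricted to the compact interval is a closed embedding (`S` is Hausdorff), so `g` is
continuous on `[0,1]`; it is injective and `g 0 = 0`, so it is strictly increasing
(`ContinuousOn.strictMonoOn_of_injOn_Icc` or `Continuous.strictMono_of_inj`-style lemmas).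
`before_iff`: apply `param_mono` to the parametrisation hidden in `Before`.
`crossings_finite`: the set is the union over the finitely many `(i,j,k,l)` of subsingletons
(`D.once`).
-/

namespace Pool.HexDraw

open Set

variable {S : Type} [TopologicalSpace S] {n : ℕ}

theorem param_mono [T2Space S] {γ γ' : ℝ → S} {p q q' : S} {A : Set S} (h : Param γ p q A)
    (h' : Param γ' p q' A) : ∃ g : ℝ → ℝ, StrictMonoOn g (Icc 0 1) ∧
      MapsTo g (Icc 0 1) (Icc 0 1) ∧ ∀ t ∈ Icc (0 : ℝ) 1, γ' (g t) = γ t := by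
  obtain ⟨hc, hi, h0, h1, hA⟩ := h
  obtain ⟨hc', hi', h0', h1', hA'⟩ := h'
  have hex : ∀ t : Icc (0 : ℝ) 1, ∃ u : Icc (0 : ℝ) 1, γ' u = γ t := by
    intro t
    have h2 : γ t ∈ γ' '' Icc 0 1 := by
      rw [hA', ← hA]
      exact ⟨t, t.2, rfl⟩
    obtain ⟨u, hu, hu'⟩ := h2
    exact ⟨⟨u, hu⟩, hu'⟩
  choose G hG using hex
  have hF' : Continuous (fun t : Icc (0 : ℝ) 1 => γ' t) := continuousOn_iff_continuous_domRestrict.1 hc'
  have hF : Continuous (fun t : Icc (0 : ℝ) 1 => γ t) := continuousOn_iff_continuous_domRestrict.1 hc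
  have hinj : Function.Injective (fun t : Icc (0 : ℝ) 1 => γ' t) := by
    intro a b hab
    exact Subtype.ext (hi' a.2 b.2 hab)
  have hemb := hF'.isClosedEmbedding hinj
  have hGc : Continuous G := by
    rw [hemb.isEmbedding.continuous_iff]
    have : (fun t : Icc (0 : ℝ) 1 => γ' t) ∘ G = fun t : Icc (0 : ℝ) 1 => γ t := by
      funext t
      exact hG t
    rw [this]
    exact hF
  set g : ℝ → ℝ := fun t => (G (projIcc 0 1 zero_le_one t) : ℝ) with hg
  have hgt : ∀ t (ht : t ∈ Icc (0 : ℝ) 1), g t = G ⟨t, ht⟩ := by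
    intro t ht
    simp only [hg]
    rw [projIcc_of_mem zero_le_one ht]
  have hgc : Continuous g := continuous_subtype_val.comp (hGc.comp continuous_projIcc)
  have hmaps : MapsTo g (Icc 0 1) (Icc 0 1) := fun t _ => (G _).2
  have hγ : ∀ t ∈ Icc (0 : ℝ) 1, γ' (g t) = γ t := by
    intro t ht
    rw [hgt t ht]
    exact hG ⟨t, ht⟩
  have hgi : InjOn g (Icc 0 1) := by
    intro a ha b hb hab
    apply hi ha hb
    rw [← hγ a ha, ← hγ b hb, hab]
  have hz : (0 : ℝ) ∈ Icc (0 : ℝ) 1 := by simp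
  have ho : (1 : ℝ) ∈ Icc (0 : ℝ) 1 := by simp
  have hg0 : g 0 = 0 := by
    apply hi' (hmaps hz) hz
    rw [hγ 0 hz, h0, h0']
  refine ⟨g, ?_, hmaps, hγ⟩
  refine ContinuousOn.strictMonoOn_of_injOn_Icc zero_le_one ?_ hgc.continuousOn hgi
  rw [hg0]
  exact (hmaps ho).1

theorem before_iff [T2Space S] {γ : ℝ → S} {p q x y : S} {A : Set S} (h : Param γ p q A) :
    Before A p x y ↔ ∃ s t : ℝ, 0 ≤ s ∧ s < t ∧ t ≤ 1 ∧ γ s = x ∧ γ t = y := by
  constructor
  · rintro ⟨q', γ', h', s, t, h0, h1, h2, h3, h4⟩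
    obtain ⟨g, hg, hm, hγ⟩ := param_mono h' h
    have hs : s ∈ Icc (0 : ℝ) 1 := ⟨h0, by linarith⟩
    have ht : t ∈ Icc (0 : ℝ) 1 := ⟨by linarith, h2⟩
    exact ⟨g s, g t, (hm hs).1, hg hs ht h1, (hm ht).2, (hγ s hs).trans h3, (hγ t ht).trans h4⟩
  · rintro ⟨s, t, h1⟩
    exact ⟨q, γ, h, s, t, h1⟩

theorem Before.ne {p x y : S} {A : Set S} (h : Before A p x y) : x ≠ y := by
  obtain ⟨q, γ, ⟨-, hi, -⟩, s, t, h0, h1, h2, h3, h4⟩ := h
  intro hxy
  have hs : s ∈ Icc (0 : ℝ) 1 := ⟨h0, by linarith⟩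
  have ht : t ∈ Icc (0 : ℝ) 1 := ⟨by linarith, h2⟩
  have := hi hs ht (by rw [h3, h4, hxy])
  linarith

theorem Before.asymm [T2Space S] {p x y : S} {A : Set S} (h : Before A p x y) :
    ¬ Before A p y x := by
  intro h'
  obtain ⟨q, γ, hP, s, t, h0, h1, h2, h3, h4⟩ := h
  rw [before_iff hP] at h'
  obtain ⟨s', t', h0', h1', h2', h3', h4'⟩ := h'
  obtain ⟨-, hi, -⟩ := hP
  have e1 : s' = t := hi ⟨h0', by linarith⟩ ⟨by linarith, h2⟩ (by rw [h3', h4])
  have e2 : t' = s := hi ⟨by linarith, h2'⟩ ⟨h0, by linarith⟩ (by rw [h4', h3])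
  linarith

theorem Before.rev [T2Space S] {p q x y : S} {A : Set S} (hA : IsArc p q A)
    (h : Before A p x y) : Before A q y x := by
  obtain ⟨γ, hγ⟩ := hA
  rw [before_iff hγ] at h
  obtain ⟨s, t, h0, h1, h2, h3, h4⟩ := h
  refine ⟨p, _, hγ.symm, 1 - t, 1 - s, by linarith, by linarith, by linarith, ?_, ?_⟩
  · simp only [sub_sub_cancel]
    exact h4
  · simp only [sub_sub_cancel]
    exact h3

theorem crossings_finite (D : Drawing S n) : D.crossings.Finite := by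
  have h : D.crossings ⊆ ⋃ p : Fin n × Fin n × Fin n × Fin n,
      {x | p.1 ≠ p.2.1 ∧ p.2.2.1 ≠ p.2.2.2 ∧ Dj p.1 p.2.1 p.2.2.1 p.2.2.2 ∧
        x ∈ D.edge p.1 p.2.1 ∧ x ∈ D.edge p.2.2.1 p.2.2.2} := by
    rintro x ⟨i, j, k, l, hx⟩
    exact mem_iUnion.2 ⟨(i, j, k, l), hx⟩
  refine Set.Finite.subset (finite_iUnion ?_) h
  rintro ⟨i, j, k, l⟩
  apply Set.Subsingleton.finite
  rintro x ⟨h1, h2, h3, h4, h5⟩ y ⟨-, -, -, h6, h7⟩
  exact D.once i j k l h1 h2 h3 ⟨h4, h5⟩ ⟨h6, h7⟩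

end Pool.HexDraw
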