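import Pool.Agent.Lib.MP_8613e3_co_hex.R02
import Pool.Agent.Lib.MP_8613e3_co_hex.PDefs

/-!
# P02: an arc passes the box of a crossing in one interval (60 min)

Let `e : ℝ → ℝ × ℝ`, `e a = (a, 0)` if `s = false`, `e a = (0, a)` if `s = true`. The map
`a ↦ φ.symm (e a)` is continuous and injective on `[-1,1]` and its image is
`A ∩ φ.symm '' K2` (by `hA`). For `a ∈ [-1,1]` let `g a ∈ [0,1]` be the unique parameter with
`γ (g a) = φ.symm (e a)`; `g` is continuous on `[-1,1]` (`γ` restricted to the compact `[0,1]` is a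
closed embedding, `S` is Hausdorff) and injective, hence strictly monotone or strictly antitone
on `[-1,1]`; its values are in the open interval `(0,1)` because the ends `p = γ 0`, `q = γ 1` are
not in the box. If it is increasing, take `d = true`, `a = g (-1)`, `t = g 0`, `b = g 1`,
otherwise `d = false`, `a = g 1`, `t = g 0`, `b = g (-1)`. The set of parameters with value in
the box is `g '' [-1,1] = [a,b]` (intermediate value theorem for `⊇`).
-/

namespace Pool.HexDraw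

open Set

variable {S : Type} [TopologicalSpace S] {n : ℕ}

theorem p02_core [T2Space S] {γ : ℝ → S} {p q : S} {A : Set S} (h : Param γ p q A)
    (φ : OpenPartialHomeomorph S (ℝ × ℝ)) (hK : K2 ⊆ φ.target) (e : ℝ → ℝ × ℝ)
    (hec : Continuous e) (hei : Function.Injective e) (heK : ∀ a ∈ Icc (-1 : ℝ) 1, e a ∈ K2)
    (heA : ∀ a ∈ Icc (-1 : ℝ) 1, φ.symm (e a) ∈ A)
    (hA : ∀ z ∈ K2, φ.symm z ∈ A → ∃ a ∈ Icc (-1 : ℝ) 1, z = e a)
    (hp : p ∉ φ.symm '' K2) (hq : q ∉ φ.symm '' K2) :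
    ∃ g : ℝ → ℝ, ContinuousOn g (Icc (-1) 1) ∧ InjOn g (Icc (-1) 1) ∧
      (∀ a ∈ Icc (-1 : ℝ) 1, g a ∈ Ioo (0 : ℝ) 1) ∧
      (∀ a ∈ Icc (-1 : ℝ) 1, γ (g a) = φ.symm (e a)) ∧
      ∀ u ∈ Icc (0 : ℝ) 1, (γ u ∈ φ.symm '' K2 ↔ u ∈ g '' Icc (-1) 1) := by
  obtain ⟨hc, hi, h0, h1, him⟩ := h
  have hex : ∀ a : ℝ, a ∈ Icc (-1 : ℝ) 1 → ∃ t : ℝ, t ∈ Icc (0 : ℝ) 1 ∧ γ t = φ.symm (e a) := by
    intro a ha
    have h2 := heA a ha
    rw [← him] at h2
    obtain ⟨t, ht, ht2⟩ := h2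
    exact ⟨t, ht, ht2⟩
  choose! g hg1 hg2 using hex
  have hsinj : InjOn φ.symm K2 := by
    intro x hx y hy hxy
    have := congrArg φ hxy
    rwa [φ.right_inv (hK hx), φ.right_inv (hK hy)] at this
  have hginj : InjOn g (Icc (-1) 1) := by
    intro a ha b hb hab
    have h2 : φ.symm (e a) = φ.symm (e b) := by rw [← hg2 a ha, ← hg2 b hb, hab]
    exact hei (hsinj (heK a ha) (heK b hb) h2)
  have hcont : ContinuousOn g (Icc (-1) 1) := by
    rw [continuousOn_iff_continuous_restrict]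
    let G : Icc (-1 : ℝ) 1 → Icc (0 : ℝ) 1 := fun a => ⟨g a, hg1 a a.2⟩
    have hr : Continuous ((Icc (0 : ℝ) 1).restrict γ) := continuousOn_iff_continuous_restrict.1 hc
    have hri : Function.Injective ((Icc (0 : ℝ) 1).restrict γ) := by
      intro a b hab
      exact Subtype.ext (hi a.2 b.2 hab)
    have hemb := (hr.isClosedEmbedding hri).isEmbedding
    have hG : Continuous G := by
      rw [hemb.continuous_iff]
      have hcomp : ((Icc (0 : ℝ) 1).restrict γ) ∘ G = fun a : Icc (-1 : ℝ) 1 => φ.symm (e a) := by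
        funext a
        exact hg2 a a.2
      rw [hcomp]
      have hs : ContinuousOn φ.symm K2 := φ.continuousOn_symm.mono hK
      exact hs.comp_continuous (hec.comp continuous_subtype_val) (fun a => heK a a.2)
    exact continuous_subtype_val.comp hG
  have hmem : ∀ a ∈ Icc (-1 : ℝ) 1, γ (g a) ∈ φ.symm '' K2 := by
    intro a ha
    rw [hg2 a ha]
    exact mem_image_of_mem _ (heK a ha)
  refine ⟨g, hcont, hginj, ?_, hg2, ?_⟩
  · intro a ha
    refine ⟨lt_of_le_of_ne (hg1 a ha).1 ?_, lt_of_le_of_ne (hg1 a ha).2 ?_⟩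
    · intro h3
      apply hp
      rw [← h0, h3]
      exact hmem a ha
    · intro h3
      apply hq
      rw [← h1, ← h3]
      exact hmem a ha
  · intro u hu
    constructor
    · rintro ⟨z, hz, hzu⟩
      have h3 : φ.symm z ∈ A := by
        rw [hzu, ← him]
        exact mem_image_of_mem _ hu
      obtain ⟨a, ha, hza⟩ := hA z hz h3
      refine ⟨a, ha, ?_⟩
      apply hi (hg1 a ha) hu
      rw [hg2 a ha, ← hzu, hza]
    · rintro ⟨a, ha, rfl⟩
      exact hmem a ha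

theorem box_interval [T2Space S] {γ : ℝ → S} {p q : S} {A : Set S} (h : Param γ p q A)
    (φ : OpenPartialHomeomorph S (ℝ × ℝ)) (hK : K2 ⊆ φ.target) (s : Bool)
    (hA : ∀ y ∈ φ.source, (y ∈ A ↔ (if s then (φ y).1 = 0 else (φ y).2 = 0)))
    (hp : p ∉ φ.symm '' K2) (hq : q ∉ φ.symm '' K2) :
    ∃ (a t b : ℝ) (d : Bool), 0 < a ∧ a < t ∧ t < b ∧ b < 1 ∧ γ t = φ.symm (0, 0) ∧
      γ a = φ.symm (dv s (!d)) ∧ γ b = φ.symm (dv s d) ∧
      ∀ u ∈ Icc (0 : ℝ) 1, (γ u ∈ φ.symm '' K2 ↔ u ∈ Icc a b) := by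
  have hm0 : (0 : ℝ) ∈ Icc (-1 : ℝ) 1 := ⟨by norm_num, by norm_num⟩
  have hm1 : (1 : ℝ) ∈ Icc (-1 : ℝ) 1 := ⟨by norm_num, by norm_num⟩
  have hmm : (-1 : ℝ) ∈ Icc (-1 : ℝ) 1 := ⟨by norm_num, by norm_num⟩
  obtain ⟨e, hec, hei, heK, heA, hA', he0, he1, hem⟩ : ∃ e : ℝ → ℝ × ℝ, Continuous e ∧
      Function.Injective e ∧ (∀ a ∈ Icc (-1 : ℝ) 1, e a ∈ K2) ∧
      (∀ a ∈ Icc (-1 : ℝ) 1, φ.symm (e a) ∈ A) ∧
      (∀ z ∈ K2, φ.symm z ∈ A → ∃ a ∈ Icc (-1 : ℝ) 1, z = e a) ∧ e 0 = (0, 0) ∧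
      e 1 = dv s true ∧ e (-1) = dv s false := by
    cases s
    · refine ⟨fun a => (a, 0), by fun_prop, ?_, ?_, ?_, ?_, rfl, rfl, rfl⟩
      · intro a b hab
        exact congrArg Prod.fst hab
      · intro a ha
        exact ⟨ha, hm0⟩
      · intro a ha
        have hz : ((a, 0) : ℝ × ℝ) ∈ K2 := ⟨ha, hm0⟩
        have h2 := (hA (φ.symm (a, 0)) (φ.map_target (hK hz))).2
        rw [φ.right_inv (hK hz)] at h2
        exact h2 rfl
      · intro z hz hzA
        have h2 := (hA (φ.symm z) (φ.map_target (hK hz))).1 hzA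
        rw [φ.right_inv (hK hz)] at h2
        exact ⟨z.1, hz.1, Prod.ext rfl h2⟩
    · refine ⟨fun a => (0, a), by fun_prop, ?_, ?_, ?_, ?_, rfl, rfl, rfl⟩
      · intro a b hab
        exact congrArg Prod.snd hab
      · intro a ha
        exact ⟨hm0, ha⟩
      · intro a ha
        have hz : ((0, a) : ℝ × ℝ) ∈ K2 := ⟨hm0, ha⟩
        have h2 := (hA (φ.symm (0, a)) (φ.map_target (hK hz))).2
        rw [φ.right_inv (hK hz)] at h2
        exact h2 rfl
      · intro z hz hzA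
        have h2 := (hA (φ.symm z) (φ.map_target (hK hz))).1 hzA
        rw [φ.right_inv (hK hz)] at h2
        exact ⟨z.2, hz.2, Prod.ext h2 rfl⟩
  obtain ⟨g, hgc, hgi, hg01, hgγ, hgim⟩ := p02_core h φ hK e hec hei heK heA hA' hp hq
  rcases ContinuousOn.strictMonoOn_of_injOn_Icc' (by norm_num : (-1 : ℝ) ≤ 1) hgc hgi with hm | hm
  · refine ⟨g (-1), g 0, g 1, true, (hg01 _ hmm).1, hm hmm hm0 (by norm_num),
      hm hm0 hm1 (by norm_num), (hg01 _ hm1).2, ?_, ?_, ?_, ?_⟩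
    · rw [hgγ _ hm0, he0]
    · rw [hgγ _ hmm, hem]
      rfl
    · rw [hgγ _ hm1, he1]
    · intro u hu
      rw [hgim u hu]
      constructor
      · rintro ⟨a, ha, rfl⟩
        exact ⟨hm.monotoneOn hmm ha ha.1, hm.monotoneOn ha hm1 ha.2⟩
      · intro hu2
        exact intermediate_value_Icc (by norm_num) hgc hu2
  · refine ⟨g 1, g 0, g (-1), false, (hg01 _ hm1).1, hm hm0 hm1 (by norm_num),
      hm hmm hm0 (by norm_num), (hg01 _ hmm).2, ?_, ?_, ?_, ?_⟩
    · rw [hgγ _ hm0, he0]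
    · rw [hgγ _ hm1, he1]
      rfl
    · rw [hgγ _ hmm, hem]
    · intro u hu
      rw [hgim u hu]
      constructor
      · rintro ⟨a, ha, rfl⟩
        exact ⟨hm.antitoneOn ha hm1 ha.2, hm.antitoneOn hmm ha ha.1⟩
      · intro hu2
        exact intermediate_value_Icc' (by norm_num) hgc hu2

end Pool.HexDraw
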