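import Pool.Agent.Lib.MP_8613e3_co_hex.RDefs
import Pool.Agent.Lib.MP_8613e3_co_hex.C02
import Pool.Agent.Lib.MP_8613e3_co_hex.R01
import Pool.Agent.Lib.MP_8613e3_co_hex.R02

/-!
# R03: the point set of a trail is an arc (75 min)

Let `h` be a trail `v → w` with list `l`, `v.1.1 ≠ w.1.1`, without a straight self-crossing
(`hs`). For a tail `l₂` of `l` (`l = l₁ ++ l₂`) and the departure dart `g` before it (`g = inl v`
if `l₁ = []`, `g = inr (mate ω c)` if `l₁` ends with `c`; then `flip g` is the head of `l₂`
or `inl w`) show by induction on `l₂` that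
`P g l₂ := seg g ∪ ⋃ c ∈ l₂, (chord ω c ∪ seg (inr (mate ω c)))` is an arc from `bp g` to
`pt w.1.1`. If `l₂ = []` this is `seg_arc`, since `flip g = inl w`. If `l₂ = c :: l₃`, then
`flip g = inr c`, `P (inr (mate ω c)) l₃` is an arc from `bp (inr (mate ω c))`, and one applies
`IsArc.append` twice, with `chord_arc` and with `seg_arc g`. The intersections:
* (chord with later segment) `y ∈ chord ω c`, `y ∈ seg (inr (mate ω c''))`, `c'' ∈ c :: l₃`: by
  `seg_box` `y = bp (inr c₁)`, `c₁.1 = c.1`, `inr c₁ = inr (mate ω c'')` or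
  `inr c₁ = flip (inr (mate ω c''))`; by `bp_mem_chord` `c₁ = c` or `c₁ = mate ω c`. We want
  `c₁ = mate ω c`. If `c₁ = c = mate ω c''` then `c'' = mate ω c` is in `l`: impossible by
  `mate_not_mem`. If `inr c = flip (inr (mate ω c''))`, then `c` is the dart after `c''` on the
  list (the walk `c'' :: l₄ → inl w` continues in `flip (inr (mate ω c''))`), so `c ∈ l₃`:
  impossible by `walk_nodup`.
* (chord with later chord) in different boxes: `disj`; in the same box with `c'' ∈ l₃`: `c'' ≠ c`,
  `c'' ≠ mate ω c`; if `ω c.1 = some b` use `chord_disj`; if it is `none`, `c` and `c''` are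
  darts of different strands on `l`, excluded by `hs`.
* (segment `g` with later segment) `y ∈ seg g`, `y ∈ seg (inr (mate ω c''))`, `c'' ∈ c :: l₃`:
  `seg_seg`. The case `inr (mate ω c'') = g`: then `g = inr (mate ω c₀)`, `c₀` the dart before
  `l₂` on `l`, `c'' = c₀` contradicts `walk_nodup`. The case
  `inr (mate ω c'') = flip g = inr c`: `c'' = mate ω c`, `mate_not_mem`. The case `y = pt i`:
  by `seg_pt` `flip (inr (mate ω c''))` is a vertex dart with owner `i`, so it is `inl w`
  (`c''` is the last dart of the list), and `g` is a vertex dart with owner `i`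
  (`flip g = inr c` is not), so `g = inl v`, `v.1.1 = i = w.1.1`, contradiction.
* (segment `g` with later chord) `y ∈ seg g`, `y ∈ chord ω c''`, `c'' ∈ c :: l₃`: `seg_box`:
  `y = bp (inr c₁)`, `c₁.1 = c''.1`, `inr c₁ = g` or `inr c₁ = flip g = inr c`; `bp_mem_chord`:
  `c₁ = c''` or `c₁ = mate ω c''`. We want `c₁ = c` (then `y = bp (inr c)`). If `inr c₁ = g` then
  `g = inr (mate ω c₀)`, `c₁ = mate ω c₀`: `c'' = mate ω c₀` or `c'' = c₀`, impossible.
Useful: formulate the induction for suffixes `l₂` of `l`, i.e. with `l₁` and `g` such that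
`N.Walk ω (flip (inl v)) l₁ (flip g)`, `l = l₁ ++ l₂` and `g = inl v ∨ ∃ c₀ ∈ l₁, g = inr (mate ω c₀)`.
-/

namespace Pool.HexDraw

open Set

variable {S : Type} [TopologicalSpace S] {n : ℕ} {X : Type}

theorem r03_nxt {N : Net n X} {ω : State X} {w : VD n} {l : List (CD X)} :
    ∀ {g : Dart n X}, N.Walk ω g l (Sum.inl w) → ∀ {c'' c₁ : CD X}, c'' ∈ l →
      Sum.inr c₁ = N.flip (Sum.inr (mate ω c'')) → c₁ ∈ l.tail := by
  induction l with
  | nil => intro g _ c'' c₁ hc; simp at hc
  | cons a b ih =>
    intro g hw c'' c₁ hc he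
    obtain ⟨_, hw2⟩ := hw
    rw [List.tail_cons]
    rcases List.mem_cons.1 hc with rfl | hc'
    · rw [← he] at hw2
      cases b with
      | nil => exact absurd hw2 (by simp [Net.Walk])
      | cons e b' =>
        have h1 : c₁ = e := Sum.inr_injective hw2.1
        rw [h1]
        exact List.mem_cons_self
    · exact List.mem_of_mem_tail (ih hw2 hc' he)

theorem r03_lst {N : Net n X} {ω : State X} {w : VD n} {l : List (CD X)} :
    ∀ {g : Dart n X}, N.Walk ω g l (Sum.inl w) → ∀ {c'' : CD X} {w' : VD n}, c'' ∈ l →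
      Sum.inl w' = N.flip (Sum.inr (mate ω c'')) → w' = w := by
  induction l with
  | nil => intro g _ c'' c₁ hc; simp at hc
  | cons a b ih =>
    intro g hw c'' w' hc he
    obtain ⟨_, hw2⟩ := hw
    rcases List.mem_cons.1 hc with rfl | hc'
    · rw [← he] at hw2
      cases b with
      | nil => exact Sum.inl_injective hw2
      | cons e b' => exact absurd hw2.1 (by simp)
    · exact ih hw2 hc' he

theorem r03_strand {ω : State X} {c c'' : CD X} (h1 : c''.1 = c.1) (h2 : c'' ≠ c)
    (h3 : c'' ≠ mate ω c) (hn : ω c.1 = none) : c''.2.1 = !c.2.1 := by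
  obtain ⟨x, s, d⟩ := c
  obtain ⟨x', s', d'⟩ := c''
  rw [mate_none hn] at h3
  simp only at h1 h2 h3 ⊢
  subst h1
  cases s <;> cases s' <;> cases d <;> cases d' <;> simp_all

theorem r03_mate_inj {ω : State X} {c c' : CD X} (h : mate ω c = mate ω c') : c = c' := by
  have h1 := congrArg (mate ω) h
  rwa [mate_mate, mate_mate] at h1

theorem trail_arc (T : TopNet S n X) {ω : State X} {v w : VD n} {l : List (CD X)}
    (h : T.toNet.Trail ω v l w) (hvw : v.1.1 ≠ w.1.1)
    (hs : ∀ x, ω x = none → ∀ d d', (x, false, d) ∈ l → (x, true, d') ∈ l → False) :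
    IsArc (T.pt v.1.1) (T.pt w.1.1) (T.trailSet ω v l) := by
  have hvw' : v ≠ w := fun e => hvw (by rw [e])
  have hnd : l.Nodup := walk_nodup h
  have key : ∀ (l₂ l₁ : List (CD X)) (g : Dart n X), l = l₁ ++ l₂ →
      T.toNet.Walk ω (T.flip g) l₂ (Sum.inl w) →
      (g = Sum.inl v ∨ ∃ c₀ ∈ l₁, g = Sum.inr (mate ω c₀)) →
      IsArc (T.bp g) (T.pt w.1.1)
        {y | y ∈ T.seg g ∨ ∃ c ∈ l₂, y ∈ T.toBoxes.chord ω c ∨ y ∈ T.seg (Sum.inr (mate ω c))} := by
    intro l₂
    induction l₂ with
    | nil =>
      intro l₁ g hl hw hg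
      have h1 : T.flip g = Sum.inl w := hw
      have h2 := T.seg_arc g
      rw [h1] at h2
      have e : {y | y ∈ T.seg g ∨ ∃ c ∈ ([] : List (CD X)), y ∈ T.toBoxes.chord ω c ∨
          y ∈ T.seg (Sum.inr (mate ω c))} = T.seg g := by
        ext y
        simp
      rw [e]
      exact h2
    | cons c l₃ ih =>
      intro l₁ g hl hw hg
      have hgc : T.flip g = Sum.inr c := hw.1
      have hw3 : T.toNet.Walk ω (T.flip (Sum.inr (mate ω c))) l₃ (Sum.inl w) := hw.2
      have hl' : l = (l₁ ++ [c]) ++ l₃ := by rw [hl]; simp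
      have hA := ih (l₁ ++ [c]) (Sum.inr (mate ω c)) hl' hw3
        (Or.inr ⟨c, by simp, rfl⟩)
      have hnd2 : (c :: l₃).Nodup := walk_nodup hw
      have hcl₃ : c ∉ l₃ := (List.nodup_cons.1 hnd2).1
      have hmem : ∀ c'' ∈ c :: l₃, c'' ∈ l := by
        intro c'' hc''
        rw [hl]
        exact List.mem_append_right _ hc''
      have hcl : c ∈ l := hmem c List.mem_cons_self
      have hdis : ∀ c₀ ∈ l₁, c₀ ∉ c :: l₃ := by
        intro c₀ h0 h1
        rw [hl] at hnd
        exact (List.nodup_append'.1 hnd).2.2 h0 h1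
      have hmate : ∀ c₁ ∈ l, ∀ c₂ ∈ l, mate ω c₁ ≠ c₂ := by
        intro c₁ h1 c₂ h2 e
        exact mate_not_mem h hvw' h1 (e ▸ h2)
      -- chord and later segment
      have f1 : ∀ y, y ∈ T.toBoxes.chord ω c → ∀ c'' ∈ c :: l₃, y ∈ T.seg (Sum.inr (mate ω c'')) →
          y = T.bp (Sum.inr (mate ω c)) := by
        intro y hy c'' hc'' hy2
        obtain ⟨c₁, e1, e2, e3⟩ := T.seg_box _ c.1 y hy2 (chord_sub_box c hy)
        rw [e2] at hy
        rcases bp_mem_chord e1 hy with e4 | e4
        · exfalso
          rw [e4] at e3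
          rcases e3 with e5 | e5
          · exact hmate c'' (hmem c'' hc'') c hcl (Sum.inr_injective e5).symm
          · exact hcl₃ (r03_nxt hw hc'' e5)
        · rw [e2, e4]
      -- chord and later chord
      have f2 : ∀ y, y ∈ T.toBoxes.chord ω c → ∀ c'' ∈ l₃, y ∉ T.toBoxes.chord ω c'' := by
        intro y hy c'' hc'' hy2
        have hc3 : c'' ∈ l := hmem c'' (List.mem_cons_of_mem _ hc'')
        have hne : c'' ≠ c := fun e => hcl₃ (e ▸ hc'')
        have hne2 : c'' ≠ mate ω c := fun e => hmate c hcl c'' hc3 e.symm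
        by_cases hx : c''.1 = c.1
        · cases hb : ω c.1 with
          | some b => exact (disjoint_left.1 (chord_disj hb hx hne hne2)) hy hy2
          | none =>
            have h1 := r03_strand hx hne hne2 hb
            obtain ⟨x, s, d⟩ := c
            obtain ⟨x', s', d'⟩ := c''
            simp only at hx h1 hb
            subst hx
            subst h1
            cases s
            · exact hs x' hb d d' hcl hc3
            · exact hs x' hb d' d hc3 hcl
        · exact (disjoint_left.1 (T.disj _ _ hx)) (chord_sub_box c'' hy2) (chord_sub_box c hy)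
      -- first union
      have g1 : IsArc (T.bp (Sum.inr c)) (T.pt w.1.1) (T.toBoxes.chord ω c ∪
          {y | y ∈ T.seg (Sum.inr (mate ω c)) ∨ ∃ c ∈ l₃, y ∈ T.toBoxes.chord ω c ∨
            y ∈ T.seg (Sum.inr (mate ω c))}) := by
        refine (chord_arc c).append hA ?_
        rintro y ⟨hy1, hy2⟩
        rw [mem_singleton_iff]
        rcases hy2 with hy2 | ⟨c'', hc'', hy2 | hy2⟩
        · exact f1 y hy1 c List.mem_cons_self hy2
        · exact absurd hy2 (f2 y hy1 c'' hc'')
        · exact f1 y hy1 c'' (List.mem_cons_of_mem _ hc'') hy2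
      -- segment and later segment
      have f3 : ∀ y, y ∈ T.seg g → ∀ c'' ∈ c :: l₃, y ∉ T.seg (Sum.inr (mate ω c'')) := by
        intro y hy c'' hc'' hy2
        rcases T.seg_seg g _ y hy hy2 with e | e | ⟨i, e⟩
        · rcases hg with hg | ⟨c₀, h0, hg⟩
          · rw [hg] at e; exact absurd e (by simp)
          · rw [hg] at e
            have e2 := r03_mate_inj (Sum.inr_injective e)
            exact hdis c₀ h0 (e2 ▸ hc'')
        · rw [hgc] at e
          exact hmate c'' (hmem c'' hc'') c hcl (Sum.inr_injective e)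
        · rw [e] at hy hy2
          obtain ⟨v', hv1, hv2⟩ := T.seg_pt g i hy
          obtain ⟨w', hw1, hw2⟩ := T.seg_pt _ i hy2
          have hv3 : Sum.inl v' = g := by
            rcases hv2 with hv2 | hv2
            · exact hv2
            · rw [hgc] at hv2; exact absurd hv2 (by simp)
          have hv4 : v' = v := by
            rcases hg with hg | ⟨c₀, h0, hg⟩
            · exact Sum.inl_injective (hv3.trans hg)
            · rw [hg] at hv3; exact absurd hv3 (by simp)
          have hw3 : w' = w := by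
            rcases hw2 with hw2 | hw2
            · exact absurd hw2 (by simp)
            · exact r03_lst hw hc'' hw2
          rw [hv4] at hv1
          rw [hw3] at hw1
          exact hvw (hv1.trans hw1.symm)
      -- segment and later chord
      have f4 : ∀ y, y ∈ T.seg g → ∀ c'' ∈ c :: l₃, y ∈ T.toBoxes.chord ω c'' →
          y = T.bp (Sum.inr c) := by
        intro y hy c'' hc'' hy2
        obtain ⟨c₁, e1, e2, e3⟩ := T.seg_box _ c''.1 y hy (chord_sub_box c'' hy2)
        rcases e3 with e3 | e3
        · exfalso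
          rcases hg with hg | ⟨c₀, h0, hg⟩
          · rw [hg] at e3; exact absurd e3 (by simp)
          · rw [hg] at e3
            have e4 : c₁ = mate ω c₀ := Sum.inr_injective e3
            have h0l : c₀ ∈ l := by rw [hl]; exact List.mem_append_left _ h0
            rw [e2] at hy2
            rcases bp_mem_chord e1 hy2 with e5 | e5
            · exact hmate c₀ h0l c'' (hmem c'' hc'') (e4.symm.trans e5)
            · have e6 := r03_mate_inj (e4.symm.trans e5)
              exact hdis c₀ h0 (e6 ▸ hc'')
        · rw [e2, e3, hgc]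
      have g2 := T.seg_arc g
      rw [hgc] at g2
      have g3 := g2.append g1 (by
        rintro y ⟨hy1, hy2⟩
        rw [mem_singleton_iff]
        rcases hy2 with hy2 | hy2 | ⟨c'', hc'', hy2 | hy2⟩
        · exact f4 y hy1 c List.mem_cons_self hy2
        · exact absurd hy2 (f3 y hy1 c List.mem_cons_self)
        · exact f4 y hy1 c'' (List.mem_cons_of_mem _ hc'') hy2
        · exact absurd hy2 (f3 y hy1 c'' (List.mem_cons_of_mem _ hc'')))
      convert g3 using 1
      ext y
      simp only [mem_ofPred_eq, mem_union, List.mem_cons, exists_eq_or_imp]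
      exact or_congr Iff.rfl or_assoc
  exact key l [] (Sum.inl v) rfl h (Or.inl rfl)

end Pool.HexDraw
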