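import Pool.Agent.Lib.MP_8613e3_co_hex.NDefs

/-!
# The point set of a trail
-/

namespace Pool.HexDraw

open Set

variable {S : Type} [TopologicalSpace S] {n : ℕ} {X : Type}

/-- The union of the segments and chords passed by the trail which leaves along `v` and has the
list `l` of arrival darts. -/
def TopNet.trailSet (T : TopNet S n X) (ω : State X) (v : VD n) (l : List (CD X)) : Set S :=
  {y | y ∈ T.seg (Sum.inl v) ∨ ∃ c ∈ l, y ∈ T.toBoxes.chord ω c ∨ y ∈ T.seg (Sum.inr (mate ω c))}

end Pool.HexDraw
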